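import Mathlib

/-!
# Project TZ (MP_0f6f3f_an): an identity in `SL(2)`, for exponentials in a Banach algebra

`X Y - Y X = T`, `T X - X T = 2 X`, `T Y - Y T = -2 Y`: `exp(s X) exp(ε Y) exp(s' X) = exp(t T) exp(ε e^t Y)` for `s = (e^t - 1) / ε`, `s' = -(1 - e^(-t)) / ε`.
-/

set_option autoImplicit false
set_option linter.unusedSectionVars false

open Filter Topology NormedSpace

namespace Pool.Agent.Helper9.Mau

variable {A : Type*} [NormedRing A] [NormedAlgebra ℝ A] [CompleteSpace A]

/-- conjugation by `exp (t X)` -/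
noncomputable def cc (X Z : A) (t : ℝ) : A := exp (t • X) * Z * exp ((-t) • X)

theorem exp_mul_neg (X : A) (t : ℝ) : exp (t • X) * exp ((-t) • X) = 1 := by
  let _ : NormedAlgebra ℚ A := NormedAlgebra.restrictScalars ℚ ℝ A
  rw [← exp_add_of_commute (((Commute.refl X).smul_left t).smul_right (-t)), ← add_smul, add_neg_cancel, zero_smul, exp_zero]

theorem exp_neg_mul (X : A) (t : ℝ) : exp ((-t) • X) * exp (t • X) = 1 := by
  have := exp_mul_neg X (-t)
  rwa [neg_neg] at this

theorem hasDerivAt_e (X : A) (t : ℝ) : HasDerivAt (fun u : ℝ => exp (u • X)) (X * exp (t • X)) t := hasDerivAt_exp_smul_const' X t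

theorem hasDerivAt_en (X : A) (t : ℝ) : HasDerivAt (fun u : ℝ => exp ((-u) • X)) (-(exp ((-t) • X) * X)) t := by
  have h1 : HasDerivAt (fun u : ℝ => exp (u • (-X))) (exp (t • (-X)) * (-X)) t := hasDerivAt_exp_smul_const (-X) t
  have h2 : (fun u : ℝ => exp (u • (-X))) = fun u : ℝ => exp ((-u) • X) := by
    funext u
    rw [smul_neg, neg_smul]
  rw [h2, mul_neg, smul_neg, ← neg_smul] at h1
  exact h1

theorem hasDerivAt_cc (X Z : A) (t : ℝ) : HasDerivAt (cc X Z) (cc X (X * Z - Z * X) t) t := by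
  have h1 : HasDerivAt (cc X Z) (X * exp (t • X) * Z * exp ((-t) • X) + exp (t • X) * Z * (-(exp ((-t) • X) * X))) t :=
    ((hasDerivAt_e X t).mul_const Z).mul (hasDerivAt_en X t)
  have hcomm : X * exp (t • X) = exp (t • X) * X := (hasDerivAt_exp_smul_const' X t).unique (hasDerivAt_exp_smul_const X t)
  have hcomm' : exp ((-t) • X) * X = X * exp ((-t) • X) :=
    (hasDerivAt_exp_smul_const X (-t)).unique (hasDerivAt_exp_smul_const' X (-t))
  refine h1.congr_deriv ?_
  unfold cc
  rw [hcomm, hcomm']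
  noncomm_ring

theorem const_of_zero {f : ℝ → A} (h : ∀ t, HasDerivAt f 0 t) (t : ℝ) : f t = f 0 :=
  is_const_of_deriv_eq_zero (fun t => (h t).differentiableAt) (fun t => (h t).deriv) t 0

theorem eq_of_deriv {f g : ℝ → A} {f' : ℝ → A} (hf : ∀ t, HasDerivAt f (f' t) t) (hg : ∀ t, HasDerivAt g (f' t) t) (h0 : f 0 = g 0)
    (t : ℝ) : f t = g t := by
  have h1 := const_of_zero (f := fun t => f t - g t) (fun t => by
    have := (hf t).sub (hg t)
    rwa [sub_self] at this) t
  have h2 : f t - g t = f 0 - g 0 := h1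
  rw [h0, sub_self] at h2
  exact sub_eq_zero.1 h2

theorem cc_zero (X Z : A) : cc X Z 0 = Z := by
  unfold cc
  rw [neg_zero, zero_smul, exp_zero, one_mul, mul_one]

theorem cc_add (X Z Z' : A) (t : ℝ) : cc X (Z + Z') t = cc X Z t + cc X Z' t := by
  unfold cc
  rw [mul_add, add_mul]

theorem cc_sub (X Z Z' : A) (t : ℝ) : cc X (Z - Z') t = cc X Z t - cc X Z' t := by
  unfold cc
  rw [mul_sub, sub_mul]

theorem cc_smul (X Z : A) (r t : ℝ) : cc X (r • Z) t = r • cc X Z t := by
  unfold cc
  rw [mul_smul_comm, smul_mul_assoc]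

theorem exp_mul (X Z : A) (t : ℝ) : exp (t • X) * Z = cc X Z t * exp (t • X) := by
  unfold cc
  rw [mul_assoc, exp_neg_mul, mul_one]

theorem hasDerivAt_lin (Z : A) (t : ℝ) : HasDerivAt (fun u : ℝ => u • Z) Z t := by
  have := (hasDerivAt_id t).smul_const Z
  rwa [one_smul] at this

theorem hasDerivAt_quad (Z : A) (t : ℝ) : HasDerivAt (fun u : ℝ => (u ^ 2) • Z) ((2 * t) • Z) t := by
  have := (hasDerivAt_pow 2 t).smul_const Z
  simpa using this

variable {X Y T : A}

/-- eigenvectors -/
theorem cc_eig {c : ℝ} (h : X * Y - Y * X = c • Y) (t : ℝ) : cc X Y t = Real.exp (c * t) • Y := by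
  have h1 : ∀ t : ℝ, HasDerivAt (fun u : ℝ => Real.exp (-(c * u)) • cc X Y u) 0 t := by
    intro t
    have h2 : HasDerivAt (fun u : ℝ => Real.exp (-(c * u))) (Real.exp (-(c * t)) * (-c)) t := by
      have h3 : HasDerivAt (fun u : ℝ => -(c * u)) (-c) t := by
        have h4 : HasDerivAt (fun u : ℝ => -(c * u)) (-(c * 1)) t := ((hasDerivAt_id t).const_mul c).neg
        rwa [mul_one] at h4
      exact h3.exp
    have h4 := h2.smul (hasDerivAt_cc X Y t)
    rw [h, cc_smul] at h4
    have h5 : Real.exp (-(c * t)) • c • cc X Y t + (Real.exp (-(c * t)) * (-c)) • cc X Y t = 0 := by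
      rw [smul_smul, ← add_smul]
      have : Real.exp (-(c * t)) * c + Real.exp (-(c * t)) * (-c) = 0 := by ring
      rw [this, zero_smul]
    rw [h5] at h4
    exact h4
  have h6 : Real.exp (-(c * t)) • cc X Y t = Real.exp (-(c * 0)) • cc X Y 0 := const_of_zero h1 t
  rw [cc_zero, mul_zero, neg_zero, Real.exp_zero, one_smul] at h6
  have h7 : c * t + -(c * t) = 0 := by ring
  calc cc X Y t = Real.exp (c * t) • (Real.exp (-(c * t)) • cc X Y t) := by
        rw [smul_smul, ← Real.exp_add, h7, Real.exp_zero, one_smul]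
    _ = Real.exp (c * t) • Y := by rw [h6]

theorem cc_self (X : A) (t : ℝ) : cc X X t = X := by
  have h : X * X - X * X = (0 : ℝ) • X := by rw [sub_self, zero_smul]
  rw [cc_eig h, zero_mul, Real.exp_zero, one_smul]

theorem cc_one {c : ℝ} {Z : A} (h : X * Z - Z * X = c • X) (t : ℝ) : cc X Z t = Z + (c * t) • X := by
  refine eq_of_deriv (f := cc X Z) (g := fun t => Z + (c * t) • X) (f' := fun _ => c • X) (fun t => ?_) (fun t => ?_) ?_ t
  · have := hasDerivAt_cc X Z t
    rwa [h, cc_smul, cc_self] at this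
  · have h2 : HasDerivAt (fun u : ℝ => c * u) c t := by
      have h3 : HasDerivAt (fun u : ℝ => c * u) (c * 1) t := (hasDerivAt_id t).const_mul c
      rwa [mul_one] at h3
    exact (h2.smul_const X).const_add Z
  · show cc X Z 0 = Z + (c * 0) • X
    rw [cc_zero, mul_zero, zero_smul, add_zero]

theorem cc_two {a c : ℝ} {Z W : A} (h : X * Z - Z * X = a • W) (h' : X * W - W * X = c • X) (t : ℝ) :
    cc X Z t = Z + (a * t) • W + (a * c * t ^ 2 / 2) • X := by
  refine eq_of_deriv (f := cc X Z) (g := fun t => Z + (a * t) • W + (a * c * t ^ 2 / 2) • X)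
    (f' := fun t => a • (W + (c * t) • X)) (fun t => ?_) (fun t => ?_) ?_ t
  · have := hasDerivAt_cc X Z t
    rwa [h, cc_smul, cc_one h'] at this
  · have h0 : HasDerivAt (fun u : ℝ => a * u) a t := by
      have h3 : HasDerivAt (fun u : ℝ => a * u) (a * 1) t := (hasDerivAt_id t).const_mul a
      rwa [mul_one] at h3
    have h1 : HasDerivAt (fun u : ℝ => Z + (a * u) • W) (a • W) t := (h0.smul_const W).const_add Z
    have h2 : HasDerivAt (fun u : ℝ => a * c * u ^ 2 / 2) (a * c * t) t := by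
      have h3 : HasDerivAt (fun u : ℝ => a * c * u ^ 2 / 2) (a * c * (((2 : ℕ) : ℝ) * t ^ (2 - 1)) / 2) t :=
        ((hasDerivAt_pow 2 t).const_mul (a * c)).div_const 2
      refine h3.congr_deriv ?_
      norm_num
      ring
    have h3 : HasDerivAt (fun u : ℝ => Z + (a * u) • W + (a * c * u ^ 2 / 2) • X) (a • W + (a * c * t) • X) t :=
      h1.add (h2.smul_const X)
    refine h3.congr_deriv ?_
    rw [smul_add, smul_smul, mul_assoc]
  · show cc X Z 0 = Z + (a * 0) • W + (a * c * 0 ^ 2 / 2) • X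
    rw [cc_zero]
    simp

/-- **The identity.** -/
theorem sl2_identity (hT : X * Y - Y * X = T) (h : T * X - X * T = (2 : ℝ) • X) (h' : T * Y - Y * T = (-2 : ℝ) • Y)
    {ε : ℝ} (hε : ε ≠ 0) (t : ℝ) :
    exp (((Real.exp t - 1) / ε) • X) * exp (ε • Y) * exp ((-(1 - Real.exp (-t)) / ε) • X) =
      exp (t • T) * exp ((ε * Real.exp t) • Y) := by
  have hXY : X * Y - Y * X = (1 : ℝ) • T := by rw [hT, one_smul]
  have hXT : X * T - T * X = (-2 : ℝ) • X := by
    rw [neg_smul, ← h]
    abel
  have hYX : Y * X - X * Y = (-1 : ℝ) • T := by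
    rw [neg_smul, one_smul, ← hT]
    abel
  have hYT : Y * T - T * Y = (2 : ℝ) • Y := by
    have : (2 : ℝ) • Y = -((-2 : ℝ) • Y) := by rw [neg_smul, neg_neg]
    rw [this, ← h']
    abel
  let sf : ℝ → ℝ := fun t => (Real.exp t - 1) / ε
  let rf : ℝ → ℝ := fun t => -(1 - Real.exp (-t)) / ε
  have hsf : ∀ t, HasDerivAt sf (Real.exp t / ε) t := fun t => ((Real.hasDerivAt_exp t).sub_const 1).div_const ε
  have hrf : ∀ t, HasDerivAt rf (-Real.exp (-t) / ε) t := fun t => by
    have h1 : HasDerivAt (fun u : ℝ => Real.exp (-u)) (Real.exp (-t) * (-1)) t := (hasDerivAt_neg t).exp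
    have h2 : HasDerivAt rf (-(-(Real.exp (-t) * (-1))) / ε) t := ((h1.const_sub 1).neg).div_const ε
    refine h2.congr_deriv ?_
    ring
  let L : ℝ → A := fun t => exp (sf t • X) * exp (ε • Y) * exp (rf t • X)
  have hL : ∀ t, HasDerivAt L ((T + (ε * Real.exp (-t)) • Y) * L t) t := by
    intro t
    have h1 : HasDerivAt (fun u => exp (sf u • X)) ((Real.exp t / ε) • (X * exp (sf t • X))) t :=
      (hasDerivAt_e X (sf t)).scomp t (hsf t)
    have h2 : HasDerivAt (fun u => exp (rf u • X)) ((-Real.exp (-t) / ε) • (exp (rf t • X) * X)) t :=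
      (hasDerivAt_exp_smul_const X (rf t)).scomp t (hrf t)
    have h3 := (h1.mul_const (exp (ε • Y))).mul h2
    have h4 : L t * X = cc X (cc Y X ε) (sf t) * L t := by
      have hc : exp (rf t • X) * X = X * exp (rf t • X) :=
        (hasDerivAt_exp_smul_const X (rf t)).unique (hasDerivAt_exp_smul_const' X (rf t))
      calc L t * X = exp (sf t • X) * (exp (ε • Y) * X) * exp (rf t • X) := by
            show exp (sf t • X) * exp (ε • Y) * exp (rf t • X) * X = _
            rw [mul_assoc _ (exp (rf t • X)) X, hc]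
            simp only [mul_assoc]
        _ = exp (sf t • X) * cc Y X ε * (exp (ε • Y) * exp (rf t • X)) := by
            rw [exp_mul Y X ε]
            simp only [mul_assoc]
        _ = _ := by
            rw [exp_mul X (cc Y X ε) (sf t)]
            show _ = cc X (cc Y X ε) (sf t) * (exp (sf t • X) * exp (ε • Y) * exp (rf t • X))
            simp only [mul_assoc]
    have h5 : cc X (cc Y X ε) (sf t) = (Real.exp t ^ 2) • X - (ε * Real.exp t) • T - (ε ^ 2) • Y := by
      rw [cc_two hYX hYT, cc_add, cc_add, cc_self, cc_smul, cc_smul, cc_one hXT, cc_two hXY hXT]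
      have hs : sf t * ε = Real.exp t - 1 := div_mul_cancel₀ _ hε
      have hs' : sf t = (Real.exp t - 1) / ε := rfl
      simp only [smul_add, smul_smul]
      have e1 : (Real.exp t ^ 2) • X - (ε * Real.exp t) • T - (ε ^ 2) • Y =
          (1 + 2 * (sf t * ε) + (sf t * ε) ^ 2) • X + (-ε - ε * (sf t * ε)) • T + (-ε ^ 2) • Y := by
        have c1 : 1 + 2 * (sf t * ε) + (sf t * ε) ^ 2 = Real.exp t ^ 2 := by rw [hs]; ring
        have c2 : -ε - ε * (sf t * ε) = -(ε * Real.exp t) := by rw [hs]; ring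
        rw [c1, c2]
        module
      rw [e1]
      have e2 : (1 + 2 * (sf t * ε) + (sf t * ε) ^ 2) • X = X + (2 * (sf t * ε)) • X + ((sf t * ε) ^ 2) • X := by
        rw [add_smul, add_smul, one_smul]
      rw [e2]
      module
    have h6 : (Real.exp t / ε) • (X * exp (sf t • X)) * exp (ε • Y) * exp (rf t • X) +
        exp (sf t • X) * exp (ε • Y) * ((-Real.exp (-t) / ε) • (exp (rf t • X) * X)) = (T + (ε * Real.exp (-t)) • Y) * L t := by
      have e1 : (Real.exp t / ε) • (X * exp (sf t • X)) * exp (ε • Y) * exp (rf t • X) = (Real.exp t / ε) • (X * L t) := by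
        rw [smul_mul_assoc, smul_mul_assoc]
        congr 1
        show X * exp (sf t • X) * exp (ε • Y) * exp (rf t • X) = X * (exp (sf t • X) * exp (ε • Y) * exp (rf t • X))
        simp only [mul_assoc]
      have e2 : exp (sf t • X) * exp (ε • Y) * ((-Real.exp (-t) / ε) • (exp (rf t • X) * X)) =
          (-Real.exp (-t) / ε) • (L t * X) := by
        rw [mul_smul_comm]
        congr 1
        show exp (sf t • X) * exp (ε • Y) * (exp (rf t • X) * X) = exp (sf t • X) * exp (ε • Y) * exp (rf t • X) * X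
        simp only [mul_assoc]
      rw [e1, e2, h4, h5, ← smul_mul_assoc, ← smul_mul_assoc, ← add_mul]
      congr 1
      have e3 : Real.exp (-t) * Real.exp t = 1 := by rw [← Real.exp_add, neg_add_cancel, Real.exp_zero]
      rw [smul_sub, smul_sub, smul_smul, smul_smul, smul_smul]
      have e4 : -Real.exp (-t) / ε * Real.exp t ^ 2 = -(Real.exp t / ε) := by
        calc -Real.exp (-t) / ε * Real.exp t ^ 2 = -((Real.exp (-t) * Real.exp t) * Real.exp t / ε) := by ring
          _ = _ := by rw [e3, one_mul]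
      have e5 : -Real.exp (-t) / ε * (ε * Real.exp t) = -1 := by
        calc -Real.exp (-t) / ε * (ε * Real.exp t) = -((Real.exp (-t) * Real.exp t) * (ε / ε)) := by ring
          _ = -1 := by rw [e3, div_self hε, one_mul]
      have e6 : -Real.exp (-t) / ε * ε ^ 2 = -(ε * Real.exp (-t)) := by
        field_simp
      rw [e4, e5, e6]
      module
    rw [h6] at h3
    exact h3
  let Q : ℝ → A := fun t => exp ((-(ε * Real.exp t)) • Y) * exp ((-t) • T)
  have hQ : ∀ t, HasDerivAt Q (-((ε * Real.exp t) • (Y * Q t)) - Q t * T) t := by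
    intro t
    let g : ℝ → ℝ := fun u => -(ε * Real.exp u)
    have h1 : HasDerivAt g (-(ε * Real.exp t)) t := ((Real.hasDerivAt_exp t).const_mul ε).neg
    have h2 : HasDerivAt (fun u : ℝ => exp (g u • Y)) ((-(ε * Real.exp t)) • (Y * exp (g t • Y))) t :=
      HasDerivAt.scomp t (hasDerivAt_e Y (g t)) h1
    have h3 : HasDerivAt Q ((-(ε * Real.exp t)) • (Y * exp (g t • Y)) * exp ((-t) • T) + exp (g t • Y) * (-(exp ((-t) • T) * T))) t :=
      h2.mul (hasDerivAt_en T t)
    refine h3.congr_deriv ?_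
    show _ = -((ε * Real.exp t) • (Y * (exp (g t • Y) * exp ((-t) • T)))) - exp (g t • Y) * exp ((-t) • T) * T
    rw [smul_mul_assoc, neg_smul, mul_neg]
    simp only [mul_assoc, sub_eq_add_neg]
  have hQY : ∀ t, Q t * Y = (Real.exp (2 * t)) • (Y * Q t) := by
    intro t
    have h1 : exp ((-t) • T) * Y = Real.exp (2 * t) • (Y * exp ((-t) • T)) := by
      rw [exp_mul, cc_eig h', smul_mul_assoc]
      congr 2
      ring
    have h2 : exp ((-(ε * Real.exp t)) • Y) * Y = Y * exp ((-(ε * Real.exp t)) • Y) :=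
      (hasDerivAt_exp_smul_const Y _).unique (hasDerivAt_exp_smul_const' Y _)
    show exp ((-(ε * Real.exp t)) • Y) * exp ((-t) • T) * Y = Real.exp (2 * t) • (Y * (exp ((-(ε * Real.exp t)) • Y) * exp ((-t) • T)))
    rw [mul_assoc, h1, mul_smul_comm, ← mul_assoc, h2, mul_assoc]
  have hD : ∀ t, HasDerivAt (fun t => Q t * L t) 0 t := by
    intro t
    have h1 : HasDerivAt (fun t => Q t * L t) ((-((ε * Real.exp t) • (Y * Q t)) - Q t * T) * L t +
        Q t * ((T + (ε * Real.exp (-t)) • Y) * L t)) t := (hQ t).mul (hL t)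
    refine h1.congr_deriv ?_
    have e1 : Q t * ((T + (ε * Real.exp (-t)) • Y) * L t) = Q t * T * L t + (ε * Real.exp t) • (Y * Q t * L t) := by
      have e2 : Real.exp (-t) * Real.exp (2 * t) = Real.exp t := by
        rw [← Real.exp_add]
        congr 1
        ring
      calc Q t * ((T + (ε * Real.exp (-t)) • Y) * L t) = Q t * T * L t + (ε * Real.exp (-t)) • (Q t * Y * L t) := by
            rw [add_mul, mul_add, smul_mul_assoc, mul_smul_comm, mul_assoc (Q t) T (L t), mul_assoc (Q t) Y (L t)]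
        _ = _ := by rw [hQY, smul_mul_assoc, smul_smul, mul_assoc ε (Real.exp (-t)), e2]
    rw [e1, sub_mul, neg_mul, smul_mul_assoc]
    abel
  have h7 : Q t * L t = Q 0 * L 0 := const_of_zero hD t
  have h8 : Q 0 * L 0 = 1 := by
    show exp ((-(ε * Real.exp 0)) • Y) * exp ((-(0 : ℝ)) • T) *
      (exp (((Real.exp 0 - 1) / ε) • X) * exp (ε • Y) * exp ((-(1 - Real.exp (-(0 : ℝ))) / ε) • X)) = 1
    rw [neg_zero, Real.exp_zero, sub_self, zero_div, neg_zero, zero_div, zero_smul, zero_smul, exp_zero, mul_one, mul_one, one_mul,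
      mul_one, exp_neg_mul]
  rw [h8] at h7
  have h9 : exp (t • T) * exp ((ε * Real.exp t) • Y) * Q t = 1 := by
    show exp (t • T) * exp ((ε * Real.exp t) • Y) * (exp ((-(ε * Real.exp t)) • Y) * exp ((-t) • T)) = 1
    rw [mul_assoc, ← mul_assoc (exp ((ε * Real.exp t) • Y)), exp_mul_neg, one_mul, exp_mul_neg]
  calc exp (((Real.exp t - 1) / ε) • X) * exp (ε • Y) * exp ((-(1 - Real.exp (-t)) / ε) • X) = L t := rfl
    _ = exp (t • T) * exp ((ε * Real.exp t) • Y) * Q t * L t := by rw [h9, one_mul]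
    _ = _ := by rw [mul_assoc _ (Q t), h7, mul_one]

end Pool.Agent.Helper9.Mau
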