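import Pool.Agent.Helper9.FP.Fr2

/-!
# Project TZ (MP_0f6f3f_an): quaternionic frames
-/

set_option autoImplicit false
set_option linter.unusedSectionVars false

open Filter Topology Matrix

namespace Pool.Agent.Helper9.Fra

open Pool.Agent.Helper90.RK Pool.Agent.Helper84.NI Pool.Agent.Helper78.BI Pool.Agent.Helper9.Lin

variable {N : ℕ} {q : Fin N}

/-- the bijection `pt` -/
def ptE (hN : Even N) : Equiv.Perm (Fin N) where
  toFun := pt hN
  invFun := pt hN
  left_inv := pt_pt hN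
  right_inv := pt_pt hN

/-- the quaternionic structure on the vectors -/
noncomputable def jE (hN : Even N) (v : EuclideanSpace ℂ (Fin N)) : EuclideanSpace ℂ (Fin N) :=
  WithLp.toLp 2 fun i => ep i * starRingEnd ℂ (v (pt hN i))

theorem jE_apply (hN : Even N) (v : EuclideanSpace ℂ (Fin N)) (i : Fin N) : jE hN v i = ep i * starRingEnd ℂ (v (pt hN i)) := rfl

theorem qs_jE (hN : Even N) : QS (jE hN) where
  smul c v := by
    ext i
    rw [jE_apply, PiLp.smul_apply, PiLp.smul_apply, jE_apply, smul_eq_mul, smul_eq_mul, map_mul]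
    ring
  jj v := by
    ext i
    rw [jE_apply, jE_apply, PiLp.neg_apply, map_mul, Complex.conj_conj, pt_pt, ep_conj, ep_pt, ← mul_assoc, mul_neg, ep_mul]
    ring
  inn v w := by
    rw [PiLp.inner_apply, PiLp.inner_apply, ← Equiv.sum_comp (ptE hN) fun i => inner ℂ (w i) (v i)]
    refine Finset.sum_congr rfl fun i _ => ?_
    rw [jE_apply, jE_apply]
    show _ = inner ℂ (w (pt hN i)) (v (pt hN i))
    rw [RCLike.inner_apply, RCLike.inner_apply, map_mul, ep_conj, Complex.conj_conj]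
    linear_combination (starRingEnd ℂ (w (pt hN i)) * v (pt hN i)) * ep_mul i

theorem sgH_apply (q : Fin N) (hN : Even N) (hq : Odd (q : ℕ)) (X : MN N) (i k : Fin N) :
    (sgH N q hN hq).σ X i k = ep i * ep k * starRingEnd ℂ (X (pt hN i) (pt hN k)) := by
  show (JH N * cjM X * (JH N)ᴴ) i k = _
  rw [JH_star hN, Matrix.mul_neg, neg_apply, mul_JH hN, JH_mul hN, cjM_apply]
  ring

theorem toEuclideanLin_apply' (B : MN N) (v : EuclideanSpace ℂ (Fin N)) (i : Fin N) :
    Matrix.toEuclideanLin B v i = ∑ k, B i k * v k := rfl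

theorem comm_jE (q : Fin N) (hN : Even N) (hq : Odd (q : ℕ)) {B : MN N} (hB : (sgH N q hN hq).σ B = B) (v : EuclideanSpace ℂ (Fin N)) :
    Matrix.toEuclideanLin B (jE hN v) = jE hN (Matrix.toEuclideanLin B v) := by
  ext i
  rw [jE_apply, toEuclideanLin_apply', toEuclideanLin_apply', map_sum, Finset.mul_sum,
    ← Equiv.sum_comp (ptE hN) fun k => ep i * starRingEnd ℂ (B (pt hN i) k * v k)]
  refine Finset.sum_congr rfl fun k _ => ?_
  show B i k * jE hN v k = ep i * starRingEnd ℂ (B (pt hN i) (pt hN k) * v (pt hN k))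
  have h1 : ep i * ep k * starRingEnd ℂ (B (pt hN i) (pt hN k)) = B i k := by
    rw [← sgH_apply q hN hq, hB]
  rw [jE_apply, map_mul, ← h1]
  linear_combination (ep i * starRingEnd ℂ (B (pt hN i) (pt hN k)) * starRingEnd ℂ (v (pt hN k))) * ep_mul k

/-- half of an index -/
def hf {n : ℕ} (hn : N = n + n) (c : Fin N) : Fin n := ⟨(c : ℕ) / 2, by
  have := c.2
  omega⟩

theorem hf_pt {n : ℕ} (hn : N = n + n) (hN : Even N) (c : Fin N) : hf hn (pt hN c) = hf hn c := by
  apply Fin.ext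
  show ((pt hN c : Fin N) : ℕ) / 2 = (c : ℕ) / 2
  rcases Nat.mod_two_eq_zero_or_one (c : ℕ) with h | h
  · have h1 := pt_even hN h
    omega
  · have h1 := pt_odd hN h
    omega

theorem hf_inj {n : ℕ} (hn : N = n + n) {c d : Fin N} (h : hf hn c = hf hn d) (h2 : (c : ℕ) % 2 = (d : ℕ) % 2) : c = d := by
  have h1 : (c : ℕ) / 2 = (d : ℕ) / 2 := congrArg Fin.val h
  apply Fin.ext
  omega

theorem spec_H (q : Fin N) (hN : Even N) (hq : Odd (q : ℕ)) (A : MN N) (hσ : (sgH N q hN hq).σ A = A) :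
    ∃ (k' : MN N) (e : Fin N → ℝ), IsU k' ∧ (sgH N q hN hq).σ k' = k' ∧ Antitone e ∧
      (∀ f : ℝ → ℝ, (sgH N q hN hq).σ (diagonal fun i => (f (e i) : ℂ)) = diagonal fun i => (f (e i) : ℂ)) ∧
      Aᴴ * A = k' * diagonal (fun i => (e i : ℂ)) * k'ᴴ := by
  obtain ⟨n, hn⟩ := id hN
  set s := sgH N q hN hq with hs
  have hBσ : s.σ (Aᴴ * A) = Aᴴ * A := by rw [s.mul, s.star, hσ]
  have hB : (Aᴴ * A).IsHermitian := isHermitian_conjTranspose_mul_self A
  set T := Matrix.toEuclideanLin (Aᴴ * A) with hT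
  have hTs : T.IsSymmetric := isSymmetric_toEuclideanLin_iff.2 hB
  obtain ⟨u, e, h1, h2, h3, h4⟩ := exists_fam_anti (qs_jE hN) hTs (comm_jE q hN hq hBσ) n (by
    rw [finrank_euclideanSpace, Fintype.card_fin]
    omega)
  let w : Fin N → EuclideanSpace ℂ (Fin N) := fun c => if (c : ℕ) % 2 = 0 then u (hf hn c) else jE hN (u (hf hn c))
  have hw0 : ∀ c : Fin N, (c : ℕ) % 2 = 0 → w c = u (hf hn c) := fun c hc => if_pos hc
  have hw1 : ∀ c : Fin N, (c : ℕ) % 2 = 1 → w c = jE hN (u (hf hn c)) := fun c hc => if_neg (by omega)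
  have hin : ∀ c d, inner ℂ (w c) (w d) = if c = d then (1 : ℂ) else 0 := by
    intro c d
    rcases Nat.mod_two_eq_zero_or_one (c : ℕ) with hc | hc <;> rcases Nat.mod_two_eq_zero_or_one (d : ℕ) with hd | hd
    · rw [hw0 c hc, hw0 d hd, h1]
      by_cases h : c = d
      · rw [if_pos h, if_pos (by rw [h])]
      · rw [if_neg h, if_neg fun h' => h (hf_inj hn h' (by omega))]
    · rw [hw0 c hc, hw1 d hd, ← inner_conj_symm, h2, map_zero, if_neg]
      intro h
      rw [h] at hc
      omega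
    · rw [hw1 c hc, hw0 d hd, h2, if_neg]
      intro h
      rw [h] at hc
      omega
    · rw [hw1 c hc, hw1 d hd, (qs_jE hN).inn, h1]
      by_cases h : c = d
      · rw [if_pos h, if_pos (by rw [h])]
      · rw [if_neg h, if_neg fun h' => h (hf_inj hn h'.symm (by omega))]
  have hTw : ∀ c, T (w c) = (e (hf hn c) : ℂ) • w c := by
    intro c
    rcases Nat.mod_two_eq_zero_or_one (c : ℕ) with hc | hc
    · rw [hw0 c hc, h3]
    · rw [hw1 c hc, comm_jE q hN hq hBσ]
      have h5 := h3 (hf hn c)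
      rw [hT] at h5
      rw [h5, (qs_jE hN).smul, Complex.conj_ofReal]
  let k : MN N := Matrix.of fun i c => w c i
  have hkk : kᴴ * k = 1 := by
    ext c d
    rw [mul_apply, one_apply, ← hin c d, PiLp.inner_apply]
    refine Finset.sum_congr rfl fun i _ => ?_
    rw [conjTranspose_apply, RCLike.inner_apply, mul_comm]
    rfl
  have hBk : (Aᴴ * A) * k = k * diagonal (fun c => (e (hf hn c) : ℂ)) := by
    ext i c
    rw [mul_diagonal, mul_apply]
    have h5 := congrArg (fun v : EuclideanSpace ℂ (Fin N) => v i) (hTw c)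
    have h6 : T (w c) i = ∑ l, (Aᴴ * A) i l * w c l := rfl
    calc ∑ l, (Aᴴ * A) i l * k l c = T (w c) i := h6.symm
      _ = ((e (hf hn c) : ℂ) • w c) i := h5
      _ = k i c * (e (hf hn c) : ℂ) := by
          rw [PiLp.smul_apply, smul_eq_mul, mul_comm]
          rfl
  refine ⟨k, fun c => e (hf hn c), hkk, ?_, fun c d hcd => h4 ?_, fun f => ?_, ?_⟩
  · ext i c
    rw [hs, sgH_apply]
    show ep i * ep c * starRingEnd ℂ (w (pt hN c) (pt hN i)) = w c i
    rcases Nat.mod_two_eq_zero_or_one (c : ℕ) with hc | hc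
    · have h5 := pt_even hN hc
      rw [hw0 c hc, hw1 (pt hN c) (by omega), hf_pt, jE_apply, pt_pt, map_mul, Complex.conj_conj, ep_conj, ep_pt]
      have h6 : ep c = -1 := by
        unfold ep
        rw [if_pos hc]
      rw [h6]
      linear_combination (u (hf hn c) i) * ep_mul i
    · have h5 := pt_odd hN hc
      rw [hw1 c hc, hw0 (pt hN c) (by omega), hf_pt, jE_apply]
      have h6 : ep c = 1 := by
        unfold ep
        rw [if_neg (by omega)]
      rw [h6, mul_one]
  · show (c : ℕ) / 2 ≤ (d : ℕ) / 2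
    exact Nat.div_le_div_right hcd
  · exact sig_diag hN (fun i => f (e (hf hn i))) fun i => by rw [hf_pt]
  · have h5 : k * kᴴ = 1 := mul_eq_one_comm.1 hkk
    calc Aᴴ * A = (Aᴴ * A) * (k * kᴴ) := by rw [h5, Matrix.mul_one]
      _ = _ := by rw [← Matrix.mul_assoc, hBk]

/-- **Quaternionic frames.** -/
theorem exists_sv_H {G : Type} [Group G] (P : PH G N) (q : Fin N) (hN : Even N) (hq : Odd (q : ℕ))
    (hP : ∀ g, (sgH N q hN hq).σ (P.ι g) = P.ι g) :
    ∃ S : Sv P, (∀ g, (sgH N q hN hq).σ (S.kR g) = S.kR g) ∧ (∀ g, (sgH N q hN hq).σ (S.kL g) = S.kL g) ∧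
      ∀ g, (sgH N q hN hq).σ (diagonal fun i => (S.s g i : ℂ)) = diagonal fun i => (S.s g i : ℂ) :=
  exists_sv_of P _ hP (spec_H q hN hq)

end Pool.Agent.Helper9.Fra
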