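import Pool.Agent.Helper9.FP.Lin4

/-!
# Project TZ (MP_0f6f3f_an): the real forms

`sigC m`: the identity, `D = 2 m²`; `sigJ J`: `X ↦ J conj(X) Jᴴ`, `J` unitary, `J conj(J) = ± 1` (real and quaternionic matrices), `D = m²`; `sigR m`: entrywise conjugation.
-/

set_option autoImplicit false

open Filter Topology MeasureTheory Matrix

namespace Pool.Agent.Helper9.Lin

variable {m : ℕ}

/-- entrywise conjugation -/
noncomputable def cjM (X : Matrix (Fin m) (Fin m) ℂ) : Matrix (Fin m) (Fin m) ℂ := X.map (starRingEnd ℂ)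

theorem cjM_apply (X : Matrix (Fin m) (Fin m) ℂ) (i j : Fin m) : cjM X i j = starRingEnd ℂ (X i j) := rfl

theorem cjM_add (X Y : Matrix (Fin m) (Fin m) ℂ) : cjM (X + Y) = cjM X + cjM Y := by
  ext i j
  simp [cjM_apply]

theorem cjM_mul (X Y : Matrix (Fin m) (Fin m) ℂ) : cjM (X * Y) = cjM X * cjM Y := by
  ext i j
  simp [cjM_apply, mul_apply]

theorem cjM_one : cjM (1 : Matrix (Fin m) (Fin m) ℂ) = 1 := by
  ext i j
  rw [cjM_apply, one_apply]
  split_ifs <;> simp

theorem cjM_smul (c : ℂ) (X : Matrix (Fin m) (Fin m) ℂ) : cjM (c • X) = (starRingEnd ℂ c) • cjM X := by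
  ext i j
  simp [cjM_apply]

theorem cjM_star (X : Matrix (Fin m) (Fin m) ℂ) : cjM Xᴴ = (cjM X)ᴴ := by
  ext i j
  rw [cjM_apply, conjTranspose_apply, conjTranspose_apply, cjM_apply]
  rfl

theorem cjM_cjM (X : Matrix (Fin m) (Fin m) ℂ) : cjM (cjM X) = X := by
  ext i j
  rw [cjM_apply, cjM_apply]
  exact Complex.conj_conj _

theorem cjM_neg (X : Matrix (Fin m) (Fin m) ℂ) : cjM (-X) = -cjM X := by
  ext i j
  simp [cjM_apply]

/-- The complex matrices. -/
def sigC (m : ℕ) : Sig m where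
  f X := X
  add _ _ := rfl
  mul _ _ := rfl
  one := rfl
  smul _ _ := rfl
  star _ := rfl

/-- `X ↦ J conj(X) Jᴴ` -/
noncomputable def sigJ (J : Matrix (Fin m) (Fin m) ℂ) (hU : J * Jᴴ = 1) : Sig m where
  f X := J * cjM X * Jᴴ
  add X Y := by rw [cjM_add, mul_add, add_mul]
  mul X Y := by
    have h : Jᴴ * J = 1 := mul_eq_one_comm.1 hU
    calc J * cjM (X * Y) * Jᴴ = J * cjM X * (1 * cjM Y) * Jᴴ := by rw [cjM_mul, one_mul, ← mul_assoc J]
      _ = J * cjM X * Jᴴ * (J * cjM Y * Jᴴ) := by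
          rw [← h]
          simp only [mul_assoc]
  one := by rw [cjM_one, mul_one, hU]
  smul r X := by rw [cjM_smul, Complex.conj_ofReal, mul_smul_comm, smul_mul_assoc]
  star X := by
    rw [cjM_star, conjTranspose_mul, conjTranspose_mul, conjTranspose_conjTranspose, mul_assoc]

/-- The real matrices. -/
noncomputable def sigR (m : ℕ) : Sig m := sigJ 1 (by rw [conjTranspose_one, mul_one])

theorem sigR_f (X : Matrix (Fin m) (Fin m) ℂ) : (sigR m).f X = cjM X := by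
  show 1 * cjM X * (1 : Matrix (Fin m) (Fin m) ℂ)ᴴ = cjM X
  rw [one_mul, conjTranspose_one, mul_one]

theorem finrank_cols : Module.finrank ℝ (Fin m → Fin m → ℂ) = 2 * m ^ 2 := by
  rw [Module.finrank_pi_fintype]
  simp only [Module.finrank_pi_fintype, Complex.finrank_real_complex, Finset.sum_const, Finset.card_univ, Fintype.card_fin,
    smul_eq_mul]
  ring

theorem finrank_sigC : Module.finrank ℝ (sigC m).fx = 2 * m ^ 2 := by
  have h1 : (sigC m).fx = ⊤ := by
    rw [Submodule.eq_top_iff']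
    intro x
    exact rfl
  rw [h1, finrank_top, finrank_cols]

theorem inj_aux (s : Sig m) (h1 : ∀ X, s.f (Complex.I • X) = -(Complex.I • s.f X)) (X Y : Matrix (Fin m) (Fin m) ℂ)
    (hX : s.f X = X) (hY : s.f Y = Y) (h : X + Complex.I • Y = 0) : X = 0 ∧ Y = 0 := by
  have h4 := congrArg s.f h
  rw [s.add, h1, s.zero, hX, hY] at h4
  have h5 : (2 : ℂ) • X = 0 := by
    rw [two_smul]
    calc X + X = X + Complex.I • Y + (X + -(Complex.I • Y)) := by abel
      _ = 0 := by rw [h, h4, add_zero]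
  have h6 : X = 0 := (smul_eq_zero.1 h5).resolve_left two_ne_zero
  rw [h6, zero_add] at h
  exact ⟨h6, (smul_eq_zero.1 h).resolve_left Complex.I_ne_zero⟩

/-- a conjugate linear involution has a fixed space of half the dimension -/
theorem finrank_of_conj (s : Sig m) (h1 : ∀ X, s.f (Complex.I • X) = -(Complex.I • s.f X)) (h2 : ∀ X, s.f (s.f X) = X) :
    Module.finrank ℝ s.fx = m ^ 2 := by
  have hneg : ∀ X, s.f (-X) = -s.f X := fun X => by
    have h := s.smul (-1) X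
    rw [Complex.ofReal_neg, Complex.ofReal_one, neg_smul, one_smul, neg_smul, one_smul] at h
    exact h
  have hhalf : ∀ X, s.f ((2 : ℂ)⁻¹ • X) = (2 : ℂ)⁻¹ • s.f X := fun X => by
    have h := s.smul (2⁻¹) X
    push_cast at h
    exact h
  let L : (s.fx × s.fx) →ₗ[ℝ] (Fin m → Fin m → ℂ) :=
    { toFun := fun p => (p.1 : Fin m → Fin m → ℂ) + Complex.I • (p.2 : Fin m → Fin m → ℂ)
      map_add' := fun p q => by
        simp only [Prod.fst_add, Prod.snd_add, Submodule.coe_add, smul_add]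
        abel
      map_smul' := fun r p => by
        simp only [Prod.smul_fst, Prod.smul_snd, Submodule.coe_smul, smul_add, RingHom.id_apply]
        rw [smul_comm r Complex.I] }
  have hinj : Function.Injective L := by
    rw [← LinearMap.ker_eq_bot, LinearMap.ker_eq_bot']
    rintro ⟨⟨X, hX⟩, ⟨Y, hY⟩⟩ h
    have h3 := inj_aux s h1 X Y hX hY h
    exact Prod.ext (Subtype.ext h3.1) (Subtype.ext h3.2)
  have hsurj : Function.Surjective L := by
    intro Z
    let Z' : Matrix (Fin m) (Fin m) ℂ := Z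
    let A : Matrix (Fin m) (Fin m) ℂ := (2 : ℂ)⁻¹ • (Z' + s.f Z')
    let B : Matrix (Fin m) (Fin m) ℂ := (2 : ℂ)⁻¹ • (-(Complex.I • (Z' + -s.f Z')))
    have hA : s.f A = A := by
      show s.f ((2 : ℂ)⁻¹ • (Z' + s.f Z')) = (2 : ℂ)⁻¹ • (Z' + s.f Z')
      rw [hhalf, s.add, h2, add_comm]
    have hB : s.f B = B := by
      show s.f ((2 : ℂ)⁻¹ • (-(Complex.I • (Z' + -s.f Z')))) = (2 : ℂ)⁻¹ • (-(Complex.I • (Z' + -s.f Z')))
      rw [hhalf, hneg, h1, s.add, hneg, h2, neg_neg]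
      congr 1
      rw [← smul_neg]
      congr 1
      abel
    refine ⟨(⟨A, hA⟩, ⟨B, hB⟩), ?_⟩
    show A + Complex.I • B = Z'
    show (2 : ℂ)⁻¹ • (Z' + s.f Z') + Complex.I • ((2 : ℂ)⁻¹ • (-(Complex.I • (Z' + -s.f Z')))) = Z'
    rw [smul_comm Complex.I, smul_neg, smul_smul Complex.I, Complex.I_mul_I, neg_smul, one_smul, neg_neg, ← smul_add]
    have h3 : Z' + s.f Z' + (Z' + -s.f Z') = (2 : ℂ) • Z' := by
      rw [two_smul]
      abel
    rw [h3, smul_smul, inv_mul_cancel₀ two_ne_zero, one_smul]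
  have h3 := (LinearEquiv.ofBijective L ⟨hinj, hsurj⟩).finrank_eq
  rw [Module.finrank_prod, finrank_cols] at h3
  omega

theorem sigJ_conj (J : Matrix (Fin m) (Fin m) ℂ) (hU : J * Jᴴ = 1) (X : Matrix (Fin m) (Fin m) ℂ) :
    (sigJ J hU).f (Complex.I • X) = -(Complex.I • (sigJ J hU).f X) := by
  show J * cjM (Complex.I • X) * Jᴴ = -(Complex.I • (J * cjM X * Jᴴ))
  rw [cjM_smul, Complex.conj_I, neg_smul, mul_neg, neg_mul, mul_smul_comm, smul_mul_assoc]

theorem sigJ_invol (J : Matrix (Fin m) (Fin m) ℂ) (hU : J * Jᴴ = 1) (hJ : J * cjM J = 1 ∨ J * cjM J = -1)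
    (X : Matrix (Fin m) (Fin m) ℂ) : (sigJ J hU).f ((sigJ J hU).f X) = X := by
  show J * cjM (J * cjM X * Jᴴ) * Jᴴ = X
  rw [cjM_mul, cjM_mul, cjM_cjM, cjM_star]
  have h1 : J * (cjM J * X * (cjM J)ᴴ) * Jᴴ = (J * cjM J) * X * (J * cjM J)ᴴ := by
    rw [conjTranspose_mul]
    simp only [mul_assoc]
  rw [h1]
  rcases hJ with h | h
  · rw [h, conjTranspose_one, one_mul, mul_one]
  · rw [h, conjTranspose_neg, conjTranspose_one, neg_mul, one_mul, mul_neg, mul_one, neg_neg]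

theorem finrank_sigJ (J : Matrix (Fin m) (Fin m) ℂ) (hU : J * Jᴴ = 1) (hJ : J * cjM J = 1 ∨ J * cjM J = -1) :
    Module.finrank ℝ (sigJ J hU).fx = m ^ 2 := finrank_of_conj _ (sigJ_conj J hU) (sigJ_invol J hU hJ)

theorem finrank_sigR : Module.finrank ℝ (sigR m).fx = m ^ 2 := finrank_sigJ _ _ (Or.inl (by rw [cjM_one, mul_one]))

/-- an antisymmetric unitary matrix is a quaternionic structure -/
theorem mul_cjM_of_anti {J : Matrix (Fin m) (Fin m) ℂ} (hU : J * Jᴴ = 1) (hT : Jᵀ = -J) : J * cjM J = -1 := by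
  have h1 : cjM J = -Jᴴ := by
    ext i j
    have h2 : J j i = -J i j := congrFun (congrFun hT i) j
    rw [cjM_apply, Matrix.neg_apply, conjTranspose_apply, h2, star_neg, neg_neg]
    rfl
  rw [h1, mul_neg, hU]

theorem finrank_sigJ_anti (J : Matrix (Fin m) (Fin m) ℂ) (hU : J * Jᴴ = 1) (hT : Jᵀ = -J) :
    Module.finrank ℝ (sigJ J hU).fx = m ^ 2 := finrank_sigJ _ _ (Or.inr (mul_cjM_of_anti hU hT))

end Pool.Agent.Helper9.Lin
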