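import Mathlib

/-!
# Project TZ (MP_0f6f3f_an): a criterion for unimodularity; volume of small balls from nets

If `θ` is an automorphism of the topological group `G`, `K` a compact subgroup and every element is a product `k p` with `k ∈ K`, `θ p = p⁻¹`, then `G` is
unimodular.
-/

set_option autoImplicit false

open Filter Topology MeasureTheory
open scoped ENNReal NNReal Pointwise

namespace Pool.Agent.Helper9.Lin

variable {G : Type*} [Group G] [TopologicalSpace G] [IsTopologicalGroup G] [LocallyCompactSpace G] [SecondCountableTopology G]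
  [MeasurableSpace G] [BorelSpace G]

theorem map_mul_right_eq (μ : Measure G) [μ.IsHaarMeasure] (g : G) :
    Measure.map (· * g) μ = Measure.modularCharacter g • μ := by
  have h1 : Measure.map (· * g) μ = (Measure.haarScalarFactor (Measure.map (· * g) μ) μ) • μ :=
    Measure.isMulLeftInvariant_eq_smul _ _
  have h2 := Measure.modularCharacterFun_eq_haarScalarFactor μ g
  rw [← h2] at h1
  exact h1

/-- a set of positive finite measure -/
theorem exists_pos (μ : Measure G) [μ.IsHaarMeasure] : ∃ U : Set G, IsCompact U ∧ μ U ≠ 0 ∧ μ U ≠ ∞ := by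
  obtain ⟨U, hU, hU1⟩ := exists_compact_mem_nhds (1 : G)
  exact ⟨U, hU, (Measure.measure_pos_of_mem_nhds μ hU1).ne', hU.measure_lt_top.ne⟩

theorem smul_inj (μ : Measure G) [μ.IsHaarMeasure] {a b : ℝ≥0} (h : a • μ = b • μ) : a = b := by
  obtain ⟨U, -, h0, h1⟩ := exists_pos μ
  have h2 : (a • μ) U = (b • μ) U := by rw [h]
  rw [Measure.smul_apply, Measure.smul_apply, ENNReal.smul_def, ENNReal.smul_def, smul_eq_mul, smul_eq_mul] at h2
  exact_mod_cast (ENNReal.mul_left_inj h0 h1).1 h2

/-- the modular character and automorphisms -/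
theorem modular_aut (θ : G ≃* G) (hθ : Continuous θ) (hθ' : Continuous θ.symm) (g : G) :
    Measure.modularCharacter (θ g) = Measure.modularCharacter g := by
  let μ : Measure G := Measure.haar
  have hHaar : (Measure.map θ μ).IsHaarMeasure := θ.isHaarMeasure_map μ hθ hθ'
  have h1 := map_mul_right_eq (Measure.map θ μ) (θ g)
  have h2 : Measure.map (· * θ g) (Measure.map θ μ) = Measure.map θ (Measure.map (· * g) μ) := by
    have hm : Measurable fun x : G => x * θ g := (continuous_id.mul continuous_const).measurable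
    have hm' : Measurable fun x : G => x * g := (continuous_id.mul continuous_const).measurable
    rw [Measure.map_map hm hθ.measurable, Measure.map_map hθ.measurable hm']
    congr 1
    funext x
    exact (map_mul θ x g).symm
  rw [h2, map_mul_right_eq μ g, Measure.map_smul] at h1
  exact (smul_inj _ h1).symm

theorem modular_compact {K : Subgroup G} (hK : IsCompact (K : Set G)) {k : G} (hk : k ∈ K) : Measure.modularCharacter k = 1 := by
  let μ : Measure G := Measure.haar
  obtain ⟨U, hU, h0, h1⟩ := exists_pos μ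
  have key : ∀ k ∈ K, Measure.modularCharacter k ≤ 1 := by
    intro k hk
    by_contra hlt
    rw [not_le] at hlt
    have hb : ∀ n : ℕ, ((Measure.modularCharacter k ^ n : ℝ≥0) : ENNReal) * μ U ≤ μ (U * (K : Set G)) := by
      intro n
      have h2 : (Measure.map (· * k ^ n) μ) U = ((Measure.modularCharacter k ^ n : ℝ≥0) : ENNReal) * μ U := by
        rw [map_mul_right_eq, map_pow]
        rfl
      rw [← h2]
      have hm : Measurable fun x : G => x * k ^ n := (continuous_id.mul continuous_const).measurable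
      have h3 : MeasurableSet (closure U) := isClosed_closure.measurableSet
      calc (Measure.map (· * k ^ n) μ) U ≤ (Measure.map (· * k ^ n) μ) (closure U) := measure_mono subset_closure
        _ = μ ((fun x : G => x * k ^ n) ⁻¹' closure U) := Measure.map_apply hm h3
        _ ≤ μ (closure (U * (K : Set G))) := by
            refine measure_mono fun x hx => ?_
            have hx' : x * k ^ n ∈ closure U := hx
            have h4 : (fun y : G => y * (k ^ n)⁻¹) '' closure U ⊆ closure ((fun y : G => y * (k ^ n)⁻¹) '' U) :=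
              image_closure_subset_closure_image (continuous_id.mul continuous_const)
            have h5 : x ∈ closure ((fun y : G => y * (k ^ n)⁻¹) '' U) := h4 ⟨_, hx', by simp⟩
            refine closure_mono ?_ h5
            rintro y ⟨u, hu, rfl⟩
            exact Set.mul_mem_mul hu (K.inv_mem (K.pow_mem hk n))
        _ = μ (U * (K : Set G)) := (hU.mul hK).measure_closure μ
    have hfin : μ (U * (K : Set G)) ≠ ∞ := (hU.mul hK).measure_lt_top.ne
    have h6 : Tendsto (fun n : ℕ => ((Measure.modularCharacter k ^ n : ℝ≥0) : ENNReal)) atTop (𝓝 ∞) :=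
      ENNReal.tendsto_coe_nhds_top.2 (tendsto_pow_atTop_atTop_of_one_lt hlt)
    have h7 := ENNReal.Tendsto.mul_const (b := μ U) h6 (Or.inr h1)
    rw [ENNReal.top_mul h0] at h7
    have h8 := le_of_tendsto' h7 hb
    exact hfin (top_le_iff.1 h8)
  refine le_antisymm (key k hk) ?_
  have h2 := key k⁻¹ (K.inv_mem hk)
  have h3 : Measure.modularCharacter k * Measure.modularCharacter k⁻¹ = 1 := by rw [← map_mul, mul_inv_cancel, map_one]
  calc (1 : ℝ≥0) = Measure.modularCharacter k * Measure.modularCharacter k⁻¹ := h3.symm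
    _ ≤ Measure.modularCharacter k * 1 := by gcongr
    _ = _ := mul_one _

/-- **A criterion for unimodularity.** -/
theorem unimodular_of (θ : G ≃* G) (hθ : Continuous θ) (hθ' : Continuous θ.symm) {K : Subgroup G} (hK : IsCompact (K : Set G))
    (hp : ∀ g : G, ∃ k ∈ K, ∃ p : G, g = k * p ∧ θ p = p⁻¹) (μ : Measure G) [μ.IsHaarMeasure] : μ.IsMulRightInvariant := by
  have h1 : ∀ g : G, Measure.modularCharacter g = 1 := by
    intro g
    obtain ⟨k, hk, p, rfl, hp⟩ := hp g
    rw [map_mul, modular_compact hK hk, one_mul]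
    have h2 := modular_aut θ hθ hθ' p
    rw [hp] at h2
    have h3 : Measure.modularCharacter p * Measure.modularCharacter p⁻¹ = 1 := by rw [← map_mul, mul_inv_cancel, map_one]
    rw [h2, ← sq] at h3
    exact (pow_eq_one_iff_of_nonneg (bot_le : (0 : NNReal) ≤ _) two_ne_zero).1 h3
  constructor
  intro g
  rw [map_mul_right_eq, h1, one_smul]

/-- **The volume of small balls from nets.** -/
theorem vol_of_net (μ : Measure G) [μ.IsHaarMeasure] (ln : G → ℝ) {B : Set G} (hB : IsCompact B) (hB1 : B ∈ 𝓝 (1 : G)) (d : ℕ)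
    {C : ℝ} (hC0 : 0 < C) (hC : ∀ δ : ℝ, 0 < δ → δ ≤ 1 → ∃ P : Finset G, (P.card : ℝ) ≤ C * δ⁻¹ ^ d ∧
      ∀ g ∈ B, ∃ k ∈ P, ln (k⁻¹ * g) ≤ δ) : ∃ c : ℝ, 0 < c ∧ ∀ r : ℝ, 0 < r → r ≤ 1 →
    ENNReal.ofReal (c * r ^ d) ≤ μ {h | ln h ≤ r} := by
  have hB0 : μ B ≠ 0 := (Measure.measure_pos_of_mem_nhds μ hB1).ne'
  have hBt : μ B ≠ ∞ := hB.measure_lt_top.ne
  refine ⟨(μ B).toReal / C, div_pos (ENNReal.toReal_pos hB0 hBt) hC0, ?_⟩
  intro r hr hr1
  obtain ⟨P, hP1, hP3⟩ := hC r hr hr1
  have h1 : B ⊆ ⋃ k ∈ P, (fun h => k⁻¹ * h) ⁻¹' {h | ln h ≤ r} := by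
    intro g hg
    obtain ⟨k, hk, h2⟩ := hP3 g hg
    exact Set.mem_iUnion₂.2 ⟨k, hk, h2⟩
  have h2 : μ B ≤ (P.card : ENNReal) * μ {h | ln h ≤ r} := by
    calc μ B ≤ μ (⋃ k ∈ P, (fun h => k⁻¹ * h) ⁻¹' {h | ln h ≤ r}) := measure_mono h1
      _ ≤ ∑ k ∈ P, μ ((fun h => k⁻¹ * h) ⁻¹' {h | ln h ≤ r}) := measure_biUnion_finset_le _ _
      _ = (P.card : ENNReal) * μ {h | ln h ≤ r} := by
          rw [Finset.sum_congr rfl fun k _ => measure_preimage_mul μ k⁻¹ _, Finset.sum_const, nsmul_eq_mul]
  have h3 : (P.card : ENNReal) ≤ ENNReal.ofReal (C * r⁻¹ ^ d) := by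
    rw [← ENNReal.ofReal_natCast]
    exact ENNReal.ofReal_le_ofReal hP1
  have h4 : μ B ≤ ENNReal.ofReal (C * r⁻¹ ^ d) * μ {h | ln h ≤ r} := h2.trans (by gcongr)
  have h5 : ENNReal.ofReal ((μ B).toReal / C * r ^ d) = ENNReal.ofReal (r ^ d / C) * μ B := by
    rw [← ENNReal.ofReal_toReal hBt, ← ENNReal.ofReal_mul (by positivity), ENNReal.toReal_ofReal ENNReal.toReal_nonneg]
    congr 1
    ring
  rw [h5]
  calc ENNReal.ofReal (r ^ d / C) * μ B ≤ ENNReal.ofReal (r ^ d / C) * (ENNReal.ofReal (C * r⁻¹ ^ d) * μ {h | ln h ≤ r}) := by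
        gcongr
    _ = μ {h | ln h ≤ r} := by
        rw [← mul_assoc, ← ENNReal.ofReal_mul (by positivity)]
        have h6 : r ^ d / C * (C * r⁻¹ ^ d) = 1 := by
          rw [inv_pow]
          field_simp
        rw [h6, ENNReal.ofReal_one, one_mul]

end Pool.Agent.Helper9.Lin
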