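import Pool.Agent.Helper9.FP.Lin4
import Pool.Agent.Helper43.TZ.Defs

/-!
# Project TZ (MP_0f6f3f_an): the size function on `SQ σ`

`rq = m * lnq` satisfies the axioms of `Siz`, of dimension `D - 1`.
-/

set_option autoImplicit false

open Filter Topology MeasureTheory Matrix
open scoped ENNReal
open Pool.Agent.Helper43.TZ

namespace Pool.Agent.Helper9.Lin

section Bump

variable {S : Type} [Group S] [TopologicalSpace S] [IsTopologicalGroup S] [LocallyCompactSpace S] [SecondCountableTopology S] [T2Space S]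
  [MeasurableSpace S] [BorelSpace S]

/-- **Lipschitz bump functions.** -/
theorem exists_bump (μ : Measure S) [μ.IsHaarMeasure] (ρ : S → ℝ) (cont : Continuous ρ) (nonneg : ∀ g, 0 ≤ ρ g) (one : ρ 1 = 0)
    (mul : ∀ g h, ρ (g * h) ≤ ρ g + ρ h + ρ g * ρ h) (inv : ∀ g, ρ g ≤ 1 / 2 → ρ g⁻¹ ≤ 2 * ρ g)
    (cpt : IsCompact {g | ρ g ≤ 1}) (r : ℝ) (hr : 0 < r) :
    ∃ f : S → ℝ, Continuous f ∧ HasCompactSupport f ∧ (∀ h, 0 ≤ f h) ∧ (∀ h, f h ≠ 0 → ρ h < r) ∧
    ∫ h, f h ∂μ = 1 ∧ ∃ C : ℝ, ∀ g, ∫ h, |f (g⁻¹ * h) - f h| ∂μ ≤ C * ρ g := by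
  obtain ⟨q, hq0, hq1, hqr⟩ : ∃ q : ℝ, 0 < q ∧ q ≤ 1 ∧ q ≤ r := ⟨min r 1, by positivity, min_le_right _ _, min_le_left _ _⟩
  let f0 : S → ℝ := fun h => max 0 (q - ρ h)
  have hf0c : Continuous f0 := continuous_const.max (continuous_const.sub cont)
  have hf0n : ∀ h, 0 ≤ f0 h := fun h => le_max_left _ _
  have hf0s : ∀ h, f0 h ≠ 0 → ρ h < q := fun h hh => by
    by_contra hlt
    exact hh (max_eq_left (by linarith))
  have hf0le : ∀ h, f0 h ≤ q := fun h => max_le hq0.le (by linarith [nonneg h])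
  have hsupp : HasCompactSupport f0 := by
    refine HasCompactSupport.intro (K := {g | ρ g ≤ 1}) cpt fun h hh => ?_
    by_contra h0
    exact hh ((hf0s h h0).le.trans hq1)
  have hint0 : 0 < ∫ h, f0 h ∂μ := by
    refine hf0c.integral_pos_of_hasCompactSupport_nonneg_nonzero hsupp hf0n (x := 1) ?_
    show max 0 (q - ρ 1) ≠ 0
    rw [one, sub_zero, max_eq_right hq0.le]
    exact hq0.ne'
  set I := ∫ h, f0 h ∂μ with hI
  have hf0i : Integrable f0 μ := hf0c.integrable_of_hasCompactSupport hsupp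
  -- the pointwise bound
  have hK : IsCompact {g | ρ g ≤ 1} := cpt
  have hKm : MeasurableSet {g | ρ g ≤ 1} := (isClosed_le cont continuous_const).measurableSet
  let χ : S → ℝ := Set.indicator {g | ρ g ≤ 1} fun _ => 1
  have hχi : Integrable χ μ := (integrable_indicator_iff hKm).2 (integrableOn_const hK.measure_lt_top.ne)
  have hχn : ∀ h, 0 ≤ χ h := fun h => Set.indicator_nonneg (fun _ _ => zero_le_one) h
  have hχ1 : ∀ h, ρ h ≤ 1 → χ h = 1 := fun h hh => by
    have h0 : h ∈ {g | ρ g ≤ 1} := hh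
    exact Set.indicator_of_mem h0 _
  have hpt : ∀ g h, ρ g ≤ 1 / 2 → |f0 (g⁻¹ * h) - f0 h| ≤ 4 * ρ g * (χ h + χ (g⁻¹ * h)) := by
    intro g h hg
    have hgi := inv g hg
    have hρg := nonneg g
    have a1 : f0 h - f0 (g⁻¹ * h) ≤ 4 * ρ g * (χ h + χ (g⁻¹ * h)) := by
      by_cases hh : ρ h < q
      · have h1 : f0 h = q - ρ h := max_eq_right (by linarith)
        have h2 : q - ρ (g⁻¹ * h) ≤ f0 (g⁻¹ * h) := le_max_right _ _
        have h3 := mul g⁻¹ h
        have h4 : χ h = 1 := hχ1 h (hh.le.trans hq1)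
        have h5 := hχn (g⁻¹ * h)
        have h6 := nonneg h
        have h7 := nonneg g⁻¹
        have h8 : ρ g⁻¹ * ρ h ≤ ρ g⁻¹ * 1 := mul_le_mul_of_nonneg_left (by linarith) h7
        have h9 : 4 * ρ g ≤ 4 * ρ g * (χ h + χ (g⁻¹ * h)) := by
          rw [h4]
          nlinarith
        linarith
      · have h1 : f0 h = 0 := max_eq_left (by linarith)
        have h2 := hf0n (g⁻¹ * h)
        have h3 : 0 ≤ 4 * ρ g * (χ h + χ (g⁻¹ * h)) := mul_nonneg (by positivity) (add_nonneg (hχn _) (hχn _))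
        linarith
    have a2 : f0 (g⁻¹ * h) - f0 h ≤ 4 * ρ g * (χ h + χ (g⁻¹ * h)) := by
      by_cases hh : ρ (g⁻¹ * h) < q
      · have h1 : f0 (g⁻¹ * h) = q - ρ (g⁻¹ * h) := max_eq_right (by linarith)
        have h2 : q - ρ h ≤ f0 h := le_max_right _ _
        have h3 := mul g (g⁻¹ * h)
        rw [mul_inv_cancel_left] at h3
        have h4 : χ (g⁻¹ * h) = 1 := hχ1 _ (hh.le.trans hq1)
        have h5 := hχn h
        have h6 := nonneg (g⁻¹ * h)
        have h8 : ρ g * ρ (g⁻¹ * h) ≤ ρ g * 1 := mul_le_mul_of_nonneg_left (by linarith) hρg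
        have h9 : 4 * ρ g ≤ 4 * ρ g * (χ h + χ (g⁻¹ * h)) := by
          rw [h4]
          nlinarith
        linarith
      · have h1 : f0 (g⁻¹ * h) = 0 := max_eq_left (by linarith)
        have h2 := hf0n h
        have h3 : 0 ≤ 4 * ρ g * (χ h + χ (g⁻¹ * h)) := mul_nonneg (by positivity) (add_nonneg (hχn _) (hχn _))
        linarith
    exact abs_sub_le_iff.2 ⟨a2, a1⟩
  have hcomp : ∀ (φ : S → ℝ) (g : S), Integrable φ μ → Integrable (fun h => φ (g⁻¹ * h)) μ := fun φ g hφ => hφ.comp_mul_left g⁻¹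
  have hχI : 0 ≤ ∫ h, χ h ∂μ := integral_nonneg hχn
  have hf0L : ∀ g, ∫ h, |f0 (g⁻¹ * h) - f0 h| ∂μ ≤ (8 * (∫ h, χ h ∂μ) + 4 * I) * ρ g := by
    intro g
    have hρg := nonneg g
    by_cases hg : ρ g ≤ 1 / 2
    · calc ∫ h, |f0 (g⁻¹ * h) - f0 h| ∂μ ≤ ∫ h, 4 * ρ g * (χ h + χ (g⁻¹ * h)) ∂μ :=
            integral_mono ((hcomp f0 g hf0i).sub hf0i).abs ((hχi.add (hcomp χ g hχi)).const_mul _) fun h => hpt g h hg
        _ = 8 * (∫ h, χ h ∂μ) * ρ g := by
            rw [integral_const_mul, integral_add hχi (hcomp χ g hχi), integral_mul_left_eq_self χ g⁻¹]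
            ring
        _ ≤ _ := by
            have : 0 ≤ 4 * I * ρ g := by positivity
            nlinarith
    · rw [not_le] at hg
      calc ∫ h, |f0 (g⁻¹ * h) - f0 h| ∂μ ≤ ∫ h, (f0 (g⁻¹ * h) + f0 h) ∂μ := by
            refine integral_mono ((hcomp f0 g hf0i).sub hf0i).abs ((hcomp f0 g hf0i).add hf0i) fun h => ?_
            have h1 := hf0n h
            have h2 := hf0n (g⁻¹ * h)
            exact abs_sub_le_iff.2 ⟨by linarith, by linarith⟩
        _ = 2 * I := by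
            rw [integral_add (hcomp f0 g hf0i) hf0i, integral_mul_left_eq_self f0 g⁻¹]
            ring
        _ ≤ _ := by
            have h1 : 0 ≤ 8 * (∫ h, χ h ∂μ) * ρ g := by positivity
            nlinarith
  refine ⟨fun h => I⁻¹ * f0 h, continuous_const.mul hf0c, hsupp.mul_left, fun h => mul_nonneg (inv_nonneg.2 hint0.le) (hf0n h),
    fun h hh => (hf0s h fun h0 => hh (by
      show I⁻¹ * f0 h = 0
      rw [h0, mul_zero])).trans_le hqr, ?_, I⁻¹ * (8 * (∫ h, χ h ∂μ) + 4 * I), fun g => ?_⟩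
  · rw [integral_const_mul, ← hI, inv_mul_cancel₀ hint0.ne']
  · have h1 : ∀ h, |I⁻¹ * f0 (g⁻¹ * h) - I⁻¹ * f0 h| = I⁻¹ * |f0 (g⁻¹ * h) - f0 h| := fun h => by
      rw [← mul_sub, abs_mul, abs_of_pos (inv_pos.2 hint0)]
    simp only [h1]
    rw [integral_const_mul, mul_assoc]
    exact mul_le_mul_of_nonneg_left (hf0L g) (inv_nonneg.2 hint0.le)

end Bump

variable {m : ℕ} {s : Sig m}

/-- the size function -/
noncomputable def rq (x : SQ s) : ℝ := m * lnq x

theorem rq_nonneg (x : SQ s) : 0 ≤ rq x := mul_nonneg (Nat.cast_nonneg _) (lnq_nonneg x)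

theorem ln_mul' (g h : Sh s) : ln (g * h) ≤ ln g + ln h + m * ln g * ln h := by
  have h1 : mat (g * h) - 1 = (mat g - 1) + (mat h - 1) + (mat g - 1) * (mat h - 1) := by
    rw [mat_mul]
    noncomm_ring
  have h2 : ln (g * h) ≤ ln g + ln h + nm ((mat g - 1) * (mat h - 1)) := by
    unfold ln
    rw [h1]
    exact (nm_add _ _).trans (add_le_add (nm_add _ _) le_rfl)
  have h3 : nm ((mat g - 1) * (mat h - 1)) ≤ m * ln g * ln h := nm_mul _ _
  linarith

theorem ln_inv' (g : Sh s) : ln g⁻¹ ≤ ln g + m * ln g⁻¹ * ln g := by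
  have h1 : mat g⁻¹ - 1 = -((mat g - 1) + (mat g⁻¹ - 1) * (mat g - 1)) := by
    have h2 : (mat g⁻¹ - 1) * (mat g - 1) = 1 - mat g⁻¹ - mat g + 1 := by
      rw [sub_mul, mul_sub, mat_inv_mul]
      noncomm_ring
    rw [h2]
    noncomm_ring
  have h3 : nm ((mat g⁻¹ - 1) * (mat g - 1)) ≤ m * ln g⁻¹ * ln g := nm_mul _ _
  calc ln g⁻¹ = nm (-((mat g - 1) + (mat g⁻¹ - 1) * (mat g - 1))) := congrArg nm h1
    _ ≤ ln g + nm ((mat g⁻¹ - 1) * (mat g - 1)) := by
        rw [nm_neg]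
        exact nm_add _ _
    _ ≤ _ := by linarith

theorem rq_mul (x y : SQ s) : rq (x * y) ≤ rq x + rq y + rq x * rq y := by
  obtain ⟨g, g1, g2, -⟩ := exists_min x
  obtain ⟨h, h1, h2, -⟩ := exists_min y
  have h3 := lnq_le (g * h)
  rw [map_mul, g1, h1] at h3
  have h4 := h3.trans (ln_mul' g h)
  rw [g2, h2] at h4
  unfold rq
  have h5 : (0 : ℝ) ≤ m := Nat.cast_nonneg _
  calc m * lnq (x * y) ≤ m * (lnq x + lnq y + m * lnq x * lnq y) := mul_le_mul_of_nonneg_left h4 h5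
    _ = _ := by ring

theorem rq_inv (x : SQ s) (hx : rq x ≤ 1 / 2) : rq x⁻¹ ≤ 2 * rq x := by
  obtain ⟨g, g1, g2, -⟩ := exists_min x
  have h5 : (0 : ℝ) ≤ m := Nat.cast_nonneg _
  have h3 := lnq_le g⁻¹
  rw [map_inv, g1] at h3
  have h4 := ln_inv' g
  have h6 := ln_nonneg g⁻¹
  have hx' : m * ln g ≤ 1 / 2 := by
    rw [g2]
    exact hx
  have h7 : ln g⁻¹ ≤ 2 * ln g := by nlinarith
  unfold rq
  calc m * lnq x⁻¹ ≤ m * (2 * lnq x) := mul_le_mul_of_nonneg_left (h3.trans (by rw [← g2]; exact h7)) h5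
    _ = _ := by ring

theorem continuous_rq : Continuous (rq : SQ s → ℝ) := continuous_const.mul continuous_lnq

theorem isCompact_rq (hm : m ≠ 0) (R : ℝ) : IsCompact {x : SQ s | rq x ≤ R} := by
  have hmp : (0 : ℝ) < m := by exact_mod_cast Nat.pos_of_ne_zero hm
  have h1 : {x : SQ s | rq x ≤ R} = {x | lnq x ≤ R / m} := by
    ext x
    show (m : ℝ) * lnq x ≤ R ↔ lnq x ≤ R / m
    rw [le_div_iff₀ hmp, mul_comm]
  rw [h1]
  exact isCompact_lnq _

/-- **The size function of `SQ s`.** -/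
noncomputable def sizSQ (hm : m ≠ 0) (ν : Measure (SQ s)) [ν.IsHaarMeasure] : Siz (SQ s) ν where
  ρ := rq
  cont := continuous_rq
  nonneg := rq_nonneg
  one := by
    show (m : ℝ) * lnq 1 = 0
    rw [lnq_one, mul_zero]
  mul := rq_mul
  inv := rq_inv
  basis := by
    intro U hU
    have hmp : (0 : ℝ) < m := by exact_mod_cast Nat.pos_of_ne_zero hm
    have hK : IsCompact ({x : SQ s | rq x ≤ 1} \ interior U) := (isCompact_rq hm 1).diff isOpen_interior
    rcases Set.eq_empty_or_nonempty ({x : SQ s | rq x ≤ 1} \ interior U) with h0 | h0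
    · refine ⟨1, one_pos, fun g hg => ?_⟩
      by_contra hgU
      have : g ∈ ({x : SQ s | rq x ≤ 1} \ interior U) := ⟨hg.le, fun h => hgU (interior_subset h)⟩
      rw [h0] at this
      exact this
    · obtain ⟨x, hx, hmin⟩ := hK.exists_isMinOn h0 continuous_rq.continuousOn
      have hx0 : 0 < rq x := by
        refine lt_of_le_of_ne (rq_nonneg x) fun h1 => hx.2 ?_
        have h2 : lnq x = 0 := by
          have h3 : (m : ℝ) * lnq x = 0 := h1.symm
          exact (mul_eq_zero.1 h3).resolve_left hmp.ne'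
        rw [eq_one_of_lnq h2]
        exact mem_interior_iff_mem_nhds.2 hU
      refine ⟨min (rq x) 1, lt_min hx0 one_pos, fun g hg => ?_⟩
      by_contra hgU
      have h3 : g ∈ ({x : SQ s | rq x ≤ 1} \ interior U) :=
        ⟨(hg.trans_le (min_le_right _ _)).le, fun h => hgU (interior_subset h)⟩
      have h4 : rq x ≤ rq g := hmin h3
      have h5 := hg.trans_le (min_le_left _ _)
      linarith
  d := Module.finrank ℝ s.fx - 1
  vol := by
    have hmp : (0 : ℝ) < m := by exact_mod_cast Nat.pos_of_ne_zero hm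
    obtain ⟨c, hc0, hc⟩ := exists_vol_SQ hm ν
    refine ⟨c * (2 * m : ℝ)⁻¹ ^ (Module.finrank ℝ s.fx - 1), by positivity, fun r hr hr1 => ?_⟩
    have h1m : (1 : ℝ) ≤ m := by exact_mod_cast Nat.pos_of_ne_zero hm
    have h1 := hc (r * (2 * m : ℝ)⁻¹) (by positivity) (by
      calc r * (2 * m : ℝ)⁻¹ ≤ 1 * 1 := mul_le_mul hr1 (inv_le_one_of_one_le₀ (by linarith)) (by positivity) zero_le_one
        _ = 1 := one_mul 1)
    calc ENNReal.ofReal (c * (2 * m : ℝ)⁻¹ ^ (Module.finrank ℝ s.fx - 1) * r ^ (Module.finrank ℝ s.fx - 1))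
        = ENNReal.ofReal (c * (r * (2 * m : ℝ)⁻¹) ^ (Module.finrank ℝ s.fx - 1)) := by
          rw [mul_pow]
          congr 1
          ring
      _ ≤ ν {h | lnq h ≤ r * (2 * m : ℝ)⁻¹} := h1
      _ ≤ ν {g | rq g < r} := by
          refine measure_mono fun x hx => ?_
          have hx' : lnq x ≤ r * (2 * m : ℝ)⁻¹ := hx
          show (m : ℝ) * lnq x < r
          calc (m : ℝ) * lnq x ≤ m * (r * (2 * m : ℝ)⁻¹) := mul_le_mul_of_nonneg_left hx' hmp.le
            _ = r / 2 := by field_simp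
            _ < r := by linarith
  net := by
    intro B hB
    have hmp : (0 : ℝ) < m := by exact_mod_cast Nat.pos_of_ne_zero hm
    have h1m : (1 : ℝ) ≤ m := by exact_mod_cast Nat.pos_of_ne_zero hm
    obtain ⟨C, hC0, hC⟩ := exists_net_SQ hm hB
    refine ⟨C * m ^ (Module.finrank ℝ s.fx - 1), by positivity, fun δ hδ hδ1 => ?_⟩
    obtain ⟨P, h1, -, h3⟩ := hC (δ / m) (by positivity) ((div_le_one hmp).2 (by linarith))
    refine ⟨P, ?_, fun g hg => ?_⟩
    · calc (P.card : ℝ) * δ ^ (Module.finrank ℝ s.fx - 1)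
          ≤ C * (δ / m)⁻¹ ^ (Module.finrank ℝ s.fx - 1) * δ ^ (Module.finrank ℝ s.fx - 1) := by gcongr
        _ = C * m ^ (Module.finrank ℝ s.fx - 1) := by
            rw [inv_div, mul_assoc, ← mul_pow, div_mul_cancel₀ _ hδ.ne']
    · obtain ⟨k, hk, -, h4, -⟩ := h3 g hg
      refine ⟨k, hk, ?_⟩
      show (m : ℝ) * lnq (g * k⁻¹) ≤ δ
      calc (m : ℝ) * lnq (g * k⁻¹) ≤ m * (δ / m) := mul_le_mul_of_nonneg_left h4 hmp.le
        _ = δ := by field_simp
  bump := exists_bump ν rq continuous_rq rq_nonneg (by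
    show (m : ℝ) * lnq 1 = 0
    rw [lnq_one, mul_zero]) rq_mul rq_inv (isCompact_rq hm 1)

theorem sizSQ_d (hm : m ≠ 0) (ν : Measure (SQ s)) [ν.IsHaarMeasure] : (sizSQ hm ν).d = Module.finrank ℝ s.fx - 1 := rfl

end Pool.Agent.Helper9.Lin
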