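import Mathlib

/-!
# Project TZ (MP_0f6f3f_an): the groups `Shat σ = {h ∈ GL_m(ℂ) : σ h = h, |det h| = 1}` and their quotients by the scalars

`σ` is a real form of the matrices: entrywise conjugation (`ℝ`), the identity (`ℂ`), `X ↦ J conj(X) J⁻¹` (quaternions).
-/

set_option autoImplicit false

open Filter Topology MeasureTheory Matrix

namespace Pool.Agent.Helper9.Lin

/-- A real form of the algebra of the complex matrices. -/
structure Sig (m : ℕ) where
  /-- the map -/
  f : Matrix (Fin m) (Fin m) ℂ → Matrix (Fin m) (Fin m) ℂ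
  add : ∀ X Y, f (X + Y) = f X + f Y
  mul : ∀ X Y, f (X * Y) = f X * f Y
  one : f 1 = 1
  smul : ∀ (r : ℝ) (X : Matrix (Fin m) (Fin m) ℂ), f ((r : ℂ) • X) = (r : ℂ) • f X
  star : ∀ X, f Xᴴ = (f X)ᴴ

variable {m : ℕ} (s : Sig m)

namespace Sig

theorem zero : s.f 0 = 0 := by
  have h := s.smul 0 0
  rw [Complex.ofReal_zero, zero_smul, zero_smul] at h
  exact h

/-- the fixed space, in the space with the maximum norm -/
def fx : Submodule ℝ (Fin m → Fin m → ℂ) where
  carrier := {X | s.f X = X}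
  add_mem' := fun {a b} ha hb => (s.add a b).trans (congrArg₂ (· + ·) ha hb)
  zero_mem' := s.zero
  smul_mem' := fun r x hx => by
    have h1 : s.f ((r : ℂ) • (x : Matrix (Fin m) (Fin m) ℂ)) = (r : ℂ) • (x : Matrix (Fin m) (Fin m) ℂ) :=
      (s.smul r x).trans (congrArg (fun X : Matrix (Fin m) (Fin m) ℂ => (r : ℂ) • X) hx)
    exact h1

theorem mem_fx {X : Fin m → Fin m → ℂ} : X ∈ s.fx ↔ s.f X = X := Iff.rfl

theorem continuous : Continuous s.f := by
  let L : (Fin m → Fin m → ℂ) →ₗ[ℝ] (Fin m → Fin m → ℂ) :=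
    { toFun := fun X => s.f X
      map_add' := fun X Y => s.add X Y
      map_smul' := fun r X => s.smul r X }
  exact L.continuous_of_finiteDimensional

theorem inv {X Y : Matrix (Fin m) (Fin m) ℂ} (hX : s.f X = X) (h : X * Y = 1) : s.f Y = Y := by
  have h1 : X * s.f Y = 1 := by
    have h2 := congrArg s.f h
    rwa [s.mul, hX, s.one] at h2
  have h3 : Y * X = 1 := mul_eq_one_comm.1 h
  calc s.f Y = Y * X * s.f Y := by rw [h3, one_mul]
    _ = Y := by rw [mul_assoc, h1, mul_one]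

/-- The group `{h ∈ GL_m(ℂ) : σ h = h, |det h| = 1}`. -/
def Shat : Subgroup (GL (Fin m) ℂ) where
  carrier := {h | s.f (h : Matrix (Fin m) (Fin m) ℂ) = h ∧ ‖(h : Matrix (Fin m) (Fin m) ℂ).det‖ = 1}
  mul_mem' := by
    rintro a b ⟨ha, ha'⟩ ⟨hb, hb'⟩
    refine ⟨?_, ?_⟩
    · rw [Units.val_mul, s.mul, ha, hb]
    · rw [Units.val_mul, det_mul, norm_mul, ha', hb', one_mul]
  one_mem' := ⟨s.one, by simp⟩
  inv_mem' := by
    rintro a ⟨ha, ha'⟩
    have h1 : (a : Matrix (Fin m) (Fin m) ℂ) * ((a⁻¹ : GL (Fin m) ℂ) : Matrix (Fin m) (Fin m) ℂ) = 1 := by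
      rw [← Units.val_mul, mul_inv_cancel, Units.val_one]
    refine ⟨s.inv ha h1, ?_⟩
    have h2 := congrArg (fun X : Matrix (Fin m) (Fin m) ℂ => ‖X.det‖) h1
    simp only [det_mul, norm_mul, ha', one_mul, det_one, norm_one] at h2
    exact h2

end Sig

/-- The group `{h ∈ GL_m(ℂ) : σ h = h, |det h| = 1}`. -/
abbrev Sh : Type := ↥s.Shat

variable {s}

/-- the matrix -/
def mat (h : Sh s) : Matrix (Fin m) (Fin m) ℂ := ((h : GL (Fin m) ℂ) : Matrix (Fin m) (Fin m) ℂ)

theorem mat_mul (g h : Sh s) : mat (g * h) = mat g * mat h := rfl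

theorem mat_one : mat (1 : Sh s) = 1 := rfl

theorem sig_mat (h : Sh s) : s.f (mat h) = mat h := h.2.1

theorem norm_det (h : Sh s) : ‖(mat h).det‖ = 1 := h.2.2

theorem det_ne (h : Sh s) : (mat h).det ≠ 0 := by
  intro h0
  have := norm_det h
  rw [h0, norm_zero] at this
  exact zero_ne_one this

theorem mat_injective : Function.Injective (mat : Sh s → _) := fun _ _ h => Subtype.ext (Units.ext h)

theorem mat_mul_inv (h : Sh s) : mat h * mat h⁻¹ = 1 := by rw [← mat_mul, mul_inv_cancel, mat_one]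

theorem mat_inv_mul (h : Sh s) : mat h⁻¹ * mat h = 1 := by rw [← mat_mul, inv_mul_cancel, mat_one]

theorem mat_inv (h : Sh s) : mat h⁻¹ = ((mat h).det)⁻¹ • (mat h).adjugate := by
  have h2 : (((mat h).det)⁻¹ • (mat h).adjugate) * mat h = 1 := by
    rw [smul_mul_assoc, adjugate_mul, smul_smul, inv_mul_cancel₀ (det_ne h), one_smul]
  calc mat h⁻¹ = (((mat h).det)⁻¹ • (mat h).adjugate * mat h) * mat h⁻¹ := by rw [h2, one_mul]
    _ = ((mat h).det)⁻¹ • (mat h).adjugate := by rw [mul_assoc, mat_mul_inv, mul_one]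

/-- an element from a matrix -/
noncomputable def mkS (M : Matrix (Fin m) (Fin m) ℂ) (h : s.f M = M ∧ ‖M.det‖ = 1) : Sh s :=
  ⟨GeneralLinearGroup.mkOfDetNeZero M (by
    intro h0
    have := h.2
    rw [h0, norm_zero] at this
    exact zero_ne_one this), h⟩

theorem mat_mkS (M : Matrix (Fin m) (Fin m) ℂ) (h : s.f M = M ∧ ‖M.det‖ = 1) : mat (mkS M h) = M := rfl

theorem mkS_mat (h : Sh s) : mkS (mat h) h.2 = h := mat_injective rfl

theorem continuous_mat : Continuous (mat : Sh s → _) := Units.continuous_val.comp continuous_subtype_val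

/-- `Sh s` is homeomorphic to a closed set of matrices. -/
noncomputable def homeo : Sh s ≃ₜ {M : Matrix (Fin m) (Fin m) ℂ // s.f M = M ∧ ‖M.det‖ = 1} where
  toFun h := ⟨mat h, h.2⟩
  invFun M := mkS M.1 M.2
  left_inv h := mkS_mat h
  right_inv M := Subtype.ext (mat_mkS M.1 M.2)
  continuous_toFun := continuous_mat.subtype_mk _
  continuous_invFun := by
    refine Continuous.subtype_mk ?_ _
    rw [Units.continuous_iff]
    refine ⟨continuous_subtype_val, ?_⟩
    have h1 : ∀ M : {M : Matrix (Fin m) (Fin m) ℂ // s.f M = M ∧ ‖M.det‖ = 1},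
        (((mkS M.1 M.2 : Sh s) : GL (Fin m) ℂ)⁻¹ : GL (Fin m) ℂ).val = (M.1.det)⁻¹ • M.1.adjugate := fun M => mat_inv (mkS M.1 M.2)
    have h3 : Continuous fun M : {M : Matrix (Fin m) (Fin m) ℂ // s.f M = M ∧ ‖M.det‖ = 1} => (M.1.det)⁻¹ := by
      refine (continuous_subtype_val.matrix_det).inv₀ fun M h0 => ?_
      have := M.2.2
      rw [h0, norm_zero] at this
      exact zero_ne_one this
    have h2 : Continuous fun M : {M : Matrix (Fin m) (Fin m) ℂ // s.f M = M ∧ ‖M.det‖ = 1} => (M.1.det)⁻¹ • M.1.adjugate :=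
      h3.smul (continuous_subtype_val.matrix_adjugate)
    exact h2.congr fun M => (h1 M).symm

theorem isClosedEmbedding_mat : IsClosedEmbedding (mat : Sh s → _) := by
  have h1 : IsClosed {M : Matrix (Fin m) (Fin m) ℂ | s.f M = M ∧ ‖M.det‖ = 1} :=
    (isClosed_eq s.continuous continuous_id).inter (isClosed_eq (continuous_norm.comp (continuous_id.matrix_det)) continuous_const)
  have h2 : IsClosedEmbedding (Subtype.val ∘ homeo (s := s)) := h1.isClosedEmbedding_subtypeVal.comp homeo.isClosedEmbedding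
  exact h2

instance : LocallyCompactSpace (Sh s) := by
  have : LocallyCompactSpace (Matrix (Fin m) (Fin m) ℂ) := inferInstanceAs (LocallyCompactSpace (Fin m → Fin m → ℂ))
  exact isClosedEmbedding_mat.locallyCompactSpace

instance : SecondCountableTopology (Sh s) := by
  have : SecondCountableTopology (Matrix (Fin m) (Fin m) ℂ) := inferInstanceAs (SecondCountableTopology (Fin m → Fin m → ℂ))
  exact isClosedEmbedding_mat.isEmbedding.secondCountableTopology

instance : PolishSpace (Sh s) := by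
  have : PolishSpace (Matrix (Fin m) (Fin m) ℂ) := inferInstanceAs (PolishSpace (Fin m → Fin m → ℂ))
  exact isClosedEmbedding_mat.polishSpace

noncomputable instance : MeasurableSpace (Sh s) := borel (Sh s)

instance : BorelSpace (Sh s) := ⟨rfl⟩

variable (s)

/-- The scalars. -/
noncomputable def Zc : Subgroup (Sh s) where
  carrier := {z | ∃ c : ℂ, mat z = c • 1}
  mul_mem' := by
    rintro a b ⟨c, hc⟩ ⟨d, hd⟩
    exact ⟨c * d, by rw [mat_mul, hc, hd, smul_mul_smul_comm, mul_one]⟩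
  one_mem' := ⟨1, by rw [mat_one, one_smul]⟩
  inv_mem' := by
    rintro a ⟨c, hc⟩
    refine ⟨c⁻¹, ?_⟩
    have h1 := mat_mul_inv a
    rw [hc, smul_mul_assoc, one_mul] at h1
    by_cases h0 : c = 0
    · have h2 := mat_inv_mul a
      rw [hc, h0, zero_smul, mul_zero] at h2
      rw [h0, _root_.inv_zero, zero_smul]
      calc mat a⁻¹ = 1 * mat a⁻¹ := by rw [one_mul]
        _ = 0 := by rw [← h2, zero_mul]
    · rw [← h1, smul_smul, inv_mul_cancel₀ h0, one_smul]

variable {s}

theorem Zc_comm {z : Sh s} (hz : z ∈ Zc s) (h : Sh s) : h * z = z * h := by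
  obtain ⟨c, hc⟩ := hz
  apply mat_injective
  rw [mat_mul, mat_mul, hc, smul_mul_assoc, one_mul, mul_smul_comm, mul_one]

instance : (Zc s).Normal where
  conj_mem z hz h := by
    rw [Zc_comm hz h, mul_inv_cancel_right]
    exact hz

/-- The unitary matrices. -/
noncomputable def Kc (s : Sig m) : Subgroup (Sh s) where
  carrier := {h | mat h * (mat h)ᴴ = 1}
  mul_mem' := by
    intro a b ha hb
    show mat (a * b) * (mat (a * b))ᴴ = 1
    have ha' : mat a * (mat a)ᴴ = 1 := ha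
    have hb' : mat b * (mat b)ᴴ = 1 := hb
    rw [mat_mul, conjTranspose_mul, mul_assoc, ← mul_assoc (mat b), hb', one_mul, ha']
  one_mem' := by
    show mat 1 * (mat 1)ᴴ = 1
    rw [mat_one, conjTranspose_one, one_mul]
  inv_mem' := by
    intro a ha
    have ha' : mat a * (mat a)ᴴ = 1 := ha
    show mat a⁻¹ * (mat a⁻¹)ᴴ = 1
    have h1 : mat a⁻¹ = (mat a)ᴴ := by
      calc mat a⁻¹ = mat a⁻¹ * (mat a * (mat a)ᴴ) := by rw [ha', mul_one]
        _ = (mat a)ᴴ := by rw [← mul_assoc, mat_inv_mul, one_mul]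
    rw [h1, conjTranspose_conjTranspose]
    exact mul_eq_one_comm.1 ha'

theorem mem_Kc {h : Sh s} : h ∈ Kc s ↔ mat h * (mat h)ᴴ = 1 := Iff.rfl

theorem isClosed_Kc : IsClosed (Kc s : Set (Sh s)) := by
  have h : Continuous fun h : Sh s => mat h * (mat h)ᴴ := continuous_mat.mul continuous_mat.matrix_conjTranspose
  exact isClosed_eq h continuous_const

/-- the maximum of the entries -/
noncomputable def nm (M : Matrix (Fin m) (Fin m) ℂ) : ℝ := @norm (Fin m → Fin m → ℂ) _ M

theorem nm_nonneg (M : Matrix (Fin m) (Fin m) ℂ) : 0 ≤ nm M := norm_nonneg (E := Fin m → Fin m → ℂ) M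

theorem norm_le_nm (M : Matrix (Fin m) (Fin m) ℂ) (i j : Fin m) : ‖M i j‖ ≤ nm M :=
  (norm_le_pi_norm (M i) j).trans (norm_le_pi_norm (f := (M : Fin m → Fin m → ℂ)) i)

theorem nm_le {M : Matrix (Fin m) (Fin m) ℂ} {r : ℝ} (hr : 0 ≤ r) (h : ∀ i j, ‖M i j‖ ≤ r) : nm M ≤ r :=
  (pi_norm_le_iff_of_nonneg hr).2 fun i => (pi_norm_le_iff_of_nonneg hr).2 fun j => h i j

theorem nm_neg (M : Matrix (Fin m) (Fin m) ℂ) : nm (-M) = nm M := norm_neg (E := Fin m → Fin m → ℂ) M

theorem nm_add (M M' : Matrix (Fin m) (Fin m) ℂ) : nm (M + M') ≤ nm M + nm M' := norm_add_le (E := Fin m → Fin m → ℂ) M M'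

theorem nm_sub_comm (M M' : Matrix (Fin m) (Fin m) ℂ) : nm (M - M') = nm (M' - M) := by
  rw [← nm_neg, neg_sub]

theorem nm_smul (c : ℂ) (M : Matrix (Fin m) (Fin m) ℂ) : nm (c • M) = ‖c‖ * nm M := norm_smul (β := Fin m → Fin m → ℂ) c M

theorem continuous_nm : Continuous (nm : Matrix (Fin m) (Fin m) ℂ → ℝ) := continuous_norm (E := Fin m → Fin m → ℂ)

theorem nm_eq_zero {M : Matrix (Fin m) (Fin m) ℂ} (h : nm M = 0) : M = 0 := norm_eq_zero (E := Fin m → Fin m → ℂ).1 h

theorem nm_mul (M M' : Matrix (Fin m) (Fin m) ℂ) : nm (M * M') ≤ m * nm M * nm M' := by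
  have h0 := nm_nonneg M
  have h0' := nm_nonneg M'
  refine nm_le (by positivity) fun i j => ?_
  rw [mul_apply]
  calc ‖∑ k, M i k * M' k j‖ ≤ ∑ k : Fin m, nm M * nm M' := norm_sum_le_of_le _ fun k _ => by
        rw [norm_mul]
        exact mul_le_mul (norm_le_nm M i k) (norm_le_nm M' k j) (norm_nonneg _) h0
    _ = m * nm M * nm M' := by rw [Finset.sum_const, Finset.card_univ, Fintype.card_fin, nsmul_eq_mul, mul_assoc]

theorem nm_one_le : nm (1 : Matrix (Fin m) (Fin m) ℂ) ≤ 1 := nm_le zero_le_one fun i j => by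
  rw [one_apply]
  split_ifs <;> simp

theorem isCompact_nm (R : ℝ) : IsCompact {h : Sh s | nm (mat h) ≤ R} := by
  have h1 : IsCompact {M : Fin m → Fin m → ℂ | ‖M‖ ≤ R} := by
    have h2 : {M : Fin m → Fin m → ℂ | ‖M‖ ≤ R} = Metric.closedBall 0 R := by
      ext M
      simp
    rw [h2]
    exact isCompact_closedBall _ _
  exact isClosedEmbedding_mat.isCompact_preimage h1

theorem nm_of_mem {h : Sh s} (hh : h ∈ Kc s) : nm (mat h) ≤ 1 := by
  refine nm_le zero_le_one fun i j => ?_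
  have h1 : (mat h * (mat h)ᴴ) i i = 1 := by rw [mem_Kc.1 hh, one_apply_eq]
  rw [mul_apply] at h1
  have h2 : ∑ k, ‖mat h i k‖ ^ 2 = 1 := by
    have h3 := congrArg Complex.re h1
    rw [Complex.re_sum, Complex.one_re] at h3
    rw [← h3]
    refine Finset.sum_congr rfl fun k _ => ?_
    rw [conjTranspose_apply, ← Complex.normSq_eq_norm_sq, Complex.star_def, Complex.mul_conj, Complex.ofReal_re]
  have h4 : ‖mat h i j‖ ^ 2 ≤ 1 := by
    rw [← h2]
    exact Finset.single_le_sum (f := fun k => ‖mat h i k‖ ^ 2) (fun k _ => sq_nonneg _) (Finset.mem_univ j)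
  nlinarith [norm_nonneg (mat h i j)]

theorem isCompact_Kc : IsCompact (Kc s : Set (Sh s)) :=
  (isCompact_nm 1).of_isClosed_subset isClosed_Kc fun _ hk => nm_of_mem hk

end Pool.Agent.Helper9.Lin
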