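import Pool.Agent.Helper9.FP.Fr0
import Pool.Agent.Helper9.FP.Lin5
import Pool.Agent.Helper78.BI.Low
import Pool.Agent.Helper90.RK.GA

/-!
# Project TZ (MP_0f6f3f_an): the real, complex and quaternionic matrices as instances of `Sg`

`sgR`, `sgC`, `sgH` and the dimension of the block.
-/

set_option autoImplicit false
set_option linter.unusedSectionVars false

open Filter Topology Matrix

namespace Pool.Agent.Helper9.Fra

open Pool.Agent.Helper90.RK Pool.Agent.Helper84.NI Pool.Agent.Helper78.BI Pool.Agent.Helper9.Lin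

variable {N : ℕ}

/-- the quaternionic structure -/
def JH (N : ℕ) : MN N := fun i j =>
  if (i : ℕ) % 2 = 1 ∧ (j : ℕ) + 1 = i then 1 else if (i : ℕ) % 2 = 0 ∧ (j : ℕ) = i + 1 then -1 else 0

/-- the partner -/
def pt (hN : Even N) (i : Fin N) : Fin N :=
  if h : (i : ℕ) % 2 = 0 then ⟨i + 1, by
    obtain ⟨n, hn⟩ := hN
    have := i.2
    omega⟩ else ⟨i - 1, lt_of_le_of_lt (Nat.sub_le _ _) i.2⟩

/-- the sign -/
def ep (i : Fin N) : ℂ := if (i : ℕ) % 2 = 0 then -1 else 1

theorem pt_even (hN : Even N) {i : Fin N} (h : (i : ℕ) % 2 = 0) : ((pt hN i : Fin N) : ℕ) = i + 1 := by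
  unfold pt
  rw [dif_pos h]

theorem pt_odd (hN : Even N) {i : Fin N} (h : (i : ℕ) % 2 = 1) : ((pt hN i : Fin N) : ℕ) + 1 = i := by
  unfold pt
  rw [dif_neg (by omega)]
  show (i : ℕ) - 1 + 1 = i
  omega

theorem pt_pt (hN : Even N) (i : Fin N) : pt hN (pt hN i) = i := by
  apply Fin.ext
  rcases Nat.mod_two_eq_zero_or_one (i : ℕ) with h | h
  · have h1 := pt_even hN h
    have h2 := pt_odd hN (i := pt hN i) (by omega)
    omega
  · have h1 := pt_odd hN h
    have h2 := pt_even hN (i := pt hN i) (by omega)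
    omega

theorem JH_eq (hN : Even N) (i j : Fin N) : JH N i j = if j = pt hN i then ep i else 0 := by
  unfold JH ep
  rcases Nat.mod_two_eq_zero_or_one (i : ℕ) with h | h
  · have h1 := pt_even hN h
    rw [if_neg (by omega)]
    by_cases hj : (j : ℕ) = i + 1
    · rw [if_pos ⟨h, hj⟩, if_pos (Fin.ext (by omega)), if_pos h]
    · rw [if_neg (fun h' => hj h'.2), if_neg fun h' => hj (by rw [h', h1])]
  · have h1 := pt_odd hN h
    by_cases hj : (j : ℕ) + 1 = i
    · rw [if_pos ⟨h, hj⟩, if_pos (Fin.ext (by omega)), if_neg (by omega)]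
    · rw [if_neg (fun h' => hj h'.2), if_neg (by omega), if_neg fun h' => hj (by rw [h', h1])]

theorem ep_pt (hN : Even N) (i : Fin N) : ep (pt hN i) = -ep i := by
  unfold ep
  rcases Nat.mod_two_eq_zero_or_one (i : ℕ) with h | h
  · have h1 := pt_even hN h
    rw [if_neg (by omega), if_pos h, neg_neg]
  · have h1 := pt_odd hN h
    rw [if_pos (by omega), if_neg (by omega)]

theorem ep_mul (i : Fin N) : ep i * ep i = 1 := by
  unfold ep
  split_ifs <;> simp

theorem ep_conj (i : Fin N) : starRingEnd ℂ (ep i) = ep i := by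
  unfold ep
  split_ifs <;> simp

theorem JH_mul (hN : Even N) (X : MN N) (i k : Fin N) : (JH N * X) i k = ep i * X (pt hN i) k := by
  rw [mul_apply, Finset.sum_eq_single (pt hN i)]
  · rw [JH_eq hN, if_pos rfl]
  · intro j _ hj
    rw [JH_eq hN, if_neg hj, zero_mul]
  · intro h
    exact absurd (Finset.mem_univ _) h

theorem mul_JH (hN : Even N) (X : MN N) (i k : Fin N) : (X * JH N) i k = -ep k * X i (pt hN k) := by
  rw [mul_apply, Finset.sum_eq_single (pt hN k)]
  · rw [JH_eq hN, if_pos (pt_pt hN k).symm, ep_pt, mul_comm]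
  · intro j _ hj
    rw [JH_eq hN, if_neg fun h => hj (by rw [h, pt_pt]), mul_zero]
  · intro h
    exact absurd (Finset.mem_univ _) h

theorem JH_star (hN : Even N) : (JH N)ᴴ = -JH N := by
  ext i j
  rw [conjTranspose_apply, neg_apply, JH_eq hN, JH_eq hN]
  by_cases h : j = pt hN i
  · rw [if_pos h, if_pos (by rw [h, pt_pt]), h, ep_pt, star_neg]
    congr 1
    exact ep_conj i
  · rw [if_neg h, if_neg fun h' => h (by rw [h', pt_pt]), star_zero, neg_zero]

theorem JH_sq (hN : Even N) : JH N * JH N = -1 := by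
  ext i k
  rw [JH_mul hN, JH_eq hN, pt_pt, neg_apply, one_apply, ep_pt]
  by_cases h : i = k
  · rw [if_pos h.symm, if_pos h, mul_neg, ep_mul]
  · rw [if_neg fun h' => h h'.symm, if_neg h, mul_zero, neg_zero]

theorem JH_unit (hN : Even N) : JH N * (JH N)ᴴ = 1 := by
  rw [JH_star hN, Matrix.mul_neg, JH_sq hN, neg_neg]

theorem JH_cjM (hN : Even N) : cjM (JH N) = JH N := by
  ext i j
  rw [cjM_apply, JH_eq hN]
  split_ifs
  · exact ep_conj i
  · exact map_zero _

theorem JH_transpose (hN : Even N) : (JH N)ᵀ = -JH N := by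
  have h1 : (JH N)ᵀ = (cjM (JH N))ᴴ := by
    ext i j
    rw [conjTranspose_apply, cjM_apply, transpose_apply]
    exact (Complex.conj_conj _).symm
  rw [h1, JH_cjM hN, JH_star hN]

theorem sig_diag (hN : Even N) (d : Fin N → ℝ) (hd : ∀ i, d (pt hN i) = d i) :
    JH N * cjM (diagonal fun i => (d i : ℂ)) * (JH N)ᴴ = diagonal fun i => (d i : ℂ) := by
  have h1 : cjM (diagonal fun i => (d i : ℂ)) = diagonal fun i => (d i : ℂ) := by
    ext i j
    rw [cjM_apply, diagonal_apply]
    split_ifs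
    · exact Complex.conj_ofReal _
    · exact map_zero _
  have h2 : JH N * (diagonal fun i => (d i : ℂ)) = (diagonal fun i => (d i : ℂ)) * JH N := by
    ext i j
    rw [mul_diagonal, diagonal_mul, JH_eq hN]
    by_cases h : j = pt hN i
    · rw [if_pos h, h, hd, mul_comm]
    · rw [if_neg h, zero_mul, mul_zero]
  rw [h1, h2, Matrix.mul_assoc, JH_unit hN, Matrix.mul_one]

/-- The complex matrices. -/
def sgC (N : ℕ) (q : Fin N) : Sg N q where
  σ X := X
  add _ _ := rfl
  mul _ _ := rfl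
  one := rfl
  star _ := rfl
  smul _ _ := rfl
  cont := continuous_id
  blk := rfl

theorem Ef_real (q : Fin N) : Ef q = diagonal fun i => ((if i ≤ q then 1 else 0 : ℝ) : ℂ) := by
  unfold Ef
  congr 1
  funext i
  split_ifs <;> simp

/-- The real matrices. -/
noncomputable def sgR (N : ℕ) (q : Fin N) : Sg N q where
  σ X := cjM X
  add X Y := cjM_add X Y
  mul X Y := cjM_mul X Y
  one := cjM_one
  star X := cjM_star X
  smul t X := by rw [cjM_smul, Complex.conj_ofReal]
  cont := by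
    have h := (sigR N).continuous
    exact h.congr fun X => sigR_f X
  blk := by
    rw [Ef_real]
    ext i j
    rw [cjM_apply, diagonal_apply]
    split_ifs <;> simp

/-- The quaternionic matrices. -/
noncomputable def sgH (N : ℕ) (q : Fin N) (hN : Even N) (hq : Odd (q : ℕ)) : Sg N q where
  σ X := JH N * cjM X * (JH N)ᴴ
  add X Y := (sigJ (JH N) (JH_unit hN)).add X Y
  mul X Y := (sigJ (JH N) (JH_unit hN)).mul X Y
  one := (sigJ (JH N) (JH_unit hN)).one
  star X := (sigJ (JH N) (JH_unit hN)).star X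
  smul t X := (sigJ (JH N) (JH_unit hN)).smul t X
  cont := (sigJ (JH N) (JH_unit hN)).continuous
  blk := by
    rw [Ef_real]
    refine sig_diag hN _ fun i => ?_
    have h1 : pt hN i ≤ q ↔ i ≤ q := by
      rw [Fin.le_def, Fin.le_def]
      obtain ⟨r, hr⟩ := hq
      rcases Nat.mod_two_eq_zero_or_one (i : ℕ) with h | h
      · have h1 := pt_even hN h
        omega
      · have h1 := pt_odd hN h
        omega
    simp only [h1]

theorem finrank_low_C (q : Fin N) : Module.finrank ℝ (sgC N q).low.fx = 2 * ((q : ℕ) + 1) ^ 2 := by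
  have h1 : (sgC N q).low.fx = ⊤ := by
    rw [Submodule.eq_top_iff']
    intro x
    exact cor_emb _
  rw [h1, finrank_top, finrank_cols]

theorem finrank_low_of (q : Fin N) (s : Sg N q) (h1 : ∀ X, s.σ (Complex.I • X) = -(Complex.I • s.σ X)) (h2 : ∀ X, s.σ (s.σ X) = X) :
    Module.finrank ℝ s.low.fx = ((q : ℕ) + 1) ^ 2 := by
  refine finrank_of_conj s.low (fun X => ?_) fun X => ?_
  · show cor q (s.σ (emb q (Complex.I • X))) = -(Complex.I • cor q (s.σ (emb q X)))
    rw [emb_smul, h1]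
    rfl
  · show cor q (s.σ (emb q (cor q (s.σ (emb q X))))) = X
    rw [emb_cor, s.mul, s.mul, s.blk, h2, cor_Ef, cor_emb]

theorem finrank_low_R (q : Fin N) : Module.finrank ℝ (sgR N q).low.fx = ((q : ℕ) + 1) ^ 2 := by
  refine finrank_low_of q _ (fun X => ?_) fun X => cjM_cjM X
  show cjM (Complex.I • X) = -(Complex.I • cjM X)
  rw [cjM_smul, Complex.conj_I, neg_smul]

theorem finrank_low_H (q : Fin N) (hN : Even N) (hq : Odd (q : ℕ)) :
    Module.finrank ℝ (sgH N q hN hq).low.fx = ((q : ℕ) + 1) ^ 2 :=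
  finrank_low_of q _ (fun X => sigJ_conj (JH N) (JH_unit hN) X) fun X =>
    sigJ_invol (JH N) (JH_unit hN) (Or.inr (by rw [JH_cjM hN, JH_sq hN])) X

/-- `Quat` from `σ`. -/
theorem quat_of {G : Type} [Group G] (P : PH G N) (q : Fin N) (hN : Even N) (hq : Odd (q : ℕ))
    (h : ∀ g, (sgH N q hN hq).σ (P.ι g) = P.ι g) (g : G) : P.ι g * JH N = JH N * ((P.ι g)ᴴ)ᵀ := by
  have h1 : JH N * cjM (P.ι g) * (JH N)ᴴ = P.ι g := h g
  have h2 : cjM (P.ι g) = ((P.ι g)ᴴ)ᵀ := by
    ext i j
    rfl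
  have h3 : (JH N)ᴴ * JH N = 1 := mul_eq_one_comm.1 (JH_unit hN)
  calc P.ι g * JH N = JH N * cjM (P.ι g) * (JH N)ᴴ * JH N := by rw [h1]
    _ = JH N * ((P.ι g)ᴴ)ᵀ := by rw [Matrix.mul_assoc, h3, Matrix.mul_one, h2]

theorem isU_JH (hN : Even N) : IsU (JH N) := mul_eq_one_comm.1 (JH_unit hN)

end Pool.Agent.Helper9.Fra
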