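import Mathlib

/-!
# Project TZ (MP_0f6f3f_an): quaternionic spectral theorem

`T` selfadjoint, commuting with a quaternionic structure `j`: there is an orthonormal family `u i` of eigenvectors such that the vectors `j (u i)` are
orthogonal to the vectors `u k`, of length half the dimension.
-/

set_option autoImplicit false

open Filter Topology
open scoped InnerProductSpace

namespace Pool.Agent.Helper9.Fra

variable {E : Type*} [NormedAddCommGroup E] [InnerProductSpace ℂ E] [FiniteDimensional ℂ E]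

/-- A quaternionic structure. -/
structure QS (j : E → E) : Prop where
  smul : ∀ (c : ℂ) v, j (c • v) = (starRingEnd ℂ c) • j v
  jj : ∀ v, j (j v) = -v
  inn : ∀ v w, inner ℂ (j v) (j w) = inner ℂ w v

theorem QS.inn_self {j : E → E} (hj : QS j) (v : E) : inner ℂ (j v) v = 0 := by
  have h1 : inner ℂ (j v) (j (j v)) = inner ℂ (j v) v := hj.inn v (j v)
  rw [hj.jj, inner_neg_right] at h1
  have h2 : (2 : ℂ) * inner ℂ (j v) v = 0 := by linear_combination -h1
  exact (mul_eq_zero.1 h2).resolve_left two_ne_zero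

theorem QS.inn_symm {j : E → E} (hj : QS j) (v w : E) : inner ℂ (j v) w = -inner ℂ (j w) v := by
  have h1 : inner ℂ (j v) (j (j w)) = inner ℂ (j w) v := hj.inn v (j w)
  rw [hj.jj, inner_neg_right] at h1
  rw [← h1, neg_neg]

/-- the next eigenvector -/
theorem exists_next {j : E → E} (hj : QS j) {T : E →ₗ[ℂ] E} (hT : T.IsSymmetric) (hjT : ∀ v, T (j v) = j (T v)) {n : ℕ}
    (hn : 2 * n < Module.finrank ℂ E) (u : Fin n → E) (e : Fin n → ℝ) (hc : ∀ i, T (u i) = (e i : ℂ) • u i) :
    ∃ (v : E) (l : ℝ), inner ℂ v v = (1 : ℂ) ∧ (∀ i, inner ℂ (u i) v = 0) ∧ (∀ i, inner ℂ (j (u i)) v = 0) ∧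
      T v = (l : ℂ) • v := by
  classical
  let F : Finset E := Finset.univ.image u ∪ Finset.univ.image fun i => j (u i)
  let S : Submodule ℂ E := Submodule.span ℂ (F : Set E)
  have hcard : F.card ≤ 2 * n := by
    calc F.card ≤ (Finset.univ.image u).card + (Finset.univ.image fun i => j (u i)).card := Finset.card_union_le _ _
      _ ≤ n + n := by
          gcongr
          · exact Finset.card_image_le.trans (by simp)
          · exact Finset.card_image_le.trans (by simp)
      _ = 2 * n := by ring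
  have hS : Module.finrank ℂ S < Module.finrank ℂ E := by
    have h1 : Module.finrank ℂ S ≤ F.card := finrank_span_finset_le_card F
    omega
  have hSo : Sᗮ ≠ ⊥ := by
    intro h0
    have h1 : S = ⊤ := by
      rw [← Submodule.orthogonal_orthogonal S, h0, Submodule.bot_orthogonal_eq_top]
    rw [h1, finrank_top] at hS
    exact lt_irrefl _ hS
  have hmem : ∀ w : E, w ∈ Sᗮ ↔ (∀ i, inner ℂ (u i) w = 0) ∧ ∀ i, inner ℂ (j (u i)) w = 0 := by
    intro w
    constructor
    · intro hw
      rw [Submodule.mem_orthogonal] at hw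
      refine ⟨fun i => hw _ (Submodule.subset_span ?_), fun i => hw _ (Submodule.subset_span ?_)⟩
      · rw [Finset.mem_coe, Finset.mem_union, Finset.mem_image]
        exact Or.inl ⟨i, Finset.mem_univ _, rfl⟩
      · rw [Finset.mem_coe, Finset.mem_union, Finset.mem_image, Finset.mem_image]
        exact Or.inr ⟨i, Finset.mem_univ _, rfl⟩
    · rintro ⟨h1, h2⟩
      rw [Submodule.mem_orthogonal]
      intro x hx
      refine Submodule.span_induction (p := fun x _ => inner ℂ x w = 0) ?_ ?_ ?_ ?_ hx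
      · intro x hx
        rw [Finset.mem_coe, Finset.mem_union, Finset.mem_image, Finset.mem_image] at hx
        rcases hx with ⟨i, -, rfl⟩ | ⟨i, -, rfl⟩
        · exact h1 i
        · exact h2 i
      · exact inner_zero_left _
      · intro x y _ _ hx hy
        rw [inner_add_left, hx, hy, add_zero]
      · intro c x _ hx
        rw [inner_smul_left, hx, mul_zero]
  have hmaps : ∀ w ∈ Sᗮ, T w ∈ Sᗮ := by
    intro w hw
    obtain ⟨h1, h2⟩ := (hmem w).1 hw
    refine (hmem _).2 ⟨fun i => ?_, fun i => ?_⟩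
    · rw [← hT (u i) w, hc, inner_smul_left, h1, mul_zero]
    · rw [← hT (j (u i)) w, hjT, hc, hj.smul, inner_smul_left, h2, mul_zero]
  have hnt : Nontrivial Sᗮ := (Submodule.nontrivial_iff_ne_bot).2 hSo
  obtain ⟨μ, hμ⟩ := Module.End.exists_eigenvalue (T.restrict hmaps : Module.End ℂ Sᗮ)
  obtain ⟨w, hw⟩ := hμ.exists_hasEigenvector
  have hw1 : T (w : E) = μ • (w : E) := by
    have h1 := hw.apply_eq_smul
    exact congrArg Subtype.val h1
  have hw0 : (w : E) ≠ 0 := fun h0 => hw.2 (Subtype.ext h0)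
  have hμr : (starRingEnd ℂ) μ = μ := by
    have h1 := hT (w : E) (w : E)
    rw [hw1, inner_smul_left, inner_smul_right] at h1
    exact mul_right_cancel₀ (inner_self_ne_zero.2 hw0) h1
  obtain ⟨l, hl⟩ := Complex.conj_eq_iff_real.1 hμr
  obtain ⟨h1, h2⟩ := (hmem w).1 w.2
  refine ⟨((‖(w : E)‖ : ℝ) : ℂ)⁻¹ • (w : E), l, ?_, fun i => ?_, fun i => ?_, ?_⟩
  · have hn0 : ((‖(w : E)‖ : ℝ) : ℂ) ≠ 0 := by exact_mod_cast norm_ne_zero_iff.2 hw0
    rw [inner_smul_left, inner_smul_right, inner_self_eq_norm_sq_to_K, map_inv₀, Complex.conj_ofReal]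
    have h3 : ((‖(w : E)‖ : ℝ) : ℂ)⁻¹ * (((‖(w : E)‖ : ℝ) : ℂ)⁻¹ * ((‖(w : E)‖ : ℝ) : ℂ) ^ 2) = 1 := by
      field_simp
    exact h3
  · rw [inner_smul_right, h1, mul_zero]
  · rw [inner_smul_right, h2, mul_zero]
  · rw [map_smul, hw1, hl, smul_comm]

/-- **The quaternionic spectral theorem.** -/
theorem exists_fam {j : E → E} (hj : QS j) {T : E →ₗ[ℂ] E} (hT : T.IsSymmetric) (hjT : ∀ v, T (j v) = j (T v)) :
    ∀ n : ℕ, 2 * n ≤ Module.finrank ℂ E → ∃ (u : Fin n → E) (e : Fin n → ℝ),
      (∀ i k, inner ℂ (u i) (u k) = if i = k then (1 : ℂ) else 0) ∧ (∀ i k, inner ℂ (j (u i)) (u k) = 0) ∧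
      ∀ i, T (u i) = (e i : ℂ) • u i := by
  intro n
  induction n with
  | zero => exact fun _ => ⟨fun i => i.elim0, fun i => i.elim0, fun i => i.elim0, fun i => i.elim0, fun i => i.elim0⟩
  | succ n ih =>
    intro hn
    obtain ⟨u, e, ha, hb, hc⟩ := ih (by omega)
    obtain ⟨v, l, h1, h2, h3, h4⟩ := exists_next hj hT hjT (by omega) u e hc
    have h2' : ∀ i, inner ℂ v (u i) = 0 := fun i => by
      rw [← inner_conj_symm, h2, map_zero]
    refine ⟨Fin.snoc u v, Fin.snoc e l, ?_, ?_, ?_⟩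
    · intro i k
      refine Fin.lastCases ?_ (fun i => ?_) i
      · refine Fin.lastCases ?_ (fun k => ?_) k
        · rw [Fin.snoc_last, if_pos rfl, h1]
        · rw [Fin.snoc_last, Fin.snoc_castSucc, h2', if_neg (Fin.castSucc_ne_last k).symm]
      · refine Fin.lastCases ?_ (fun k => ?_) k
        · rw [Fin.snoc_last, Fin.snoc_castSucc, h2, if_neg (Fin.castSucc_ne_last i)]
        · rw [Fin.snoc_castSucc, Fin.snoc_castSucc, ha]
          simp
    · intro i k
      refine Fin.lastCases ?_ (fun i => ?_) i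
      · refine Fin.lastCases ?_ (fun k => ?_) k
        · rw [Fin.snoc_last]
          exact hj.inn_self v
        · rw [Fin.snoc_last, Fin.snoc_castSucc, hj.inn_symm, h3, neg_zero]
      · refine Fin.lastCases ?_ (fun k => ?_) k
        · rw [Fin.snoc_last, Fin.snoc_castSucc, h3]
        · rw [Fin.snoc_castSucc, Fin.snoc_castSucc, hb]
    · intro i
      refine Fin.lastCases ?_ (fun i => ?_) i
      · rw [Fin.snoc_last, Fin.snoc_last, h4]
      · rw [Fin.snoc_castSucc, Fin.snoc_castSucc, hc]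

/-- sorted version -/
theorem exists_fam_anti {j : E → E} (hj : QS j) {T : E →ₗ[ℂ] E} (hT : T.IsSymmetric) (hjT : ∀ v, T (j v) = j (T v))
    (n : ℕ) (hn : 2 * n ≤ Module.finrank ℂ E) : ∃ (u : Fin n → E) (e : Fin n → ℝ),
      (∀ i k, inner ℂ (u i) (u k) = if i = k then (1 : ℂ) else 0) ∧ (∀ i k, inner ℂ (j (u i)) (u k) = 0) ∧
      (∀ i, T (u i) = (e i : ℂ) • u i) ∧ Antitone e := by
  obtain ⟨u, e, h1, h2, h3⟩ := exists_fam hj hT hjT n hn
  set σ : Equiv.Perm (Fin n) := Tuple.sort (fun i => - e i) with hσ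
  have hmono : Monotone ((fun i => - e i) ∘ σ) := Tuple.monotone_sort _
  refine ⟨u ∘ σ, e ∘ σ, fun i k => ?_, fun i k => h2 _ _, fun i => h3 _, fun i k hik => ?_⟩
  · show inner ℂ (u (σ i)) (u (σ k)) = _
    rw [h1]
    by_cases h : i = k
    · rw [if_pos h, if_pos (congrArg σ h)]
    · rw [if_neg h, if_neg fun h' => h (σ.injective h')]
  · have h4 := hmono hik
    simp only [Function.comp] at h4
    show e (σ k) ≤ e (σ i)
    linarith

end Pool.Agent.Helper9.Fra
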