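import Pool.Agent.Helper9.FP.Fr1

/-!
# Project TZ (MP_0f6f3f_an): existence of frames

Singular value decompositions by matrices fixed by `σ`.
-/

set_option autoImplicit false
set_option linter.unusedSectionVars false

open Filter Topology Matrix

namespace Pool.Agent.Helper9.Fra

open Pool.Agent.Helper90.RK Pool.Agent.Helper84.NI Pool.Agent.Helper78.BI Pool.Agent.Helper9.Lin

variable {N : ℕ} {q : Fin N}

theorem svd_of_spec (s : Sg N q) {A : MN N} (hA : ‖A.det‖ = 1) (hσ : s.σ A = A) {k' : MN N} {e : Fin N → ℝ} (hk : IsU k')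
    (hk' : s.σ k' = k') (he : Antitone e)
    (hD : ∀ f : ℝ → ℝ, s.σ (diagonal fun i => (f (e i) : ℂ)) = diagonal fun i => (f (e i) : ℂ))
    (hsp : Aᴴ * A = k' * diagonal (fun i => (e i : ℂ)) * k'ᴴ) :
    ∃ (k : MN N) (t : Fin N → ℝ), IsU k ∧ (∀ i, 0 < t i) ∧ Antitone t ∧ A = k * diagonal (fun i => (t i : ℂ)) * k'ᴴ ∧
      s.σ k = k ∧ s.σ (diagonal fun i => (t i : ℂ)) = diagonal fun i => (t i : ℂ) := by
  have hk2 : k' * k'ᴴ = 1 := mul_eq_one_comm.mp hk
  have hk1 : k'ᴴ * k' = 1 := hk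
  have h5 : k'ᴴ * (Aᴴ * A) * k' = diagonal (fun i => (e i : ℂ)) := by
    rw [hsp]
    calc k'ᴴ * (k' * diagonal (fun i => (e i : ℂ)) * k'ᴴ) * k'
        = (k'ᴴ * k') * diagonal (fun i => (e i : ℂ)) * (k'ᴴ * k') := by simp only [Matrix.mul_assoc]
      _ = diagonal (fun i => (e i : ℂ)) := by rw [hk1, Matrix.one_mul, Matrix.mul_one]
  have hepos : ∀ i, 0 < e i := by
    have h6 : (A * k')ᴴ * (A * k') = diagonal (fun i => (e i : ℂ)) := by
      rw [← h5, conjTranspose_mul]
      simp only [Matrix.mul_assoc]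
    have hnn : ∀ i, 0 ≤ e i := fun i => by
      have h7 := congrFun (congrFun h6 i) i
      rw [diagonal_apply_eq, mul_apply] at h7
      have h8 : ((∑ l, ‖(A * k') l i‖ ^ 2 : ℝ) : ℂ) = (e i : ℂ) := by
        rw [← h7]
        push_cast
        refine Finset.sum_congr rfl fun l _ => ?_
        rw [conjTranspose_apply, Complex.star_def, ← Complex.normSq_eq_conj_mul_self, Complex.normSq_eq_norm_sq]
        push_cast
        rfl
      have h9 : (∑ l, ‖(A * k') l i‖ ^ 2 : ℝ) = e i := by exact_mod_cast h8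
      rw [← h9]
      positivity
    have hdet : (∏ i, (e i : ℂ)) ≠ 0 := by
      have h7 := congrArg Matrix.det h6
      rw [det_diagonal] at h7
      rw [← h7, det_mul, det_conjTranspose]
      have h8 : (A * k').det ≠ 0 := by
        rw [det_mul]
        refine mul_ne_zero ?_ ?_
        · intro h0
          rw [h0, norm_zero] at hA
          exact zero_ne_one hA
        · intro h0
          have := congrArg Matrix.det hk1
          rw [det_mul, h0, mul_zero, det_one] at this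
          exact zero_ne_one this
      exact mul_ne_zero (star_ne_zero.2 h8) h8
    intro i
    refine lt_of_le_of_ne (hnn i) fun h0 => hdet ?_
    exact Finset.prod_eq_zero (Finset.mem_univ i) (by rw [← h0]; simp)
  set t : Fin N → ℝ := fun i => Real.sqrt (e i) with ht
  have hspos : ∀ i, 0 < t i := fun i => Real.sqrt_pos.mpr (hepos i)
  have hs0 : ∀ i, (t i : ℂ) ≠ 0 := fun i => by exact_mod_cast (hspos i).ne'
  have hss : ∀ i, (t i : ℂ) * (t i : ℂ) = (e i : ℂ) := fun i => by
    rw [← Complex.ofReal_mul, Real.mul_self_sqrt (hepos i).le]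
  have hinv : s.σ (diagonal fun i => ((t i : ℂ))⁻¹) = diagonal fun i => ((t i : ℂ))⁻¹ := by
    have h7 := hD fun x => (Real.sqrt x)⁻¹
    push_cast at h7
    exact h7
  refine ⟨A * k' * diagonal (fun i => ((t i : ℂ))⁻¹), t, ?_, hspos, fun i j hij => Real.sqrt_le_sqrt (he hij), ?_, ?_, ?_⟩
  · unfold IsU
    rw [Matrix.conjTranspose_mul, Matrix.conjTranspose_mul, Matrix.diagonal_conjTranspose]
    have h4 : star (fun i => ((t i : ℂ))⁻¹) = fun i => ((t i : ℂ))⁻¹ := by
      funext i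
      simp [Complex.conj_ofReal]
    rw [h4]
    calc diagonal (fun i => ((t i : ℂ))⁻¹) * (k'ᴴ * Aᴴ) * (A * k' * diagonal (fun i => ((t i : ℂ))⁻¹))
        = diagonal (fun i => ((t i : ℂ))⁻¹) * (k'ᴴ * (Aᴴ * A) * k') * diagonal (fun i => ((t i : ℂ))⁻¹) := by
          simp only [Matrix.mul_assoc]
      _ = diagonal (fun i => ((t i : ℂ))⁻¹) * diagonal (fun i => (e i : ℂ)) *
            diagonal (fun i => ((t i : ℂ))⁻¹) := by rw [h5]
      _ = 1 := by
          rw [Matrix.diagonal_mul_diagonal, Matrix.diagonal_mul_diagonal, ← Matrix.diagonal_one]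
          congr 1
          funext i
          rw [← hss i]
          field_simp [hs0 i]
  · calc A = A * (k' * k'ᴴ) := by rw [hk2, Matrix.mul_one]
      _ = A * k' * (diagonal (fun i => ((t i : ℂ))⁻¹) * diagonal (fun i => (t i : ℂ))) * k'ᴴ := by
          have h6 : diagonal (fun i => ((t i : ℂ))⁻¹) * diagonal (fun i => (t i : ℂ)) = 1 := by
            rw [Matrix.diagonal_mul_diagonal, ← Matrix.diagonal_one]
            congr 1
            funext i
            exact inv_mul_cancel₀ (hs0 i)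
          rw [h6, Matrix.mul_one, Matrix.mul_assoc]
      _ = _ := by simp only [Matrix.mul_assoc]
  · rw [s.mul, s.mul, hσ, hk', hinv]
  · exact hD Real.sqrt

/-- the frames from spectral decompositions -/
theorem exists_sv_of {G : Type} [Group G] (P : PH G N) (s : Sg N q) (hP : ∀ g, s.σ (P.ι g) = P.ι g)
    (h : ∀ A : MN N, s.σ A = A → ∃ (k' : MN N) (e : Fin N → ℝ), IsU k' ∧ s.σ k' = k' ∧ Antitone e ∧
      (∀ f : ℝ → ℝ, s.σ (diagonal fun i => (f (e i) : ℂ)) = diagonal fun i => (f (e i) : ℂ)) ∧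
      Aᴴ * A = k' * diagonal (fun i => (e i : ℂ)) * k'ᴴ) :
    ∃ S : Sv P, (∀ g, s.σ (S.kR g) = S.kR g) ∧ (∀ g, s.σ (S.kL g) = S.kL g) ∧
      ∀ g, s.σ (diagonal fun i => (S.s g i : ℂ)) = diagonal fun i => (S.s g i : ℂ) := by
  choose k' e h1 h2 h3 h4 h5 using fun g => h (P.ι g) (hP g)
  choose k t h6 h7 h8 h9 h10 h11 using fun g => svd_of_spec s (P.det1 g) (hP g) (h1 g) (h2 g) (h3 g) (h4 g) (h5 g)
  exact ⟨⟨k, k', t, h6, h1, h7, h8, h9⟩, h2, h10, h11⟩

/-- **Complex frames.** -/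
theorem exists_sv_C {G : Type} [Group G] (P : PH G N) (q : Fin N) : ∃ S : Sv P, (∀ g, (sgC N q).σ (S.kR g) = S.kR g) ∧
    (∀ g, (sgC N q).σ (S.kL g) = S.kL g) ∧
      ∀ g, (sgC N q).σ (diagonal fun i => (S.s g i : ℂ)) = diagonal fun i => (S.s g i : ℂ) := by
  obtain ⟨S⟩ := nonempty_sv P
  exact ⟨S, fun _ => rfl, fun _ => rfl, fun _ => rfl⟩

/-- complexification -/
def cx (X : Matrix (Fin N) (Fin N) ℝ) : MN N := X.map Complex.ofReal

theorem cx_mul (X Y : Matrix (Fin N) (Fin N) ℝ) : cx (X * Y) = cx X * cx Y := by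
  ext i j
  simp [cx, mul_apply]

theorem cx_transpose (X : Matrix (Fin N) (Fin N) ℝ) : cx Xᵀ = (cx X)ᴴ := by
  ext i j
  simp [cx]

theorem cx_diagonal (d : Fin N → ℝ) : cx (diagonal d) = diagonal fun i => (d i : ℂ) := by
  ext i j
  simp only [cx, map_apply, diagonal_apply]
  split_ifs <;> simp

theorem cx_one : cx (1 : Matrix (Fin N) (Fin N) ℝ) = 1 := by
  rw [← diagonal_one, cx_diagonal]
  simp

theorem cjM_cx (X : Matrix (Fin N) (Fin N) ℝ) : cjM (cx X) = cx X := by
  ext i j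
  exact Complex.conj_ofReal _

theorem exists_cx {A : MN N} (h : cjM A = A) : ∃ X, A = cx X := by
  refine ⟨Matrix.of fun i j => (A i j).re, ?_⟩
  ext i j
  have h1 : starRingEnd ℂ (A i j) = A i j := congrFun (congrFun h i) j
  exact (Complex.conj_eq_iff_re.1 h1).symm

theorem spec_R (A : MN N) (hσ : (sgR N q).σ A = A) : ∃ (k' : MN N) (e : Fin N → ℝ), IsU k' ∧ (sgR N q).σ k' = k' ∧ Antitone e ∧
    (∀ f : ℝ → ℝ, (sgR N q).σ (diagonal fun i => (f (e i) : ℂ)) = diagonal fun i => (f (e i) : ℂ)) ∧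
      Aᴴ * A = k' * diagonal (fun i => (e i : ℂ)) * k'ᴴ := by
  obtain ⟨X, rfl⟩ := exists_cx (A := A) hσ
  have hB : (Xᵀ * X).IsHermitian := by
    have := isHermitian_conjTranspose_mul_self X
    rwa [conjTranspose_eq_transpose_of_trivial] at this
  set e0 : Fin N → ℝ := hB.eigenvalues with he0
  set U : Matrix (Fin N) (Fin N) ℝ := (hB.eigenvectorUnitary : Matrix (Fin N) (Fin N) ℝ) with hU
  have hU1 : Uᵀ * U = 1 := by
    have := (Matrix.mem_unitaryGroup_iff').1 hB.eigenvectorUnitary.2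
    rw [star_eq_conjTranspose, conjTranspose_eq_transpose_of_trivial] at this
    exact this
  have hsp : Xᵀ * X = U * diagonal e0 * Uᵀ := by
    conv_lhs => rw [hB.spectral_theorem, Unitary.conjStarAlgAut_apply]
    rw [star_eq_conjTranspose, conjTranspose_eq_transpose_of_trivial]
    rfl
  set σ : Equiv.Perm (Fin N) := Tuple.sort (fun i => - e0 i) with hσ
  have hmono : Monotone ((fun i => - e0 i) ∘ σ) := Tuple.monotone_sort _
  set e : Fin N → ℝ := fun i => e0 (σ i) with he
  have hanti : ∀ i j, i ≤ j → e j ≤ e i := by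
    intro i j hij
    have := hmono hij
    simp only [Function.comp] at this
    simp only [he]
    linarith
  set k : Matrix (Fin N) (Fin N) ℝ := U.submatrix id σ with hk
  have hk1 : kᵀ * k = 1 := by
    rw [hk, Matrix.transpose_submatrix, ← Matrix.submatrix_mul _ _ σ id σ Function.bijective_id, hU1,
      Matrix.submatrix_one _ σ.injective]
  have hsp' : Xᵀ * X = k * diagonal e * kᵀ := by
    have h3 : diagonal e = (diagonal e0).submatrix σ σ := by
      rw [Matrix.submatrix_diagonal _ _ σ.injective]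
      rfl
    rw [hsp, h3, hk, Matrix.transpose_submatrix, ← Matrix.submatrix_mul _ _ id σ σ σ.bijective,
      ← Matrix.submatrix_mul _ _ id σ id σ.bijective, Matrix.submatrix_id_id]
  refine ⟨cx k, e, ?_, cjM_cx k, fun i j hij => hanti i j hij, fun f => ?_, ?_⟩
  · show (cx k)ᴴ * cx k = 1
    rw [← cx_transpose, ← cx_mul, hk1, cx_one]
  · rw [← cx_diagonal fun i => f (e i)]
    exact cjM_cx _
  · rw [← cx_transpose, ← cx_mul, hsp', cx_mul, cx_mul, cx_diagonal, cx_transpose]

/-- **Real frames.** -/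
theorem exists_sv_R {G : Type} [Group G] (P : PH G N) (q : Fin N) (hP : ∀ g, (sgR N q).σ (P.ι g) = P.ι g) :
    ∃ S : Sv P, (∀ g, (sgR N q).σ (S.kR g) = S.kR g) ∧ (∀ g, (sgR N q).σ (S.kL g) = S.kL g) ∧
      ∀ g, (sgR N q).σ (diagonal fun i => (S.s g i : ℂ)) = diagonal fun i => (S.s g i : ℂ) :=
  exists_sv_of P _ hP spec_R

end Pool.Agent.Helper9.Fra
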