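import Mathlib

/-!
# Project FP / TZ (MP_0f6f3f_an): nets on the hypersurface `N = 1` of a `D`-dimensional space

If `N` is homogeneous and locally Lipschitz then a `δ`-separated set of points `x` with `N x = 1`, `‖x‖ ≤ R`, has at most `C δ ^ -(D - 1)` elements
(multiply it with the numbers `1 + k δ`, `k < 1 / δ`).
-/

set_option autoImplicit false

open Filter Topology MeasureTheory

namespace Pool.Agent.Helper9.FP

variable {E : Type*} [NormedAddCommGroup E] [NormedSpace ℝ E] [FiniteDimensional ℝ E]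

/-- the packing bound -/
theorem packing (P : Finset E) {R ε : ℝ} (hR : 0 ≤ R) (hε : 0 < ε) (hP : ∀ x ∈ P, ‖x‖ ≤ R)
    (hs : ∀ x ∈ P, ∀ y ∈ P, x ≠ y → ε ≤ ‖x - y‖) : (P.card : ℝ) ≤ ((2 * R + ε) / ε) ^ Module.finrank ℝ E := by
  borelize E
  let μ : Measure E := Measure.addHaar
  have h1 : μ (⋃ x ∈ P, Metric.ball x (ε / 2)) = ∑ x ∈ P, μ (Metric.ball x (ε / 2)) := by
    refine measure_biUnion_finset ?_ fun x _ => Metric.isOpen_ball.measurableSet
    intro x hx y hy hxy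
    refine Metric.ball_disjoint_ball ?_
    rw [dist_eq_norm]
    linarith [hs x hx y hy hxy]
  have h2 : (⋃ x ∈ P, Metric.ball x (ε / 2)) ⊆ Metric.ball (0 : E) (R + ε / 2) := by
    refine Set.iUnion₂_subset fun x hx => Metric.ball_subset_ball' ?_
    rw [dist_zero_right]
    linarith [hP x hx]
  have h3 : ∀ x : E, μ (Metric.ball x (ε / 2)) = ENNReal.ofReal ((ε / 2) ^ Module.finrank ℝ E) * μ (Metric.ball 0 1) :=
    fun x => Measure.addHaar_ball_of_pos μ x (by positivity)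
  have h4 : μ (Metric.ball (0 : E) (R + ε / 2)) = ENNReal.ofReal ((R + ε / 2) ^ Module.finrank ℝ E) * μ (Metric.ball 0 1) :=
    Measure.addHaar_ball_of_pos μ 0 (by positivity)
  have h5 : (P.card : ENNReal) * (ENNReal.ofReal ((ε / 2) ^ Module.finrank ℝ E) * μ (Metric.ball 0 1)) ≤
      ENNReal.ofReal ((R + ε / 2) ^ Module.finrank ℝ E) * μ (Metric.ball 0 1) := by
    calc (P.card : ENNReal) * (ENNReal.ofReal ((ε / 2) ^ Module.finrank ℝ E) * μ (Metric.ball 0 1))
        = ∑ x ∈ P, μ (Metric.ball x (ε / 2)) := by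
          rw [Finset.sum_congr rfl fun x _ => h3 x, Finset.sum_const, nsmul_eq_mul]
      _ ≤ μ (Metric.ball (0 : E) (R + ε / 2)) := by
          rw [← h1]
          exact measure_mono h2
      _ = _ := h4
  have hpos : μ (Metric.ball (0 : E) 1) ≠ 0 := (Metric.measure_ball_pos μ 0 one_pos).ne'
  have hfin : μ (Metric.ball (0 : E) 1) ≠ ⊤ := measure_ball_lt_top.ne
  rw [← mul_assoc, ENNReal.mul_le_mul_iff_left hpos hfin] at h5
  have h6 : (P.card : ENNReal) * ENNReal.ofReal ((ε / 2) ^ Module.finrank ℝ E) =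
      ENNReal.ofReal ((P.card : ℝ) * (ε / 2) ^ Module.finrank ℝ E) := by
    rw [ENNReal.ofReal_mul (by positivity), ENNReal.ofReal_natCast]
  rw [h6, ENNReal.ofReal_le_ofReal_iff (by positivity)] at h5
  have h7 : ((2 * R + ε) / ε) = (R + ε / 2) / (ε / 2) := by
    field_simp
  rw [h7, div_pow, le_div_iff₀ (by positivity)]
  exact h5

/-- the packing bound on the hypersurface -/
theorem packing_cone (N : E → ℝ) {n : ℕ} (hn : n ≠ 0) (hN : ∀ r : ℝ, 0 ≤ r → ∀ x, N (r • x) = r ^ n * N x) {R L : ℝ}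
    (hL : ∀ x y, ‖x‖ ≤ 2 * R → ‖y‖ ≤ 2 * R → |N x - N y| ≤ L * ‖x - y‖) :
    ∃ C : ℝ, 0 < C ∧ ∀ δ : ℝ, 0 < δ → δ ≤ 1 → ∀ P : Finset E, (∀ x ∈ P, ‖x‖ ≤ R ∧ N x = 1) →
      (∀ x ∈ P, ∀ y ∈ P, x ≠ y → δ ≤ ‖x - y‖) → (P.card : ℝ) ≤ C * δ⁻¹ ^ (Module.finrank ℝ E - 1) := by
  classical
  set D := Module.finrank ℝ E with hD
  set c := max L 1 with hc
  have hc1 : 1 ≤ c := le_max_right _ _
  have hcL : L ≤ c := le_max_left _ _
  refine ⟨2 * (4 * |R| * c + 1) ^ D, by positivity, ?_⟩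
  intro δ hδ hδ1 P hP hs
  rcases P.eq_empty_or_nonempty with hP0 | ⟨x0, hx0⟩
  · rw [hP0, Finset.card_empty, Nat.cast_zero]
    positivity
  have hR : 0 ≤ R := (norm_nonneg x0).trans (hP x0 hx0).1
  have hN0 : N 0 = 0 := by
    have := hN 0 le_rfl 0
    rw [zero_pow hn, zero_mul, smul_zero] at this
    exact this
  have hx00 : x0 ≠ 0 := by
    intro h0
    have := (hP x0 hx0).2
    rw [h0, hN0] at this
    exact zero_ne_one this
  have hD1 : 1 ≤ D := by
    have : Nontrivial E := ⟨x0, 0, hx00⟩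
    exact Module.finrank_pos
  obtain ⟨M, hM⟩ : ∃ M : ℕ, M = ⌊δ⁻¹⌋₊ := ⟨_, rfl⟩
  have hδi : 1 ≤ δ⁻¹ := (one_le_inv₀ hδ).2 hδ1
  have hM1 : (M : ℝ) ≤ δ⁻¹ := by
    rw [hM]
    exact Nat.floor_le (by positivity)
  have hM2 : δ⁻¹ ≤ 2 * M := by
    have h1 : δ⁻¹ < M + 1 := by
      rw [hM]
      exact Nat.lt_floor_add_one _
    have h2 : 1 ≤ M := by
      rw [hM]
      exact Nat.le_floor (by exact_mod_cast hδi)
    have h3 : (1 : ℝ) ≤ M := by exact_mod_cast h2
    linarith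
  let r : ℕ → ℝ := fun k => 1 + k * δ
  have hr1 : ∀ k, 1 ≤ r k := fun k => by
    show 1 ≤ 1 + (k : ℝ) * δ
    have : 0 ≤ (k : ℝ) * δ := by positivity
    linarith
  have hr2 : ∀ k < M, r k ≤ 2 := fun k hk => by
    show 1 + (k : ℝ) * δ ≤ 2
    have h1 : (k : ℝ) ≤ δ⁻¹ := (by exact_mod_cast hk.le : (k : ℝ) ≤ M).trans hM1
    have h2 : (k : ℝ) * δ ≤ δ⁻¹ * δ := mul_le_mul_of_nonneg_right h1 hδ.le
    rw [inv_mul_cancel₀ hδ.ne'] at h2
    linarith
  have hnr : ∀ x ∈ P, ∀ k < M, ‖r k • x‖ ≤ 2 * R := fun x hx k hk => by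
    rw [norm_smul, Real.norm_of_nonneg (by linarith [hr1 k])]
    exact mul_le_mul (hr2 k hk) (hP x hx).1 (norm_nonneg _) (by norm_num)
  have hpow : ∀ a b : ℝ, 1 ≤ a → 1 ≤ b → |a - b| ≤ |a ^ n - b ^ n| := by
    have key : ∀ a b : ℝ, 1 ≤ b → b ≤ a → |a - b| ≤ |a ^ n - b ^ n| := by
      intro a b hb hab
      have h0 : b ^ n ≤ a ^ n := pow_le_pow_left₀ (by linarith) hab n
      rw [abs_of_nonneg (by linarith), abs_of_nonneg (by linarith)]
      obtain ⟨m, rfl⟩ := Nat.exists_eq_succ_of_ne_zero hn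
      rw [Nat.succ_eq_add_one, pow_succ, pow_succ]
      have h2 : 1 ≤ b ^ m := one_le_pow₀ hb
      have h3 : b ^ m ≤ a ^ m := pow_le_pow_left₀ (by linarith) hab m
      nlinarith
    intro a b ha hb
    rcases le_total b a with h | h
    · exact key a b hb h
    · rw [abs_sub_comm a b, abs_sub_comm (a ^ n)]
      exact key b a ha h
  have hsep : ∀ x ∈ P, ∀ k < M, ∀ y ∈ P, ∀ j < M, (x, k) ≠ (y, j) → δ / c ≤ ‖r k • x - r j • y‖ := by
    intro x hx k hk y hy j hj hne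
    rw [div_le_iff₀ (by linarith)]
    by_cases hkj : k = j
    · subst hkj
      have hxy : x ≠ y := fun h => hne (by rw [h])
      rw [← smul_sub, norm_smul, Real.norm_of_nonneg (by linarith [hr1 k])]
      have h1 := hs x hx y hy hxy
      have h2 := hr1 k
      calc δ ≤ ‖x - y‖ := h1
        _ ≤ r k * ‖x - y‖ := le_mul_of_one_le_left (norm_nonneg _) h2
        _ ≤ r k * ‖x - y‖ * c := le_mul_of_one_le_right (by positivity) hc1
    · have h1 := hL _ _ (hnr x hx k hk) (hnr y hy j hj)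
      rw [hN _ (by linarith [hr1 k]), hN _ (by linarith [hr1 j]), (hP x hx).2, (hP y hy).2, mul_one, mul_one] at h1
      have h2 := hpow (r k) (r j) (hr1 k) (hr1 j)
      have h3 : δ ≤ |r k - r j| := by
        have h4 : r k - r j = ((k : ℝ) - j) * δ := by
          show 1 + (k : ℝ) * δ - (1 + (j : ℝ) * δ) = _
          ring
        rw [h4, abs_mul, abs_of_pos hδ]
        have h5 : (1 : ℝ) ≤ |(k : ℝ) - j| := by
          have h6 : (1 : ℤ) ≤ |(k : ℤ) - j| := Int.one_le_abs (sub_ne_zero.2 (by exact_mod_cast hkj))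
          exact_mod_cast h6
        exact le_mul_of_one_le_left hδ.le h5
      calc δ ≤ L * ‖r k • x - r j • y‖ := h3.trans (h2.trans h1)
        _ ≤ c * ‖r k • x - r j • y‖ := mul_le_mul_of_nonneg_right hcL (norm_nonneg _)
        _ = ‖r k • x - r j • y‖ * c := mul_comm _ _
  have hinj : Set.InjOn (fun p : E × ℕ => r p.2 • p.1) (P ×ˢ Finset.range M : Finset (E × ℕ)) := by
    rintro ⟨x, k⟩ hxk ⟨y, j⟩ hyj h
    rw [Finset.coe_product, Set.mem_prod, Finset.mem_coe, Finset.mem_coe, Finset.mem_range] at hxk hyj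
    by_contra hne
    have h1 := hsep x hxk.1 k hxk.2 y hyj.1 j hyj.2 hne
    have h2 : r k • x = r j • y := h
    rw [h2, sub_self, norm_zero] at h1
    have h3 : 0 < δ / c := by positivity
    linarith
  have hpack := packing ((P ×ˢ Finset.range M).image fun p : E × ℕ => r p.2 • p.1) (R := 2 * R) (ε := δ / c)
    (by positivity) (by positivity) (by
      intro z hz
      rw [Finset.mem_image] at hz
      obtain ⟨⟨x, k⟩, hxk, rfl⟩ := hz
      rw [Finset.mem_product, Finset.mem_range] at hxk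
      exact hnr x hxk.1 k hxk.2) (by
      intro z hz w hw hzw
      rw [Finset.mem_image] at hz hw
      obtain ⟨⟨x, k⟩, hxk, rfl⟩ := hz
      obtain ⟨⟨y, j⟩, hyj, rfl⟩ := hw
      rw [Finset.mem_product, Finset.mem_range] at hxk hyj
      exact hsep x hxk.1 k hxk.2 y hyj.1 j hyj.2 fun h => hzw (by rw [h]))
  rw [Finset.card_image_of_injOn hinj, Finset.card_product, Finset.card_range, Nat.cast_mul, ← hD] at hpack
  have h8 : (2 * (2 * R) + δ / c) / (δ / c) ≤ (4 * |R| * c + 1) * δ⁻¹ := by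
    rw [abs_of_nonneg hR, add_div, div_self (by positivity), div_div_eq_mul_div]
    have : 2 * (2 * R) * c / δ = 4 * R * c * δ⁻¹ := by
      rw [div_eq_mul_inv]
      ring
    rw [this]
    linarith
  have h9 : (P.card : ℝ) * M ≤ (4 * |R| * c + 1) ^ D * δ⁻¹ ^ D := by
    rw [← mul_pow]
    exact hpack.trans (pow_le_pow_left₀ (by positivity) h8 D)
  have h10 : (P.card : ℝ) * δ⁻¹ ≤ 2 * ((4 * |R| * c + 1) ^ D * δ⁻¹ ^ D) := by
    calc (P.card : ℝ) * δ⁻¹ ≤ (P.card : ℝ) * (2 * M) := mul_le_mul_of_nonneg_left hM2 (Nat.cast_nonneg _)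
      _ = 2 * ((P.card : ℝ) * M) := by ring
      _ ≤ _ := mul_le_mul_of_nonneg_left h9 (by norm_num)
  have h11 : δ⁻¹ ^ D = δ⁻¹ ^ (D - 1) * δ⁻¹ := by
    rw [← pow_succ, Nat.sub_add_cancel hD1]
  rw [h11] at h10
  have h12 : (P.card : ℝ) * δ⁻¹ ≤ (2 * (4 * |R| * c + 1) ^ D * δ⁻¹ ^ (D - 1)) * δ⁻¹ := by
    calc (P.card : ℝ) * δ⁻¹ ≤ _ := h10
      _ = _ := by ring
  exact le_of_mul_le_mul_right h12 (by positivity)

/-- **Nets on the hypersurface.** -/
theorem exists_net {G : Type*} (m : G → E) (N : E → ℝ) {n : ℕ} (hn : n ≠ 0) (hN : ∀ r : ℝ, 0 ≤ r → ∀ x, N (r • x) = r ^ n * N x)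
    {R L : ℝ} (hL : ∀ x y, ‖x‖ ≤ 2 * R → ‖y‖ ≤ 2 * R → |N x - N y| ≤ L * ‖x - y‖) (K : Set G)
    (hK : ∀ g ∈ K, ‖m g‖ ≤ R ∧ N (m g) = 1) :
    ∃ C : ℝ, 0 < C ∧ ∀ δ : ℝ, 0 < δ → δ ≤ 1 → ∃ P : Finset G, (P.card : ℝ) ≤ C * δ⁻¹ ^ (Module.finrank ℝ E - 1) ∧
      (∀ k ∈ P, k ∈ K) ∧ ∀ g ∈ K, ∃ k ∈ P, ‖m g - m k‖ < δ := by
  classical
  obtain ⟨C, hC0, hC⟩ := packing_cone N hn hN hL
  refine ⟨C, hC0, ?_⟩
  intro δ hδ hδ1
  by_contra hcon
  push Not at hcon
  have key : ∀ a : ℕ, ∃ P : Finset G, P.card = a ∧ (∀ k ∈ P, k ∈ K) ∧ ∀ x ∈ P, ∀ y ∈ P, x ≠ y → δ ≤ ‖m x - m y‖ := by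
    intro a
    induction a with
    | zero => exact ⟨∅, rfl, by simp, by simp⟩
    | succ a ih =>
      obtain ⟨P, h1, h2, h3⟩ := ih
      have h4 : (P.card : ℝ) ≤ C * δ⁻¹ ^ (Module.finrank ℝ E - 1) := by
        have hinj : Set.InjOn m P := by
          intro x hx y hy hxy
          by_contra hne
          have := h3 x hx y hy hne
          rw [hxy, sub_self, norm_zero] at this
          linarith
        have h5 := hC δ hδ hδ1 (P.image m) (by
          intro x hx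
          rw [Finset.mem_image] at hx
          obtain ⟨g, hg, rfl⟩ := hx
          exact hK g (h2 g hg)) (by
          intro x hx y hy hxy
          rw [Finset.mem_image] at hx hy
          obtain ⟨g, hg, rfl⟩ := hx
          obtain ⟨g', hg', rfl⟩ := hy
          exact h3 g hg g' hg' fun h => hxy (by rw [h]))
        rwa [Finset.card_image_of_injOn hinj] at h5
      obtain ⟨g, hg, hg2⟩ := hcon P h4 h2
      have hgP : g ∉ P := fun h => by
        have := hg2 g h
        rw [sub_self, norm_zero] at this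
        linarith
      refine ⟨insert g P, by rw [Finset.card_insert_of_notMem hgP, h1], ?_, ?_⟩
      · intro k hk
        rcases Finset.mem_insert.1 hk with rfl | hk
        · exact hg
        · exact h2 k hk
      · intro x hx y hy hxy
        rcases Finset.mem_insert.1 hx with hx1 | hx1
        · rcases Finset.mem_insert.1 hy with hy1 | hy1
          · exact absurd (hx1.trans hy1.symm) hxy
          · rw [hx1]
            exact hg2 y hy1
        · rcases Finset.mem_insert.1 hy with hy1 | hy1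
          · rw [hy1, norm_sub_rev]
            exact hg2 x hx1
          · exact h3 x hx1 y hy1 hxy
  obtain ⟨a, ha⟩ := exists_nat_gt (C * δ⁻¹ ^ (Module.finrank ℝ E - 1))
  obtain ⟨P, h1, h2, h3⟩ := key a
  have hinj : Set.InjOn m P := by
    intro x hx y hy hxy
    by_contra hne
    have := h3 x hx y hy hne
    rw [hxy, sub_self, norm_zero] at this
    linarith
  have h5 := hC δ hδ hδ1 (P.image m) (by
    intro x hx
    rw [Finset.mem_image] at hx
    obtain ⟨g, hg, rfl⟩ := hx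
    exact hK g (h2 g hg)) (by
    intro x hx y hy hxy
    rw [Finset.mem_image] at hx hy
    obtain ⟨g, hg, rfl⟩ := hx
    obtain ⟨g', hg', rfl⟩ := hy
    exact h3 g hg g' hg' fun h => hxy (by rw [h]))
  rw [Finset.card_image_of_injOn hinj, h1] at h5
  linarith

end Pool.Agent.Helper9.FP
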