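import Pool.Agent.Helper9.FP.Lin
import Pool.Agent.Helper9.FP.Net

/-!
# Project TZ (MP_0f6f3f_an): nets in `Shat σ`

A compact set `B` of `Sh s` has `δ`-nets with at most `C δ ^ -(D - 1)` elements, `D` the real dimension of the fixed space of `σ`.
-/

set_option autoImplicit false

open Filter Topology MeasureTheory Matrix
open scoped ENNReal

namespace Pool.Agent.Helper9.Lin

variable {m : ℕ} {s : Sig m}

theorem norm_det_le (M : Fin m → Fin m → ℂ) :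
    ‖(Matrix.detRowAlternating (R := ℂ) (n := Fin m)).toMultilinearMap M‖ ≤ (m.factorial : ℝ) * ∏ i, ‖M i‖ := by
  show ‖Matrix.det (n := Fin m) (R := ℂ) M‖ ≤ _
  rw [det_apply]
  calc ‖∑ σ : Equiv.Perm (Fin m), Equiv.Perm.sign σ • ∏ i, (M : Matrix (Fin m) (Fin m) ℂ) (σ i) i‖
      ≤ ∑ σ : Equiv.Perm (Fin m), ∏ i, ‖M i‖ := norm_sum_le_of_le _ fun σ _ => by
        have h1 : ‖Equiv.Perm.sign σ • ∏ i, (M : Matrix (Fin m) (Fin m) ℂ) (σ i) i‖ = ‖∏ i, M (σ i) i‖ := by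
          rcases Int.units_eq_one_or (Equiv.Perm.sign σ) with h | h
          · rw [h, one_smul]
          · rw [h, Units.neg_smul, one_smul, norm_neg]
        rw [h1, norm_prod, ← Equiv.prod_comp σ fun i => ‖M i‖]
        exact Finset.prod_le_prod (fun i _ => norm_nonneg _) fun i _ => norm_le_pi_norm (M (σ i)) i
    _ = (m.factorial : ℝ) * ∏ i, ‖M i‖ := by
        rw [Finset.sum_const, Finset.card_univ, Fintype.card_perm, Fintype.card_fin, nsmul_eq_mul]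

theorem det_lip (x y : Matrix (Fin m) (Fin m) ℂ) {R : ℝ} (hx : nm x ≤ R) (hy : nm y ≤ R) :
    |‖x.det‖ - ‖y.det‖| ≤ (m.factorial : ℝ) * m * R ^ (m - 1) * nm (x - y) := by
  have h1 := MultilinearMap.norm_image_sub_le_of_bound (Matrix.detRowAlternating (R := ℂ) (n := Fin m)).toMultilinearMap
    (C := (m.factorial : ℝ)) (by positivity) norm_det_le x y
  rw [Fintype.card_fin] at h1
  have h2 : ‖x.det - y.det‖ ≤ (m.factorial : ℝ) * m * max (nm x) (nm y) ^ (m - 1) * nm (x - y) := h1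
  refine (abs_norm_sub_norm_le _ _).trans (h2.trans ?_)
  have h3 : max (nm x) (nm y) ^ (m - 1) ≤ R ^ (m - 1) := pow_le_pow_left₀ (le_max_of_le_left (nm_nonneg x)) (max_le hx hy) _
  have h4 := nm_nonneg (x - y)
  gcongr

/-- the distance from `1` -/
noncomputable def ln (h : Sh s) : ℝ := nm (mat h - 1)

theorem ln_nonneg (h : Sh s) : 0 ≤ ln h := nm_nonneg _

theorem ln_one : ln (1 : Sh s) = 0 := by
  unfold ln nm
  rw [mat_one, sub_self]
  exact norm_zero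

theorem continuous_ln : Continuous (ln : Sh s → ℝ) := continuous_nm.comp (continuous_mat.sub continuous_const)

theorem nm_le_ln (h : Sh s) : nm (mat h) ≤ ln h + 1 := by
  have h1 := nm_add (mat h - 1) 1
  rw [sub_add_cancel] at h1
  exact h1.trans (add_le_add le_rfl nm_one_le)

theorem ln_inv_mul (k g : Sh s) : ln (k⁻¹ * g) ≤ m * nm (mat k⁻¹) * nm (mat g - mat k) := by
  have h1 : mat (k⁻¹ * g) - 1 = mat k⁻¹ * (mat g - mat k) := by
    rw [mat_mul, mul_sub, mat_inv_mul]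
  unfold ln
  rw [h1]
  exact nm_mul _ _

theorem ln_mul_inv (k g : Sh s) : ln (g * k⁻¹) ≤ m * nm (mat k⁻¹) * nm (mat g - mat k) := by
  have h1 : mat (g * k⁻¹) - 1 = (mat g - mat k) * mat k⁻¹ := by
    rw [mat_mul, sub_mul, mat_mul_inv]
  unfold ln
  rw [h1]
  calc _ ≤ m * nm (mat g - mat k) * nm (mat k⁻¹) := nm_mul _ _
    _ = _ := by ring

theorem ln_conj (g h : Sh s) : ln (g * h * g⁻¹) ≤ m ^ 2 * nm (mat g) * nm (mat g⁻¹) * ln h := by
  have h1 : mat (g * h * g⁻¹) - 1 = mat g * (mat h - 1) * mat g⁻¹ := by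
    rw [mat_mul, mat_mul, mul_sub, sub_mul, mul_one, mat_mul_inv]
  unfold ln
  rw [h1]
  have h2 := nm_mul (mat g * (mat h - 1)) (mat g⁻¹)
  have h3 := nm_mul (mat g) (mat h - 1)
  have h4 := nm_nonneg (mat g⁻¹)
  calc nm (mat g * (mat h - 1) * mat g⁻¹) ≤ m * nm (mat g * (mat h - 1)) * nm (mat g⁻¹) := h2
    _ ≤ m * (m * nm (mat g) * nm (mat h - 1)) * nm (mat g⁻¹) := by gcongr
    _ = _ := by ring

theorem ln_mul (g h : Sh s) : ln (g * h) ≤ ln g + m * (ln g + 1) * ln h := by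
  have h1 : mat (g * h) - 1 = (mat g - 1) + mat g * (mat h - 1) := by
    rw [mat_mul, mul_sub, mul_one]
    abel
  have h2 : ln (g * h) ≤ ln g + nm (mat g * (mat h - 1)) := by
    unfold ln
    rw [h1]
    exact nm_add _ _
  have h3 : nm (mat g * (mat h - 1)) ≤ m * nm (mat g) * ln h := nm_mul (mat g) (mat h - 1)
  have h4 := nm_le_ln g
  have h5 := ln_nonneg h
  calc ln (g * h) ≤ ln g + m * nm (mat g) * ln h := by linarith
    _ ≤ _ := by gcongr

theorem ln_inv (h : Sh s) : ln h⁻¹ ≤ m * nm (mat h⁻¹) * ln h := by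
  have h1 := ln_inv_mul h 1
  rwa [mul_one, mat_one, nm_sub_comm] at h1

/-- the identity -/
def toM (X : Fin m → Fin m → ℂ) : Matrix (Fin m) (Fin m) ℂ := X

/-- **Nets.** -/
theorem exists_net_Sh (hm : m ≠ 0) {B : Set (Sh s)} (hB : IsCompact B) : ∃ C : ℝ, 0 < C ∧ ∀ δ : ℝ, 0 < δ → δ ≤ 1 →
    ∃ P : Finset (Sh s), (P.card : ℝ) ≤ C * δ⁻¹ ^ (Module.finrank ℝ s.fx - 1) ∧ (∀ k ∈ P, k ∈ B) ∧ ∀ g ∈ B, ∃ k ∈ P,
      ln (k⁻¹ * g) ≤ δ ∧ ln (g * k⁻¹) ≤ δ ∧ ln (g⁻¹ * k) ≤ δ ∧ ln (k * g⁻¹) ≤ δ := by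
  obtain ⟨R0, hR0⟩ := (hB.image (continuous_nm.comp continuous_mat)).bddAbove
  obtain ⟨R2, hR2⟩ := (hB.image (continuous_nm.comp (continuous_mat.comp continuous_inv))).bddAbove
  obtain ⟨R, hR1, hR, hRi⟩ : ∃ R : ℝ, 1 ≤ R ∧ (∀ g ∈ B, nm (mat g) ≤ R) ∧ ∀ g ∈ B, nm (mat g⁻¹) ≤ R :=
    ⟨max (max R0 R2) 1, le_max_right _ _,
      fun g hg => (hR0 ⟨g, hg, rfl⟩).trans ((le_max_left _ _).trans (le_max_left _ _)),
      fun g hg => (hR2 ⟨g, hg, rfl⟩).trans ((le_max_right _ _).trans (le_max_left _ _))⟩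
  let N : s.fx → ℝ := fun M => ‖(toM (M : Fin m → Fin m → ℂ)).det‖
  have hN : ∀ r : ℝ, 0 ≤ r → ∀ x : s.fx, N (r • x) = r ^ m * N x := by
    intro r hr x
    have h1 : toM ((r • x : s.fx) : Fin m → Fin m → ℂ) = (r : ℂ) • toM (x : Fin m → Fin m → ℂ) := rfl
    show ‖(toM ((r • x : s.fx) : Fin m → Fin m → ℂ)).det‖ = r ^ m * ‖(toM (x : Fin m → Fin m → ℂ)).det‖
    rw [h1, det_smul, norm_mul, norm_pow, Complex.norm_real, Real.norm_of_nonneg hr, Fintype.card_fin]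
  have hL : ∀ x y : s.fx, ‖x‖ ≤ 2 * R → ‖y‖ ≤ 2 * R →
      |N x - N y| ≤ ((m.factorial : ℝ) * m * (2 * R) ^ (m - 1)) * ‖x - y‖ := by
    intro x y hx hy
    exact det_lip _ _ hx hy
  obtain ⟨C, hC0, hC⟩ := FP.exists_net (E := s.fx) (fun g : Sh s => (⟨(mat g : Matrix (Fin m) (Fin m) ℂ), sig_mat g⟩ : s.fx)) N
    (n := m) hm hN hL B (fun g hg => ⟨hR g hg, norm_det g⟩)
  have hmp : (0 : ℝ) < m := by exact_mod_cast Nat.pos_of_ne_zero hm
  have hm1 : (1 : ℝ) ≤ m := by exact_mod_cast Nat.pos_of_ne_zero hm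
  refine ⟨C * (m * R) ^ (Module.finrank ℝ s.fx - 1), by positivity, ?_⟩
  intro δ hδ hδ1
  have hRp : 0 < R := by linarith
  have hmR : 1 ≤ m * R := by nlinarith
  obtain ⟨P, hP1, hP2, hP3⟩ := hC (δ / (m * R)) (by positivity) ((div_le_one (by linarith)).2 (by linarith))
  refine ⟨P, ?_, hP2, ?_⟩
  · calc (P.card : ℝ) ≤ C * (δ / (m * R))⁻¹ ^ (Module.finrank ℝ s.fx - 1) := hP1
      _ = C * (m * R) ^ (Module.finrank ℝ s.fx - 1) * δ⁻¹ ^ (Module.finrank ℝ s.fx - 1) := by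
          rw [inv_div, div_eq_mul_inv, mul_pow]
          ring
  · intro g hg
    obtain ⟨k, hk, hkg⟩ := hP3 g hg
    have h1 : nm (mat g - mat k) ≤ δ / (m * R) := hkg.le
    have h2 := hRi g hg
    have h3 := hRi k (hP2 k hk)
    have key : ∀ a b : Sh s, nm (mat a⁻¹) ≤ R → nm (mat b - mat a) ≤ δ / (m * R) →
        m * nm (mat a⁻¹) * nm (mat b - mat a) ≤ δ := by
      intro a b ha hb
      calc m * nm (mat a⁻¹) * nm (mat b - mat a) ≤ m * R * (δ / (m * R)) := by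
            have := nm_nonneg (mat a⁻¹)
            have := nm_nonneg (mat b - mat a)
            gcongr
        _ = δ := by field_simp
    have h4 : nm (mat k - mat g) ≤ δ / (m * R) := by rwa [nm_sub_comm]
    exact ⟨k, hk, (ln_inv_mul k g).trans (key k g h3 h1), (ln_mul_inv k g).trans (key k g h3 h1),
      (ln_inv_mul g k).trans (key g k h2 h4), (ln_mul_inv g k).trans (key g k h2 h4)⟩

end Pool.Agent.Helper9.Lin
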