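import Pool.Agent.Helper9.FP.Lin2
import Pool.Agent.Helper9.FP.Uni

/-!
# Project TZ (MP_0f6f3f_an): `Shat σ` is unimodular

`θ h = (hᴴ)⁻¹`, polar decomposition.
-/

set_option autoImplicit false

open Filter Topology MeasureTheory Matrix
open scoped ENNReal

namespace Pool.Agent.Helper9.Lin

variable {m : ℕ} {s : Sig m}

/-- `θ h = (hᴴ)⁻¹` -/
noncomputable def thM (h : Sh s) : Sh s := mkS ((mat h⁻¹)ᴴ) ⟨by rw [s.star, sig_mat], by
  rw [det_conjTranspose, norm_star, norm_det]⟩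

theorem mat_thM (h : Sh s) : mat (thM h) = (mat h⁻¹)ᴴ := mat_mkS _ _

theorem mat_inv_eq {h : Sh s} {X : Matrix (Fin m) (Fin m) ℂ} (hX : X * mat h = 1) : mat h⁻¹ = X := by
  calc mat h⁻¹ = X * mat h * mat h⁻¹ := by rw [hX, one_mul]
    _ = X := by rw [mul_assoc, mat_mul_inv, mul_one]

theorem mat_thM_inv (h : Sh s) : mat (thM h)⁻¹ = (mat h)ᴴ := by
  refine mat_inv_eq ?_
  rw [mat_thM, ← conjTranspose_mul, mat_inv_mul, conjTranspose_one]

/-- `θ` as an automorphism -/
noncomputable def th (s : Sig m) : Sh s ≃* Sh s where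
  toFun := thM
  invFun := thM
  left_inv h := mat_injective (by rw [mat_thM, mat_thM_inv, conjTranspose_conjTranspose])
  right_inv h := mat_injective (by rw [mat_thM, mat_thM_inv, conjTranspose_conjTranspose])
  map_mul' g h := mat_injective (by rw [mat_thM, _root_.mul_inv_rev, mat_mul, conjTranspose_mul, mat_mul, mat_thM, mat_thM])

theorem th_apply (h : Sh s) : th s h = thM h := rfl

theorem continuous_thM : Continuous (thM : Sh s → Sh s) := by
  rw [isClosedEmbedding_mat.isInducing.continuous_iff]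
  have h1 : Continuous fun h : Sh s => (mat h⁻¹)ᴴ := (continuous_mat.comp continuous_inv).matrix_conjTranspose
  exact h1.congr fun h => (mat_thM h).symm

theorem mem_Kc' {h : Sh s} : h ∈ Kc s ↔ (mat h)ᴴ * mat h = 1 := by
  rw [mem_Kc]
  exact mul_eq_one_comm

open scoped MatrixOrder ComplexOrder in
/-- **Polar decomposition.** -/
theorem polar (h : Sh s) : ∃ k ∈ Kc s, ∃ p : Sh s, h = k * p ∧ (mat p).PosSemidef ∧ mat p * mat p = (mat h)ᴴ * mat h ∧
    thM p = p⁻¹ := by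
  have hq : (0 : Matrix (Fin m) (Fin m) ℂ) ≤ (mat h)ᴴ * mat h := (posSemidef_conjTranspose_mul_self (mat h)).nonneg
  obtain ⟨p, hp⟩ : ∃ p, p = CFC.sqrt ((mat h)ᴴ * mat h) := ⟨_, rfl⟩
  have hp0 : 0 ≤ p := by
    rw [hp]
    exact CFC.sqrt_nonneg _
  have hpp : p * p = (mat h)ᴴ * mat h := by
    rw [hp]
    exact CFC.sqrt_mul_sqrt_self _ hq
  have hps : p.PosSemidef := hp0.posSemidef
  obtain ⟨r, hr⟩ : ∃ r, r = CFC.sqrt p := ⟨_, rfl⟩
  have hr0 : 0 ≤ r := by
    rw [hr]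
    exact CFC.sqrt_nonneg _
  have hrr : r * r = p := by
    rw [hr]
    exact CFC.sqrt_mul_sqrt_self _ hp0
  have hrh : rᴴ = r := hr0.posSemidef.isHermitian
  have hσr : (s.f r)ᴴ = s.f r := by rw [← s.star, hrh]
  have hσp0 : 0 ≤ s.f p := by
    have h1 : s.f p = (s.f r)ᴴ * s.f r := by rw [hσr, ← s.mul, hrr]
    rw [h1]
    exact (posSemidef_conjTranspose_mul_self _).nonneg
  have hσq : s.f p * s.f p = (mat h)ᴴ * mat h := by
    rw [← s.mul, hpp, s.mul, s.star, sig_mat]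
  have hσp : s.f p = p := by
    have h1 := CFC.sqrt_unique hσq hσp0
    rw [← h1, hp]
  have hdet : ‖p.det‖ = 1 := by
    have h1 := congrArg (fun X : Matrix (Fin m) (Fin m) ℂ => ‖X.det‖) hpp
    simp only [det_mul, norm_mul, det_conjTranspose, norm_star, norm_det, mul_one] at h1
    nlinarith [norm_nonneg p.det]
  let P : Sh s := mkS p ⟨hσp, hdet⟩
  have hP : mat P = p := mat_mkS _ _
  have hPi : (mat P⁻¹)ᴴ = mat P⁻¹ := by
    refine (mat_inv_eq ?_).symm
    have h1 : (mat P)ᴴ = mat P := by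
      rw [hP]
      exact hps.isHermitian
    calc (mat P⁻¹)ᴴ * mat P = (mat P⁻¹)ᴴ * (mat P)ᴴ := by rw [h1]
      _ = 1 := by rw [← conjTranspose_mul, mat_mul_inv, conjTranspose_one]
  refine ⟨h * P⁻¹, ?_, P, by rw [inv_mul_cancel_right], by rw [hP]; exact hps, by rw [hP, hpp], ?_⟩
  · rw [mem_Kc', mat_mul, conjTranspose_mul, hPi, mul_assoc, ← mul_assoc _ (mat h), ← hpp, ← hP, mul_assoc, mat_mul_inv,
      mul_one, mat_inv_mul]
  · apply mat_injective
    rw [mat_thM, hPi]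

/-- **`Sh s` is unimodular.** -/
instance isMulRightInvariant (μ : Measure (Sh s)) [μ.IsHaarMeasure] : μ.IsMulRightInvariant :=
  unimodular_of (th s) continuous_thM continuous_thM isCompact_Kc (fun g => by
    obtain ⟨k, hk, p, h1, -, -, h2⟩ := polar g
    exact ⟨k, hk, p, h1, h2⟩) μ

end Pool.Agent.Helper9.Lin
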