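import Pool.Agent.Helper9.FP.Lin3

/-!
# Project TZ (MP_0f6f3f_an): the group `SQ σ = Shat σ / scalars`

Locally compact, second countable, Hausdorff, unimodular; `lnq` is the distance from the scalars; nets of dimension `D - 1`, volumes of small balls.
-/

set_option autoImplicit false

open Filter Topology MeasureTheory Matrix
open scoped ENNReal

namespace Pool.Agent.Helper9.Lin

variable {m : ℕ} {s : Sig m}

theorem mem_Zc_iff {z : Sh s} : z ∈ Zc s ↔ (∀ i j, i ≠ j → mat z i j = 0) ∧ ∀ i j, mat z i i = mat z j j := by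
  constructor
  · rintro ⟨c, hc⟩
    rw [hc]
    refine ⟨fun i j hij => ?_, fun i j => ?_⟩
    · rw [Matrix.smul_apply, one_apply_ne hij, smul_zero]
    · rw [Matrix.smul_apply, Matrix.smul_apply, one_apply_eq, one_apply_eq]
  · rintro ⟨h1, h2⟩
    rcases isEmpty_or_nonempty (Fin m) with h | ⟨⟨i0⟩⟩
    · exact ⟨1, by
        ext i
        exact h.elim i⟩
    · refine ⟨mat z i0 i0, ?_⟩
      ext i j
      rw [Matrix.smul_apply, one_apply]
      split_ifs with hij
      · rw [← hij, h2 i i0, smul_eq_mul, mul_one]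
      · rw [h1 i j hij, smul_zero]

theorem isClosed_Zc : IsClosed (Zc s : Set (Sh s)) := by
  have hc : ∀ i j, Continuous fun z : Sh s => mat z i j := fun i j => continuous_mat.matrix_elem i j
  have h2 : IsClosed (⋂ i, ⋂ j, ⋂ _ : i ≠ j, {z : Sh s | mat z i j = 0}) :=
    isClosed_iInter fun i => isClosed_iInter fun j => isClosed_iInter fun _ => isClosed_eq (hc i j) continuous_const
  have h3 : IsClosed (⋂ i, ⋂ j, {z : Sh s | mat z i i = mat z j j}) :=
    isClosed_iInter fun i => isClosed_iInter fun j => isClosed_eq (hc i i) (hc j j)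
  have h1 : (Zc s : Set (Sh s)) = (⋂ i, ⋂ j, ⋂ _ : i ≠ j, {z : Sh s | mat z i j = 0}) ∩
      ⋂ i, ⋂ j, {z : Sh s | mat z i i = mat z j j} := by
    ext z
    rw [SetLike.mem_coe, mem_Zc_iff]
    simp
  rw [h1]
  exact h2.inter h3

theorem Zc_le_Kc : Zc s ≤ Kc s := by
  rintro z ⟨c, hc⟩
  rw [mem_Kc]
  rcases Nat.eq_zero_or_pos m with h | h
  · subst h
    exact Subsingleton.elim _ _
  · have h1 := norm_det z
    rw [hc, det_smul, det_one, mul_one, Fintype.card_fin, norm_pow] at h1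
    have h2 : ‖c‖ = 1 := (pow_eq_one_iff_of_nonneg (norm_nonneg _) h.ne').1 h1
    rw [hc, conjTranspose_smul, conjTranspose_one, smul_mul_smul_comm, mul_one, Complex.star_def, Complex.mul_conj,
      Complex.normSq_eq_norm_sq, h2]
    simp

theorem isCompact_Zc : IsCompact (Zc s : Set (Sh s)) := isCompact_Kc.of_isClosed_subset isClosed_Zc Zc_le_Kc

instance : IsClosed (Zc s : Set (Sh s)) := isClosed_Zc

variable (s)

/-- **The group `Shat σ / scalars`.** -/
abbrev SQ : Type := Sh s ⧸ Zc s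

instance : BorelSpace (SQ s) := QuotientGroup.borelSpace

/-- the projection -/
noncomputable abbrev pq : Sh s →* SQ s := QuotientGroup.mk' (Zc s)

variable {s}

theorem continuous_pq : Continuous (pq s) := continuous_quotient_mk'

theorem pq_surj : Function.Surjective (pq s) := QuotientGroup.mk'_surjective _

theorem isOpenMap_pq : IsOpenMap (pq s) := QuotientGroup.isOpenMap_coe

theorem isProperMap_pq : IsProperMap (pq s) := by
  rw [isProperMap_iff_isClosedMap_and_compact_fibers]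
  refine ⟨continuous_pq, QuotientGroup.isClosedMap_coe isCompact_Zc, fun y => ?_⟩
  obtain ⟨g, rfl⟩ := pq_surj y
  have h1 : (pq s) ⁻¹' {pq s g} = (fun z => g * z) '' (Zc s : Set (Sh s)) := by
    ext h
    constructor
    · intro hh
      have h2 : pq s h = pq s g := hh
      refine ⟨g⁻¹ * h, ?_, by simp⟩
      exact QuotientGroup.eq.1 h2.symm
    · rintro ⟨z, hz, rfl⟩
      show pq s (g * z) = pq s g
      exact (QuotientGroup.eq.2 (by simpa using hz)).symm
  rw [h1]
  exact isCompact_Zc.image (continuous_const.mul continuous_id)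

theorem tendsto_pq : Tendsto (pq s) (cocompact (Sh s)) (cocompact (SQ s)) :=
  (isProperMap_iff_tendsto_cocompact.1 isProperMap_pq).2

/-- The push forward of a Haar measure is a Haar measure. -/
theorem isHaar_map (μ : Measure (Sh s)) [μ.IsHaarMeasure] : (Measure.map (pq s) μ).IsHaarMeasure :=
  Measure.isHaarMeasure_map μ (pq s) continuous_pq pq_surj tendsto_pq

/-- **`SQ s` is unimodular.** -/
instance isMulRightInvariant_SQ (ν : Measure (SQ s)) [ν.IsHaarMeasure] : ν.IsMulRightInvariant := by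
  let μ : Measure (Sh s) := Measure.haar
  have h0 := isHaar_map μ
  have h1 : ν = ν.haarScalarFactor (Measure.map (pq s) μ) • Measure.map (pq s) μ := Measure.isMulLeftInvariant_eq_smul _ _
  have h2 : (Measure.map (pq s) μ).IsMulRightInvariant := by
    constructor
    intro g
    obtain ⟨g, rfl⟩ := pq_surj g
    have hm : Measurable fun x : SQ s => x * pq s g := (continuous_id.mul continuous_const).measurable
    have hm' : Measurable fun x : Sh s => x * g := (continuous_id.mul continuous_const).measurable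
    rw [Measure.map_map hm continuous_pq.measurable]
    have h3 : (fun x : SQ s => x * pq s g) ∘ (pq s) = (pq s) ∘ fun x : Sh s => x * g := by
      funext x
      exact (map_mul (pq s) x g).symm
    rw [h3, ← Measure.map_map continuous_pq.measurable hm', map_mul_right_eq_self]
  constructor
  intro g
  rw [h1, Measure.map_smul, map_mul_right_eq_self]

/-- the image of the unitary matrices -/
noncomputable def Kq (s : Sig m) : Subgroup (SQ s) := (Kc s).map (pq s)

theorem isCompact_Kq : IsCompact (Kq s : Set (SQ s)) := isCompact_Kc.image continuous_pq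

theorem pq_mem_Kq {h : Sh s} : pq s h ∈ Kq s ↔ h ∈ Kc s := by
  constructor
  · rintro ⟨k, hk, hkh⟩
    have h1 : k⁻¹ * h ∈ Zc s := QuotientGroup.eq.1 hkh
    have h2 := (Kc s).mul_mem hk (Zc_le_Kc h1)
    rwa [mul_inv_cancel_left] at h2
  · intro hh
    exact ⟨h, hh, rfl⟩

/-- the distance from the scalars -/
noncomputable def lnq (x : SQ s) : ℝ := sInf {r | ∃ h : Sh s, pq s h = x ∧ ln h = r}

theorem exists_min (x : SQ s) : ∃ h : Sh s, pq s h = x ∧ ln h = lnq x ∧ ∀ h', pq s h' = x → lnq x ≤ ln h' := by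
  have h1 : IsCompact ((pq s) ⁻¹' {x}) := isProperMap_pq.isCompact_preimage isCompact_singleton
  obtain ⟨g, hg⟩ := pq_surj x
  obtain ⟨h, hh, hmin⟩ := h1.exists_isMinOn ⟨g, hg⟩ continuous_ln.continuousOn
  have hlb : ∀ r ∈ {r | ∃ h : Sh s, pq s h = x ∧ ln h = r}, ln h ≤ r := by
    rintro r ⟨h', hh', rfl⟩
    exact hmin hh'
  have h2 : lnq x = ln h := IsLeast.csInf_eq ⟨⟨h, hh, rfl⟩, hlb⟩
  refine ⟨h, hh, h2.symm, fun h' hh' => ?_⟩
  rw [h2]
  exact hmin hh'

theorem lnq_le (h : Sh s) : lnq (pq s h) ≤ ln h := by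
  obtain ⟨-, -, -, h1⟩ := exists_min (pq s h)
  exact h1 h rfl

theorem lnq_nonneg (x : SQ s) : 0 ≤ lnq x := by
  obtain ⟨h, -, h1, -⟩ := exists_min x
  rw [← h1]
  exact ln_nonneg h

theorem lnq_one : lnq (1 : SQ s) = 0 := by
  refine le_antisymm ?_ (lnq_nonneg _)
  have := lnq_le (1 : Sh s)
  rwa [map_one, ln_one] at this

theorem eq_one_of_lnq {x : SQ s} (hx : lnq x = 0) : x = 1 := by
  obtain ⟨h, h1, h2, -⟩ := exists_min x
  rw [hx] at h2
  have h3 : h = 1 := by
    apply mat_injective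
    rw [mat_one]
    exact sub_eq_zero.1 (nm_eq_zero h2)
  rw [← h1, h3, map_one]

theorem lnq_ball (R : ℝ) : {x : SQ s | lnq x ≤ R} = (pq s) '' {h | ln h ≤ R} := by
  ext x
  constructor
  · intro hx
    obtain ⟨h, h1, h2, -⟩ := exists_min x
    refine ⟨h, ?_, h1⟩
    show ln h ≤ R
    rw [h2]
    exact hx
  · rintro ⟨h, hh, rfl⟩
    exact (lnq_le h).trans hh

theorem isCompact_ln (R : ℝ) : IsCompact {h : Sh s | ln h ≤ R} := by
  refine (isCompact_nm (R + 1)).of_isClosed_subset (isClosed_le continuous_ln continuous_const) fun h hh => ?_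
  have h1 : ln h ≤ R := hh
  exact (nm_le_ln h).trans (by linarith)

theorem isCompact_lnq (R : ℝ) : IsCompact {x : SQ s | lnq x ≤ R} := by
  rw [lnq_ball]
  exact (isCompact_ln R).image continuous_pq

theorem continuous_lnq : Continuous (lnq : SQ s → ℝ) := by
  rw [continuous_iff_lower_upperSemicontinuous]
  constructor
  · rw [lowerSemicontinuous_iff_isClosed_preimage]
    intro R
    exact (isCompact_lnq R).isClosed
  · rw [upperSemicontinuous_iff_isOpen_preimage]
    intro R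
    have h1 : lnq ⁻¹' Set.Iio R = (pq s) '' {h | ln h < R} := by
      ext x
      constructor
      · intro hx
        obtain ⟨h, h1, h2, -⟩ := exists_min x
        refine ⟨h, ?_, h1⟩
        show ln h < R
        rw [h2]
        exact hx
      · rintro ⟨h, hh, rfl⟩
        exact lt_of_le_of_lt (lnq_le h) hh
    rw [h1]
    exact isOpenMap_pq _ (isOpen_lt continuous_ln continuous_const)

theorem lnq_mul (x y : SQ s) : lnq (x * y) ≤ lnq x + m * (lnq x + 1) * lnq y := by
  obtain ⟨g, g1, g2, -⟩ := exists_min x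
  obtain ⟨h, h1, h2, -⟩ := exists_min y
  have h3 := lnq_le (g * h)
  rw [map_mul, g1, h1] at h3
  rw [← g2, ← h2]
  exact h3.trans (ln_mul g h)

/-- the conjugation estimate -/
theorem lnq_conj {B : Set (SQ s)} (hB : IsCompact B) : ∃ C : ℝ, 0 < C ∧ ∀ g ∈ B, ∀ x : SQ s, lnq (g * x * g⁻¹) ≤ C * lnq x := by
  have hB' : IsCompact ((pq s) ⁻¹' B) := isProperMap_pq.isCompact_preimage hB
  obtain ⟨C, hC⟩ := (hB'.image (f := fun g : Sh s => (m : ℝ) ^ 2 * nm (mat g) * nm (mat g⁻¹))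
    ((continuous_const.mul (continuous_nm.comp continuous_mat)).mul
      (continuous_nm.comp (continuous_mat.comp continuous_inv)))).bddAbove
  refine ⟨max C 1, lt_max_of_lt_right one_pos, fun g hg x => ?_⟩
  obtain ⟨g, rfl⟩ := pq_surj g
  obtain ⟨h, h1, h2, -⟩ := exists_min x
  have h3 := lnq_le (g * h * g⁻¹)
  rw [map_mul, map_mul, map_inv, h1] at h3
  have h4 : (m : ℝ) ^ 2 * nm (mat g) * nm (mat g⁻¹) ≤ C := hC ⟨g, hg, rfl⟩
  rw [← h2]
  calc lnq (pq s g * x * (pq s g)⁻¹) ≤ ln (g * h * g⁻¹) := h3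
    _ ≤ (m : ℝ) ^ 2 * nm (mat g) * nm (mat g⁻¹) * ln h := ln_conj g h
    _ ≤ max C 1 * ln h := mul_le_mul_of_nonneg_right (h4.trans (le_max_left _ _)) (ln_nonneg h)

/-- the inverse -/
theorem lnq_inv {B : Set (SQ s)} (hB : IsCompact B) : ∃ C : ℝ, 0 < C ∧ ∀ x ∈ B, lnq x⁻¹ ≤ C * lnq x := by
  have hB' : IsCompact ((pq s) ⁻¹' B) := isProperMap_pq.isCompact_preimage hB
  obtain ⟨C, hC⟩ := (hB'.image (f := fun g : Sh s => (m : ℝ) * nm (mat g⁻¹))
    (continuous_const.mul (continuous_nm.comp (continuous_mat.comp continuous_inv)))).bddAbove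
  refine ⟨max C 1, lt_max_of_lt_right one_pos, fun x hx => ?_⟩
  obtain ⟨h, h1, h2, -⟩ := exists_min x
  have h3 := lnq_le h⁻¹
  rw [map_inv, h1] at h3
  have h4 : (m : ℝ) * nm (mat h⁻¹) ≤ C := hC ⟨h, by
    show pq s h ∈ B
    rw [h1]
    exact hx, rfl⟩
  rw [← h2]
  calc lnq x⁻¹ ≤ ln h⁻¹ := h3
    _ ≤ (m : ℝ) * nm (mat h⁻¹) * ln h := ln_inv h
    _ ≤ max C 1 * ln h := mul_le_mul_of_nonneg_right (h4.trans (le_max_left _ _)) (ln_nonneg h)

/-- **Nets.** -/
theorem exists_net_SQ (hm : m ≠ 0) {B : Set (SQ s)} (hB : IsCompact B) : ∃ C : ℝ, 0 < C ∧ ∀ δ : ℝ, 0 < δ → δ ≤ 1 →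
    ∃ P : Finset (SQ s), (P.card : ℝ) ≤ C * δ⁻¹ ^ (Module.finrank ℝ s.fx - 1) ∧ (∀ k ∈ P, k ∈ B) ∧ ∀ g ∈ B, ∃ k ∈ P,
      lnq (k⁻¹ * g) ≤ δ ∧ lnq (g * k⁻¹) ≤ δ ∧ lnq (g⁻¹ * k) ≤ δ ∧ lnq (k * g⁻¹) ≤ δ := by
  classical
  have hB' : IsCompact ((pq s) ⁻¹' B) := isProperMap_pq.isCompact_preimage hB
  obtain ⟨C, hC0, hC⟩ := exists_net_Sh hm hB'
  refine ⟨C, hC0, fun δ hδ hδ1 => ?_⟩
  obtain ⟨P, h1, h2, h3⟩ := hC δ hδ hδ1
  refine ⟨P.image (pq s), ?_, ?_, ?_⟩
  · refine le_trans ?_ h1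
    exact_mod_cast Finset.card_image_le
  · intro k hk
    obtain ⟨k, hk', rfl⟩ := Finset.mem_image.1 hk
    exact h2 k hk'
  · intro g hg
    obtain ⟨g, rfl⟩ := pq_surj g
    obtain ⟨k, hk, a1, a2, a3, a4⟩ := h3 g hg
    refine ⟨pq s k, Finset.mem_image_of_mem _ hk, ?_, ?_, ?_, ?_⟩
    · rw [← map_inv, ← map_mul]
      exact (lnq_le _).trans a1
    · rw [← map_inv, ← map_mul]
      exact (lnq_le _).trans a2
    · rw [← map_inv, ← map_mul]
      exact (lnq_le _).trans a3
    · rw [← map_inv, ← map_mul]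
      exact (lnq_le _).trans a4

/-- **Small balls.** -/
theorem exists_vol_SQ (hm : m ≠ 0) (ν : Measure (SQ s)) [ν.IsHaarMeasure] : ∃ c : ℝ, 0 < c ∧ ∀ r : ℝ, 0 < r → r ≤ 1 →
    ENNReal.ofReal (c * r ^ (Module.finrank ℝ s.fx - 1)) ≤ ν {h | lnq h ≤ r} := by
  obtain ⟨C, hC0, hC⟩ := exists_net_SQ (s := s) hm (isCompact_lnq 1)
  have hB1 : {x : SQ s | lnq x ≤ 1} ∈ 𝓝 (1 : SQ s) := by
    have h1 : lnq (1 : SQ s) < 1 := by
      rw [lnq_one]
      exact one_pos
    filter_upwards [continuous_lnq.continuousAt.eventually (gt_mem_nhds h1)] with x hx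
    exact le_of_lt hx
  refine vol_of_net ν lnq (isCompact_lnq 1) hB1 _ hC0 fun δ hδ hδ1 => ?_
  obtain ⟨P, h1, -, h3⟩ := hC δ hδ hδ1
  refine ⟨P, h1, fun g hg => ?_⟩
  obtain ⟨k, hk, a1, -⟩ := h3 g hg
  exact ⟨k, hk, a1⟩

end Pool.Agent.Helper9.Lin
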