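import Pool.Agent.Helper9.FP.S2Uni

/-!
# Project FP (MP_0f6f3f_an): `∫ |h|⁻⁴ dμ < ∞` on `SS`

The Haar measure of `B ⊆ SS` is proportional to the Lebesgue measure of the cone `{r h : 0 < r ≤ 1, h ∈ B}` in the `2 × 2` matrices; the cones
`{r h : r ≤ 2 ^ -(k + 1), 4 ^ k ≤ |h|² < 4 ^ (k + 1)}` are disjoint subsets of the unit ball.
-/

set_option autoImplicit false

open Filter Topology MeasureTheory Matrix
open scoped ENNReal

namespace Pool.Agent.Helper9.FP

/-- two columns -/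
abbrev Cols : Type := Fin 2 → Fin 2 → ℝ

/-- the matrix with the given columns -/
def cm (e : Cols) : Matrix (Fin 2) (Fin 2) ℝ := Matrix.of fun i j => e j i

/-- the determinant -/
def dd (e : Cols) : ℝ := e 0 0 * e 1 1 - e 1 0 * e 0 1

/-- the square of the norm -/
def n2 (e : Cols) : ℝ := e 0 0 ^ 2 + e 0 1 ^ 2 + e 1 0 ^ 2 + e 1 1 ^ 2

theorem det_cm (e : Cols) : (cm e).det = dd e := by
  rw [det_fin_two]
  rfl

theorem continuous_coord (i j : Fin 2) : Continuous fun e : Cols => e i j := (continuous_apply j).comp (continuous_apply i)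

theorem continuous_cm : Continuous cm := continuous_matrix fun i j => continuous_coord j i

theorem continuous_dd : Continuous dd :=
  ((continuous_coord 0 0).mul (continuous_coord 1 1)).sub ((continuous_coord 1 0).mul (continuous_coord 0 1))

theorem continuous_n2 : Continuous n2 :=
  ((((continuous_coord 0 0).pow 2).add ((continuous_coord 0 1).pow 2)).add ((continuous_coord 1 0).pow 2)).add
    ((continuous_coord 1 1).pow 2)

open Classical in
/-- a retraction -/
noncomputable def toSS (M : Matrix (Fin 2) (Fin 2) ℝ) : SS := if h : |M.det| = 1 then mkS M h else 1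

theorem mat_toSS {M : Matrix (Fin 2) (Fin 2) ℝ} (h : |M.det| = 1) : mat (toSS M) = M := by
  unfold toSS
  rw [dif_pos h, mat_mkS]

theorem continuousOn_toSS : ContinuousOn toSS {M | |M.det| = 1} := by
  rw [isClosedEmbedding_mat.isInducing.continuousOn_iff]
  exact continuousOn_id.congr fun M hM => mat_toSS hM

/-- the projection to `SS` -/
noncomputable def pr (e : Cols) : SS := toSS ((√|dd e|)⁻¹ • cm e)

theorem sq_inv_sqrt (e : Cols) : (√|dd e|)⁻¹ ^ 2 = |dd e|⁻¹ := by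
  rw [inv_pow, Real.sq_sqrt (abs_nonneg _)]

theorem abs_det_smul {e : Cols} (he : dd e ≠ 0) : |((√|dd e|)⁻¹ • cm e).det| = 1 := by
  rw [det_smul, Fintype.card_fin, sq_inv_sqrt, det_cm, abs_mul, abs_inv, abs_abs]
  exact inv_mul_cancel₀ (abs_ne_zero.2 he)

theorem mat_pr {e : Cols} (he : dd e ≠ 0) : mat (pr e) = (√|dd e|)⁻¹ • cm e := mat_toSS (abs_det_smul he)

theorem continuousOn_pr : ContinuousOn pr {e | dd e ≠ 0} := by
  have h0 : ContinuousOn (fun e : Cols => (√|dd e|)⁻¹) {e | dd e ≠ 0} := by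
    refine ContinuousOn.inv₀ ((Real.continuous_sqrt.comp (continuous_abs.comp continuous_dd)).continuousOn) fun e he => ?_
    exact (Real.sqrt_pos.2 (abs_pos.2 he)).ne'
  have h1 : ContinuousOn (fun e : Cols => (√|dd e|)⁻¹ • cm e) {e | dd e ≠ 0} := h0.smul continuous_cm.continuousOn
  exact continuousOn_toSS.comp h1 fun e he => abs_det_smul he

theorem measurable_pr : Measurable pr := by
  classical
  have h1 : Measurable (({e : Cols | dd e ≠ 0}).piecewise pr fun _ => 1) :=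
    ContinuousOn.measurable_piecewise continuousOn_pr continuousOn_const
      (isOpen_ne.preimage continuous_dd).measurableSet
  convert! h1 using 1
  funext e
  by_cases he : dd e = 0
  · rw [Set.piecewise_eq_of_notMem _ _ _ (by simpa using he)]
    unfold pr toSS
    rw [dif_neg]
    rw [he]
    simp
  · rw [Set.piecewise_eq_of_mem _ _ _ (by simpa using he)]

theorem nq_pr {e : Cols} (he : dd e ≠ 0) : nq (pr e) = |dd e|⁻¹ * n2 e := by
  unfold nq n2
  rw [mat_pr he]
  simp only [Matrix.smul_apply, smul_eq_mul, mul_pow, sq_inv_sqrt]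
  show |dd e|⁻¹ * e 0 0 ^ 2 + |dd e|⁻¹ * e 1 0 ^ 2 + |dd e|⁻¹ * e 0 1 ^ 2 + |dd e|⁻¹ * e 1 1 ^ 2 = _
  ring

theorem n2_eq {e : Cols} (he : dd e ≠ 0) : n2 e = |dd e| * nq (pr e) := by
  rw [nq_pr he, ← mul_assoc, mul_inv_cancel₀ (abs_ne_zero.2 he), one_mul]

/-- left multiplication -/
def Lm (g : SS) (e : Cols) : Cols := fun j => (mat g).mulVec (e j)

theorem cm_Lm (g : SS) (e : Cols) : cm (Lm g e) = mat g * cm e := by
  ext i j
  rfl

theorem dd_Lm (g : SS) (e : Cols) : dd (Lm g e) = (mat g).det * dd e := by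
  rw [← det_cm, cm_Lm, det_mul, det_cm]

theorem abs_dd_Lm (g : SS) (e : Cols) : |dd (Lm g e)| = |dd e| := by
  rw [dd_Lm, abs_mul, abs_det, one_mul]

theorem dd_Lm_ne (g : SS) (e : Cols) : dd (Lm g e) ≠ 0 ↔ dd e ≠ 0 := by
  rw [← abs_ne_zero, abs_dd_Lm, abs_ne_zero]

theorem pr_Lm (g : SS) {e : Cols} (he : dd e ≠ 0) : pr (Lm g e) = g * pr e := by
  apply mat_injective
  rw [mat_pr ((dd_Lm_ne g e).2 he), mat_mul, mat_pr he, abs_dd_Lm, cm_Lm, mul_smul_comm]

theorem measurePreserving_Lm (g : SS) : MeasurePreserving (Lm g) volume volume := by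
  have h1 : MeasurePreserving (fun v : Fin 2 → ℝ => (mat g).mulVec v) volume volume := by
    refine ⟨(Continuous.matrix_mulVec continuous_const continuous_id).measurable, ?_⟩
    have h2 := Real.map_matrix_volume_pi_eq_smul_volume_pi (det_ne g)
    rw [abs_inv, abs_det, inv_one, ENNReal.ofReal_one, one_smul] at h2
    exact h2
  exact volume_preserving_pi fun _ => h1

/-- the cone over `SS` -/
def C1 : Set Cols := {e | dd e ≠ 0 ∧ |dd e| ≤ 1}

theorem measurableSet_C1 : MeasurableSet C1 :=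
  (isOpen_ne.preimage continuous_dd).measurableSet.inter
    (isClosed_le (continuous_abs.comp continuous_dd) continuous_const).measurableSet

/-- a left invariant measure on `SS` -/
noncomputable def nu : Measure SS := (volume.restrict C1).map pr

theorem nu_apply {B : Set SS} (hB : MeasurableSet B) : nu B = volume (pr ⁻¹' B ∩ C1) := by
  unfold nu
  rw [Measure.map_apply measurable_pr hB, Measure.restrict_apply (measurable_pr hB)]

instance : nu.IsMulLeftInvariant := by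
  constructor
  intro g
  refine Measure.ext fun B hB => ?_
  have hm : Measurable fun h : SS => g * h := (continuous_const.mul continuous_id).measurable
  rw [Measure.map_apply hm hB, nu_apply (hm hB), nu_apply hB,
    ← (measurePreserving_Lm g).measure_preimage ((measurable_pr hB).inter measurableSet_C1).nullMeasurableSet]
  congr 1
  ext e
  constructor
  · rintro ⟨h1, h2, h3⟩
    refine ⟨?_, (dd_Lm_ne g e).2 h2, ?_⟩
    · show pr (Lm g e) ∈ B
      rw [pr_Lm g h2]
      exact h1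
    · rw [abs_dd_Lm]
      exact h3
  · rintro ⟨h1, h2, h3⟩
    have h4 := (dd_Lm_ne g e).1 h2
    refine ⟨?_, h4, ?_⟩
    · have h5 : pr (Lm g e) ∈ B := h1
      rw [pr_Lm g h4] at h5
      exact h5
    · rw [abs_dd_Lm] at h3
      exact h3

theorem isCompact_n2 (R : ℝ) : IsCompact {e : Cols | n2 e ≤ R} := by
  have h2 : IsCompact (Set.univ.pi fun _ : Fin 2 => (Set.univ.pi fun _ : Fin 2 => Set.Icc (-(R + 1)) (R + 1)) :
      Set (Fin 2 → Fin 2 → ℝ)) :=
    isCompact_univ_pi fun _ => isCompact_univ_pi fun _ => isCompact_Icc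
  refine IsCompact.of_isClosed_subset h2 (isClosed_le continuous_n2 continuous_const) ?_
  intro M hM i _ j _
  have hM' : M 0 0 ^ 2 + M 0 1 ^ 2 + M 1 0 ^ 2 + M 1 1 ^ 2 ≤ R := hM
  have h3 : M i j ^ 2 ≤ R := by
    fin_cases i <;> fin_cases j <;> simp <;>
      nlinarith [sq_nonneg (M 0 0), sq_nonneg (M 0 1), sq_nonneg (M 1 0), sq_nonneg (M 1 1)]
  rw [Set.mem_Icc]
  constructor <;> nlinarith [sq_nonneg (M i j + 1), sq_nonneg (M i j - 1)]

instance : IsFiniteMeasureOnCompacts nu := by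
  constructor
  intro K hK
  obtain ⟨R, hR⟩ := (hK.image continuous_nq).bddAbove
  rw [nu_apply hK.measurableSet]
  refine lt_of_le_of_lt (measure_mono ?_) (isCompact_n2 |R|).measure_lt_top
  rintro e ⟨h1, h2, h3⟩
  have h4 : nq (pr e) ≤ R := hR ⟨_, h1, rfl⟩
  show n2 e ≤ |R|
  rw [n2_eq h2]
  calc |dd e| * nq (pr e) ≤ 1 * nq (pr e) := mul_le_mul_of_nonneg_right h3 (nq_pos _).le
    _ ≤ |R| := by rw [one_mul]; exact h4.trans (le_abs_self R)

theorem nu_ne_zero : nu ≠ 0 := by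
  intro h0
  have h1 : nu Set.univ = 0 := by rw [h0]; rfl
  rw [nu_apply MeasurableSet.univ, Set.preimage_univ, Set.univ_inter] at h1
  have h2 : IsOpen {e : Cols | dd e ≠ 0 ∧ |dd e| < 1} :=
    (isOpen_ne.preimage continuous_dd).inter (isOpen_lt (continuous_abs.comp continuous_dd) continuous_const)
  have h3 : ({e : Cols | dd e ≠ 0 ∧ |dd e| < 1}).Nonempty := by
    refine ⟨![![1, 0], ![0, 2⁻¹]], ?_, ?_⟩
    · simp [dd]
    · simp [dd]
      norm_num
  have h4 : {e : Cols | dd e ≠ 0 ∧ |dd e| < 1} ⊆ C1 := fun e he => ⟨he.1, he.2.le⟩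
  exact (h2.measure_pos volume h3).ne' (measure_mono_null h4 h1)

/-- the shells -/
def Bk (k : ℕ) : Set SS := {h | (4 : ℝ) ^ k ≤ nq h ∧ nq h < 4 ^ (k + 1)}

theorem measurableSet_Bk (k : ℕ) : MeasurableSet (Bk k) :=
  (isClosed_le continuous_const continuous_nq).measurableSet.inter (isOpen_lt continuous_nq continuous_const).measurableSet

theorem Bk_disjoint : Pairwise (Function.onFun Disjoint Bk) := by
  have key : ∀ i j : ℕ, i < j → Disjoint (Bk i) (Bk j) := by
    intro i j hij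
    rw [Set.disjoint_left]
    rintro h ⟨-, h1⟩ ⟨h2, -⟩
    have h3 : (4 : ℝ) ^ (i + 1) ≤ 4 ^ j := pow_le_pow_right₀ (by norm_num) hij
    linarith
  intro i j hij
  rcases lt_or_gt_of_ne hij with h | h
  · exact key i j h
  · exact (key j i h).symm

theorem iUnion_Bk : (⋃ k, Bk k) = Set.univ := by
  rw [Set.eq_univ_iff_forall]
  intro h
  have h1 : (1 : ℝ) ≤ nq h := by linarith [two_le_nq h]
  obtain ⟨n, hn1, hn2⟩ := exists_nat_pow_near h1 (by norm_num : (1 : ℝ) < 4)
  exact Set.mem_iUnion.2 ⟨n, hn1, hn2⟩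

theorem pr_smul {r : ℝ} (hr : 0 < r) {e : Cols} (he : dd e ≠ 0) : pr (r • e) = pr e := by
  have h1 : dd (r • e) = r ^ 2 * dd e := by
    unfold dd
    simp only [Pi.smul_apply, smul_eq_mul]
    ring
  have h2 : dd (r • e) ≠ 0 := by
    rw [h1]
    positivity
  have h3 : cm (r • e) = r • cm e := by
    ext i j
    rfl
  apply mat_injective
  rw [mat_pr h2, mat_pr he, h1, h3, abs_mul, abs_of_pos (by positivity : 0 < r ^ 2), Real.sqrt_mul (by positivity),
    Real.sqrt_sq hr.le, smul_smul, mul_inv, mul_comm r⁻¹, mul_assoc, inv_mul_cancel₀ hr.ne', mul_one]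

/-- the small cones -/
def Tk (k : ℕ) : Set Cols := (fun e : Cols => (2 : ℝ) ^ (k + 1) • e) ⁻¹' (pr ⁻¹' (Bk k) ∩ C1)

theorem measurableSet_Tk (k : ℕ) : MeasurableSet (Tk k) := by
  have h1 : Continuous fun e : Cols => (2 : ℝ) ^ (k + 1) • e := continuous_const_smul _
  exact h1.measurable ((measurable_pr (measurableSet_Bk k)).inter measurableSet_C1)

theorem volume_Tk (k : ℕ) : volume (Tk k) = ENNReal.ofReal ((16 : ℝ) ^ (k + 1))⁻¹ * nu (Bk k) := by
  have h0 : (2 : ℝ) ^ (k + 1) ≠ 0 := by positivity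
  unfold Tk
  rw [Measure.addHaar_preimage_smul volume h0, nu_apply (measurableSet_Bk k)]
  congr 2
  have h1 : Module.finrank ℝ Cols = 4 := by
    simp [Module.finrank_pi_fintype]
  rw [h1, ← pow_mul, mul_comm, pow_mul, abs_of_pos (by positivity)]
  norm_num

theorem Tk_sub {k : ℕ} {e : Cols} (he : e ∈ Tk k) : dd e ≠ 0 ∧ pr e ∈ Bk k ∧ n2 e ≤ 1 := by
  obtain ⟨h1, h2, h3⟩ := he
  have hd : dd ((2 : ℝ) ^ (k + 1) • e) = (2 ^ (k + 1)) ^ 2 * dd e := by
    unfold dd
    simp only [Pi.smul_apply, smul_eq_mul]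
    ring
  have hn : n2 ((2 : ℝ) ^ (k + 1) • e) = (2 ^ (k + 1)) ^ 2 * n2 e := by
    unfold n2
    simp only [Pi.smul_apply, smul_eq_mul]
    ring
  have h4 : dd e ≠ 0 := by
    intro h0
    rw [hd, h0, mul_zero] at h2
    exact h2 rfl
  have h5 : pr e ∈ Bk k := by
    have h6 : pr ((2 : ℝ) ^ (k + 1) • e) ∈ Bk k := h1
    rwa [pr_smul (by positivity) h4] at h6
  refine ⟨h4, h5, ?_⟩
  have h6 := n2_eq h2
  rw [pr_smul (by positivity) h4, hn] at h6
  have h7 : nq (pr e) < 4 ^ (k + 1) := h5.2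
  have h8 : ((2 : ℝ) ^ (k + 1)) ^ 2 = 4 ^ (k + 1) := by
    rw [← pow_mul, mul_comm, pow_mul]
    norm_num
  rw [h8] at h6
  have h9 : (4 : ℝ) ^ (k + 1) * n2 e ≤ 4 ^ (k + 1) * 1 := by
    rw [h6, mul_one]
    calc |dd ((2 : ℝ) ^ (k + 1) • e)| * nq (pr e) ≤ 1 * nq (pr e) := mul_le_mul_of_nonneg_right h3 (nq_pos _).le
      _ ≤ 4 ^ (k + 1) := by rw [one_mul]; exact h7.le
  exact le_of_mul_le_mul_left h9 (by positivity)

theorem lintegral_nu : ∫⁻ h, ENNReal.ofReal ((nq h) ^ 2)⁻¹ ∂nu < ∞ := by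
  have h1 : ∫⁻ h, ENNReal.ofReal ((nq h) ^ 2)⁻¹ ∂nu = ∑' k, ∫⁻ h in Bk k, ENNReal.ofReal ((nq h) ^ 2)⁻¹ ∂nu := by
    rw [← lintegral_iUnion measurableSet_Bk Bk_disjoint, iUnion_Bk, Measure.restrict_univ]
  have h2 : ∀ k, ∫⁻ h in Bk k, ENNReal.ofReal ((nq h) ^ 2)⁻¹ ∂nu ≤ 16 * volume (Tk k) := by
    intro k
    calc ∫⁻ h in Bk k, ENNReal.ofReal ((nq h) ^ 2)⁻¹ ∂nu ≤ ∫⁻ h in Bk k, ENNReal.ofReal ((16 : ℝ) ^ k)⁻¹ ∂nu := by
          refine setLIntegral_mono' (measurableSet_Bk k) fun h hh => ENNReal.ofReal_le_ofReal ?_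
          refine inv_anti₀ (by positivity) ?_
          have h3 : (4 : ℝ) ^ k ≤ nq h := hh.1
          have h4 : (16 : ℝ) ^ k = (4 ^ k) ^ 2 := by
            rw [← pow_mul, mul_comm, pow_mul]
            norm_num
          rw [h4]
          exact pow_le_pow_left₀ (by positivity) h3 2
      _ = ENNReal.ofReal ((16 : ℝ) ^ k)⁻¹ * nu (Bk k) := setLIntegral_const _ _
      _ = 16 * volume (Tk k) := by
          rw [volume_Tk, ← mul_assoc]
          congr 1
          have h5 : ((16 : ℝ) ^ k)⁻¹ = 16 * ((16 : ℝ) ^ (k + 1))⁻¹ := by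
            rw [pow_succ]
            field_simp
          rw [h5, ENNReal.ofReal_mul (by norm_num)]
          norm_num
  have hT : Pairwise (Function.onFun Disjoint Tk) := by
    intro i j hij
    rw [Function.onFun, Set.disjoint_left]
    intro e hi hj
    exact (Set.disjoint_left.1 (Bk_disjoint hij)) (Tk_sub hi).2.1 (Tk_sub hj).2.1
  rw [h1]
  calc ∑' k, ∫⁻ h in Bk k, ENNReal.ofReal ((nq h) ^ 2)⁻¹ ∂nu ≤ ∑' k, 16 * volume (Tk k) := ENNReal.tsum_le_tsum h2
    _ = 16 * volume (⋃ k, Tk k) := by rw [ENNReal.tsum_mul_left, measure_iUnion hT measurableSet_Tk]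
    _ ≤ 16 * volume {e : Cols | n2 e ≤ 1} := by
        gcongr
        exact Set.iUnion_subset fun k e he => (Tk_sub he).2.2
    _ < ∞ := ENNReal.mul_lt_top (by norm_num) (isCompact_n2 1).measure_lt_top

/-- **`∫ |h|⁻⁴ dμ < ∞`.** -/
theorem lintegral_nq (μ : Measure SS) [μ.IsHaarMeasure] : ∫⁻ h, ENNReal.ofReal ((nq h) ^ 2)⁻¹ ∂μ < ∞ := by
  have h1 : nu = (nu.haarScalarFactor μ) • μ := Measure.isMulLeftInvariant_eq_smul _ _
  have h2 : nu.haarScalarFactor μ ≠ 0 := by
    intro h0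
    rw [h0, zero_smul] at h1
    exact nu_ne_zero h1
  have h3 := lintegral_nu
  rw [h1, lintegral_smul_measure] at h3
  by_contra h4
  rw [not_lt, top_le_iff] at h4
  rw [h4] at h3
  rw [ENNReal.smul_def, smul_eq_mul, ENNReal.mul_top (by exact_mod_cast h2)] at h3
  exact lt_irrefl _ h3

theorem integrable_nq (μ : Measure SS) [μ.IsHaarMeasure] : Integrable (fun h => ((nq h) ^ 2)⁻¹) μ := by
  have hm : Measurable fun h : SS => ((nq h) ^ 2)⁻¹ := (continuous_nq.measurable.pow_const 2).inv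
  refine ⟨hm.aestronglyMeasurable, ?_⟩
  rw [hasFiniteIntegral_iff_ofReal (Eventually.of_forall fun h => by positivity)]
  exact lintegral_nq μ

end Pool.Agent.Helper9.FP
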