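import Pool.Agent.Helper9.FP.S2Int
import Pool.Agent.Helper9.FP.Net

/-!
# Project TZ (MP_0f6f3f_an): `SS` has dimension `3`

`ln h = ‖h - 1‖` (the maximum of the entries). A compact set `B` has `δ`-nets with at most `C δ⁻³` elements, the ball of radius `r` has measure at least `c r³`.
-/

set_option autoImplicit false

open Filter Topology MeasureTheory Matrix
open scoped ENNReal

namespace Pool.Agent.Helper9.FP

/-- the maximum of the entries -/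
def nm (M : Matrix (Fin 2) (Fin 2) ℝ) : ℝ := @norm (Fin 2 → Fin 2 → ℝ) _ M

theorem nm_nonneg (M : Matrix (Fin 2) (Fin 2) ℝ) : 0 ≤ nm M := norm_nonneg (E := Fin 2 → Fin 2 → ℝ) M

theorem abs_le_nm (M : Matrix (Fin 2) (Fin 2) ℝ) (i j : Fin 2) : |M i j| ≤ nm M :=
  (norm_le_pi_norm (M i) j).trans (norm_le_pi_norm (f := (M : Fin 2 → Fin 2 → ℝ)) i)

theorem nm_le {M : Matrix (Fin 2) (Fin 2) ℝ} {r : ℝ} (hr : 0 ≤ r) (h : ∀ i j, |M i j| ≤ r) : nm M ≤ r :=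
  (pi_norm_le_iff_of_nonneg hr).2 fun i => (pi_norm_le_iff_of_nonneg hr).2 fun j => h i j

theorem nm_mul (M M' : Matrix (Fin 2) (Fin 2) ℝ) : nm (M * M') ≤ 2 * nm M * nm M' := by
  refine nm_le (by have := nm_nonneg M; have := nm_nonneg M'; positivity) fun i j => ?_
  rw [mul_apply, Fin.sum_univ_two]
  have h1 := abs_le_nm M i 0
  have h2 := abs_le_nm M i 1
  have h3 := abs_le_nm M' 0 j
  have h4 := abs_le_nm M' 1 j
  calc |M i 0 * M' 0 j + M i 1 * M' 1 j| ≤ |M i 0| * |M' 0 j| + |M i 1| * |M' 1 j| := by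
        rw [← abs_mul, ← abs_mul]
        exact abs_add_le _ _
    _ ≤ nm M * nm M' + nm M * nm M' :=
        add_le_add (mul_le_mul h1 h3 (abs_nonneg _) (nm_nonneg M)) (mul_le_mul h2 h4 (abs_nonneg _) (nm_nonneg M))
    _ = 2 * nm M * nm M' := by ring

theorem nm_neg (M : Matrix (Fin 2) (Fin 2) ℝ) : nm (-M) = nm M := norm_neg (E := Fin 2 → Fin 2 → ℝ) M

theorem nm_add (M M' : Matrix (Fin 2) (Fin 2) ℝ) : nm (M + M') ≤ nm M + nm M' := norm_add_le (E := Fin 2 → Fin 2 → ℝ) M M'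

theorem continuous_nm : Continuous nm := continuous_norm (E := Fin 2 → Fin 2 → ℝ)

/-- the distance from `1` -/
def ln (h : SS) : ℝ := nm (mat h - 1)

theorem ln_nonneg (h : SS) : 0 ≤ ln h := nm_nonneg _

theorem ln_one : ln 1 = 0 := by
  unfold ln nm
  rw [mat_one, sub_self]
  exact norm_zero

theorem continuous_ln : Continuous ln := continuous_nm.comp (continuous_mat.sub continuous_const)

theorem eq_one_of_ln {h : SS} (hh : ln h = 0) : h = 1 := by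
  apply mat_injective
  have h1 : mat h - 1 = 0 := norm_eq_zero (E := Fin 2 → Fin 2 → ℝ).1 hh
  rw [mat_one]
  exact sub_eq_zero.1 h1

theorem nm_mat_inv (h : SS) : nm (mat h⁻¹) = nm (mat h) := by
  have key : ∀ h : SS, nm (mat h⁻¹) ≤ nm (mat h) := by
    intro h
    refine nm_le (nm_nonneg _) fun i j => ?_
    rw [mat_inv, adjugate_fin_two]
    have h00 := abs_le_nm (mat h) 0 0
    have h01 := abs_le_nm (mat h) 0 1
    have h10 := abs_le_nm (mat h) 1 0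
    have h11 := abs_le_nm (mat h) 1 1
    rw [Matrix.smul_apply, smul_eq_mul, abs_mul, abs_det, one_mul]
    fin_cases i <;> fin_cases j <;> simpa using ‹_›
  refine le_antisymm (key h) ?_
  have := key h⁻¹
  rwa [inv_inv] at this

theorem nm_sq_le (h : SS) : nm (mat h) ^ 2 ≤ nq h := by
  have h0 : nm (mat h) ≤ √(nq h) := by
    refine nm_le (Real.sqrt_nonneg _) fun i j => ?_
    refine Real.abs_le_sqrt ?_
    unfold nq
    fin_cases i <;> fin_cases j <;> simp <;>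
      nlinarith [sq_nonneg (mat h 0 0), sq_nonneg (mat h 0 1), sq_nonneg (mat h 1 0), sq_nonneg (mat h 1 1)]
  calc nm (mat h) ^ 2 ≤ √(nq h) ^ 2 := pow_le_pow_left₀ (nm_nonneg _) h0 2
    _ = nq h := Real.sq_sqrt (nq_pos h).le

theorem nq_le_nm (h : SS) : nq h ≤ 4 * nm (mat h) ^ 2 := by
  have key : ∀ i j, mat h i j ^ 2 ≤ nm (mat h) ^ 2 := fun i j => by
    rw [← sq_abs]
    exact pow_le_pow_left₀ (abs_nonneg _) (abs_le_nm _ i j) 2
  unfold nq
  linarith [key 0 0, key 0 1, key 1 0, key 1 1]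

theorem ln_conj (g h : SS) : ln (g * h * g⁻¹) ≤ 4 * nm (mat g) ^ 2 * ln h := by
  have h1 : mat (g * h * g⁻¹) - 1 = mat g * (mat h - 1) * mat g⁻¹ := by
    rw [mat_mul, mat_mul, mul_sub, sub_mul, mul_one, ← mat_mul g g⁻¹, mul_inv_cancel, mat_one]
  unfold ln
  rw [h1]
  have h2 := nm_mul (mat g * (mat h - 1)) (mat g⁻¹)
  have h3 := nm_mul (mat g) (mat h - 1)
  rw [nm_mat_inv] at h2
  have h4 := nm_nonneg (mat g)
  calc nm (mat g * (mat h - 1) * mat g⁻¹) ≤ 2 * nm (mat g * (mat h - 1)) * nm (mat g) := h2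
    _ ≤ 2 * (2 * nm (mat g) * nm (mat h - 1)) * nm (mat g) := by gcongr
    _ = _ := by ring

theorem ln_inv_mul (k g : SS) : ln (k⁻¹ * g) ≤ 2 * nm (mat k) * nm (mat g - mat k) := by
  have h1 : mat (k⁻¹ * g) - 1 = mat k⁻¹ * (mat g - mat k) := by
    rw [mat_mul, mul_sub, ← mat_mul k⁻¹ k, inv_mul_cancel, mat_one]
  unfold ln
  rw [h1, ← nm_mat_inv k]
  exact nm_mul _ _

theorem ln_mul_inv (k g : SS) : ln (g * k⁻¹) ≤ 2 * nm (mat k) * nm (mat g - mat k) := by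
  have h1 : mat (g * k⁻¹) - 1 = (mat g - mat k) * mat k⁻¹ := by
    rw [mat_mul, sub_mul, ← mat_mul k k⁻¹, mul_inv_cancel, mat_one]
  unfold ln
  rw [h1, ← nm_mat_inv k]
  calc _ ≤ 2 * nm (mat g - mat k) * nm (mat k⁻¹) := nm_mul _ _
    _ = _ := by ring

theorem nm_sub_comm (M M' : Matrix (Fin 2) (Fin 2) ℝ) : nm (M - M') = nm (M' - M) := by
  rw [← nm_neg, neg_sub]

theorem nm_le_ln (h : SS) : nm (mat h) ≤ ln h + 1 := by
  have h1 : nm (mat h) ≤ nm (mat h - 1) + nm 1 := by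
    have := nm_add (mat h - 1) 1
    rwa [sub_add_cancel] at this
  have h2 : nm (1 : Matrix (Fin 2) (Fin 2) ℝ) ≤ 1 := nm_le zero_le_one fun i j => by
    fin_cases i <;> fin_cases j <;> simp
  unfold ln
  linarith

theorem isCompact_ln (R : ℝ) : IsCompact {h : SS | ln h ≤ R} := by
  refine (isCompact_nq (4 * (|R| + 1) ^ 2)).of_isClosed_subset (isClosed_le continuous_ln continuous_const) fun h hh => ?_
  have h1 : ln h ≤ R := hh
  have h2 := nm_le_ln h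
  have h3 : nm (mat h) ≤ |R| + 1 := by linarith [le_abs_self R]
  show nq h ≤ _
  calc nq h ≤ 4 * nm (mat h) ^ 2 := nq_le_nm h
    _ ≤ _ := by
        have := nm_nonneg (mat h)
        gcongr

theorem ln_inv (h : SS) : ln h⁻¹ ≤ 2 * (ln h + 1) * ln h := by
  have h1 := ln_inv_mul h 1
  rw [mul_one, mat_one, nm_sub_comm] at h1
  calc ln h⁻¹ ≤ 2 * nm (mat h) * ln h := h1
    _ ≤ 2 * (ln h + 1) * ln h := by
        have := nm_le_ln h
        have := ln_nonneg h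
        gcongr

theorem ln_mul (g h : SS) : ln (g * h) ≤ ln g + 2 * (ln g + 1) * ln h := by
  have h1 : mat (g * h) - 1 = (mat g - 1) + mat g * (mat h - 1) := by
    rw [mat_mul, mul_sub, mul_one]
    abel
  have h2 : ln (g * h) ≤ ln g + nm (mat g * (mat h - 1)) := by
    unfold ln
    rw [h1]
    exact norm_add_le (E := Fin 2 → Fin 2 → ℝ) _ _
  have h3 := nm_mul (mat g) (mat h - 1)
  have h4 := nm_le_ln g
  have h5 := ln_nonneg h
  calc ln (g * h) ≤ ln g + 2 * nm (mat g) * ln h := h2.trans (by unfold ln at *; linarith)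
    _ ≤ _ := by gcongr

/-- **Nets.** -/
theorem exists_net_SS {B : Set SS} (hB : IsCompact B) : ∃ C : ℝ, 0 < C ∧ ∀ δ : ℝ, 0 < δ → δ ≤ 1 → ∃ P : Finset SS,
    (P.card : ℝ) ≤ C * δ⁻¹ ^ 3 ∧ (∀ k ∈ P, k ∈ B) ∧ ∀ g ∈ B, ∃ k ∈ P,
      ln (k⁻¹ * g) ≤ δ ∧ ln (g * k⁻¹) ≤ δ ∧ ln (g⁻¹ * k) ≤ δ ∧ ln (k * g⁻¹) ≤ δ := by
  obtain ⟨R0, hR0⟩ := (hB.image (continuous_nm.comp continuous_mat)).bddAbove
  obtain ⟨R, hR1, hR⟩ : ∃ R : ℝ, 1 ≤ R ∧ ∀ g ∈ B, nm (mat g) ≤ R :=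
    ⟨max R0 1, le_max_right _ _, fun g hg => (hR0 ⟨g, hg, rfl⟩).trans (le_max_left _ _)⟩
  let N : (Fin 2 → Fin 2 → ℝ) → ℝ := fun M => |M 0 0 * M 1 1 - M 0 1 * M 1 0|
  have hN : ∀ r : ℝ, 0 ≤ r → ∀ x : Fin 2 → Fin 2 → ℝ, N (r • x) = r ^ 2 * N x := by
    intro r hr x
    show |r * x 0 0 * (r * x 1 1) - r * x 0 1 * (r * x 1 0)| = r ^ 2 * |x 0 0 * x 1 1 - x 0 1 * x 1 0|
    rw [← abs_of_nonneg (sq_nonneg r), ← abs_mul]
    congr 1
    ring
  have hL : ∀ x y : Fin 2 → Fin 2 → ℝ, ‖x‖ ≤ 2 * R → ‖y‖ ≤ 2 * R → |N x - N y| ≤ 8 * R * ‖x - y‖ := by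
    intro x y hx hy
    have hx' : ∀ i j, |x i j| ≤ 2 * R := fun i j => (abs_le_nm x i j).trans hx
    have hy' : ∀ i j, |y i j| ≤ 2 * R := fun i j => (abs_le_nm y i j).trans hy
    have hxy : ∀ i j, |x i j - y i j| ≤ ‖x - y‖ := fun i j => abs_le_nm (x - y) i j
    have e : x 0 0 * x 1 1 - x 0 1 * x 1 0 - (y 0 0 * y 1 1 - y 0 1 * y 1 0) =
        (x 0 0 - y 0 0) * x 1 1 + y 0 0 * (x 1 1 - y 1 1) - (x 0 1 - y 0 1) * x 1 0 - y 0 1 * (x 1 0 - y 1 0) := by ring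
    have hd := norm_nonneg (x - y)
    calc |N x - N y| ≤ |x 0 0 * x 1 1 - x 0 1 * x 1 0 - (y 0 0 * y 1 1 - y 0 1 * y 1 0)| := abs_abs_sub_abs_le _ _
      _ = |(x 0 0 - y 0 0) * x 1 1 + y 0 0 * (x 1 1 - y 1 1) - (x 0 1 - y 0 1) * x 1 0 - y 0 1 * (x 1 0 - y 1 0)| := by rw [e]
      _ ≤ |(x 0 0 - y 0 0) * x 1 1| + |y 0 0 * (x 1 1 - y 1 1)| + |(x 0 1 - y 0 1) * x 1 0| + |y 0 1 * (x 1 0 - y 1 0)| := by
          refine (abs_sub _ _).trans (add_le_add ((abs_sub _ _).trans (add_le_add (abs_add_le _ _) le_rfl)) le_rfl)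
      _ ≤ ‖x - y‖ * (2 * R) + (2 * R) * ‖x - y‖ + ‖x - y‖ * (2 * R) + (2 * R) * ‖x - y‖ := by
          rw [abs_mul, abs_mul, abs_mul, abs_mul]
          have h1 := mul_le_mul (hxy 0 0) (hx' 1 1) (abs_nonneg _) hd
          have h2 := mul_le_mul (hy' 0 0) (hxy 1 1) (abs_nonneg _) (by linarith)
          have h3 := mul_le_mul (hxy 0 1) (hx' 1 0) (abs_nonneg _) hd
          have h4 := mul_le_mul (hy' 0 1) (hxy 1 0) (abs_nonneg _) (by linarith)
          linarith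
      _ = 8 * R * ‖x - y‖ := by ring
  obtain ⟨C, hC0, hC⟩ := exists_net (E := Fin 2 → Fin 2 → ℝ) (fun g : SS => mat g) N (n := 2) two_ne_zero hN hL B
    (fun g hg => ⟨hR g hg, by
      show |mat g 0 0 * mat g 1 1 - mat g 0 1 * mat g 1 0| = 1
      rw [← det_eq, abs_det]⟩)
  have hfin : Module.finrank ℝ (Fin 2 → Fin 2 → ℝ) = 4 := by
    simp [Module.finrank_pi_fintype]
  rw [hfin] at hC
  refine ⟨C * (2 * R) ^ 3, by positivity, ?_⟩
  intro δ hδ hδ1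
  have hRp : 0 < R := by linarith
  have h2R : 1 ≤ 2 * R := by linarith
  obtain ⟨P, hP1, hP2, hP3⟩ := hC (δ / (2 * R)) (by positivity) ((div_le_one (by linarith)).2 (by linarith))
  refine ⟨P, ?_, hP2, ?_⟩
  · calc (P.card : ℝ) ≤ C * (δ / (2 * R))⁻¹ ^ 3 := hP1
      _ = C * (2 * R) ^ 3 * δ⁻¹ ^ 3 := by
          rw [inv_div, div_eq_mul_inv, mul_pow]
          ring
  · intro g hg
    obtain ⟨k, hk, hkg⟩ := hP3 g hg
    have h1 : nm (mat g - mat k) ≤ δ / (2 * R) := hkg.le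
    have h2 := hR g hg
    have h3 := hR k (hP2 k hk)
    have key : ∀ a b : SS, nm (mat a) ≤ R → nm (mat b - mat a) ≤ δ / (2 * R) → 2 * nm (mat a) * nm (mat b - mat a) ≤ δ := by
      intro a b ha hb
      calc 2 * nm (mat a) * nm (mat b - mat a) ≤ 2 * R * (δ / (2 * R)) := by
            have := nm_nonneg (mat a)
            have := nm_nonneg (mat b - mat a)
            gcongr
        _ = δ := by field_simp
    have h4 : nm (mat k - mat g) ≤ δ / (2 * R) := by rwa [nm_sub_comm]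
    exact ⟨k, hk, (ln_inv_mul k g).trans (key k g h3 h1), (ln_mul_inv k g).trans (key k g h3 h1),
      (ln_inv_mul g k).trans (key g k h2 h4), (ln_mul_inv g k).trans (key g k h2 h4)⟩

/-- **Small balls.** -/
theorem exists_vol (μ : Measure SS) [μ.IsHaarMeasure] : ∃ c : ℝ, 0 < c ∧ ∀ r : ℝ, 0 < r → r ≤ 1 →
    ENNReal.ofReal (c * r ^ 3) ≤ μ {h | ln h ≤ r} := by
  let B : Set SS := {h | ln h ≤ 1}
  have hB : IsCompact B := isCompact_ln 1
  obtain ⟨C, hC0, hC⟩ := exists_net_SS hB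
  have hB0 : μ B ≠ 0 := by
    have h1 : IsOpen {h : SS | ln h < 1} := isOpen_lt continuous_ln continuous_const
    have h2 : ({h : SS | ln h < 1}).Nonempty := ⟨1, by
      show ln 1 < 1
      rw [ln_one]
      exact one_pos⟩
    have h3 : {h : SS | ln h < 1} ⊆ B := fun h hh => by
      have h4 : ln h < 1 := hh
      exact h4.le
    exact ((h1.measure_pos μ h2).trans_le (measure_mono h3)).ne'
  have hBt : μ B ≠ ∞ := hB.measure_lt_top.ne
  refine ⟨(μ B).toReal / C, div_pos (ENNReal.toReal_pos hB0 hBt) hC0, ?_⟩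
  intro r hr hr1
  obtain ⟨P, hP1, -, hP3⟩ := hC r hr hr1
  have h1 : B ⊆ ⋃ k ∈ P, (fun h => k⁻¹ * h) ⁻¹' {h | ln h ≤ r} := by
    intro g hg
    obtain ⟨k, hk, h2, -⟩ := hP3 g hg
    exact Set.mem_iUnion₂.2 ⟨k, hk, h2⟩
  have h2 : μ B ≤ (P.card : ENNReal) * μ {h | ln h ≤ r} := by
    calc μ B ≤ μ (⋃ k ∈ P, (fun h => k⁻¹ * h) ⁻¹' {h | ln h ≤ r}) := measure_mono h1
      _ ≤ ∑ k ∈ P, μ ((fun h => k⁻¹ * h) ⁻¹' {h | ln h ≤ r}) := measure_biUnion_finset_le _ _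
      _ = (P.card : ENNReal) * μ {h | ln h ≤ r} := by
          rw [Finset.sum_congr rfl fun k _ => measure_preimage_mul μ k⁻¹ _, Finset.sum_const, nsmul_eq_mul]
  have h3 : (P.card : ENNReal) ≤ ENNReal.ofReal (C * r⁻¹ ^ 3) := by
    rw [← ENNReal.ofReal_natCast]
    exact ENNReal.ofReal_le_ofReal hP1
  have h4 : μ B ≤ ENNReal.ofReal (C * r⁻¹ ^ 3) * μ {h | ln h ≤ r} := h2.trans (by gcongr)
  have h5 : ENNReal.ofReal ((μ B).toReal / C * r ^ 3) = ENNReal.ofReal (r ^ 3 / C) * μ B := by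
    rw [← ENNReal.ofReal_toReal hBt, ← ENNReal.ofReal_mul (by positivity), ENNReal.toReal_ofReal ENNReal.toReal_nonneg]
    congr 1
    ring
  rw [h5]
  calc ENNReal.ofReal (r ^ 3 / C) * μ B ≤ ENNReal.ofReal (r ^ 3 / C) * (ENNReal.ofReal (C * r⁻¹ ^ 3) * μ {h | ln h ≤ r}) := by
        gcongr
    _ = μ {h | ln h ≤ r} := by
        rw [← mul_assoc, ← ENNReal.ofReal_mul (by positivity)]
        have h6 : r ^ 3 / C * (C * r⁻¹ ^ 3) = 1 := by
          field_simp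
        rw [h6, ENNReal.ofReal_one, one_mul]

end Pool.Agent.Helper9.FP
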