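import Mathlib

/-!
# Project FP (MP_0f6f3f_an): the group `SS = {h ∈ GL₂(ℝ) : |det h| = 1}`

`SS` is a closed subset of the `2 × 2` matrices (`isClosedEmbedding_mat`), hence a locally compact second countable group; `KK2` is the compact subgroup of
the orthogonal matrices; `nq h` is the square of the Hilbert-Schmidt norm.
-/

set_option autoImplicit false

open Filter Topology MeasureTheory Matrix

namespace Pool.Agent.Helper9.FP

/-- The group `{h ∈ GL₂(ℝ) : |det h| = 1}`. -/
def SSg : Subgroup (GL (Fin 2) ℝ) where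
  carrier := {h | |(h : Matrix (Fin 2) (Fin 2) ℝ).det| = 1}
  mul_mem' := by
    intro a b ha hb
    show |((a * b : GL (Fin 2) ℝ) : Matrix (Fin 2) (Fin 2) ℝ).det| = 1
    rw [Units.val_mul, det_mul, abs_mul]
    rw [Set.mem_ofPred_eq] at ha hb
    rw [ha, hb, one_mul]
  one_mem' := by
    show |((1 : GL (Fin 2) ℝ) : Matrix (Fin 2) (Fin 2) ℝ).det| = 1
    simp
  inv_mem' := by
    intro a ha
    show |((a⁻¹ : GL (Fin 2) ℝ) : Matrix (Fin 2) (Fin 2) ℝ).det| = 1
    have h : ((a⁻¹ : GL (Fin 2) ℝ) : Matrix (Fin 2) (Fin 2) ℝ).det * (a : Matrix (Fin 2) (Fin 2) ℝ).det = 1 := by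
      rw [← det_mul, ← Units.val_mul, inv_mul_cancel]
      simp
    have h2 := congrArg abs h
    rw [abs_mul, abs_one] at h2
    rw [Set.mem_ofPred_eq] at ha
    rwa [ha, mul_one] at h2

/-- The group `{h ∈ GL₂(ℝ) : |det h| = 1}`. -/
abbrev SS : Type := ↥SSg

/-- the matrix -/
def mat (h : SS) : Matrix (Fin 2) (Fin 2) ℝ := ((h : GL (Fin 2) ℝ) : Matrix (Fin 2) (Fin 2) ℝ)

theorem mat_mul (g h : SS) : mat (g * h) = mat g * mat h := rfl

theorem mat_one : mat 1 = 1 := rfl

theorem abs_det (h : SS) : |(mat h).det| = 1 := h.2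

theorem det_sq (h : SS) : (mat h).det ^ 2 = 1 := by rw [← sq_abs, abs_det, one_pow]

theorem det_ne (h : SS) : (mat h).det ≠ 0 := by
  intro h0
  have := abs_det h
  rw [h0] at this
  simp at this

theorem mat_injective : Function.Injective mat := fun _ _ h => Subtype.ext (Units.ext h)

theorem mat_inv (h : SS) : mat h⁻¹ = (mat h).det • (mat h).adjugate := by
  have h1 : mat h⁻¹ * mat h = 1 := by rw [← mat_mul, inv_mul_cancel, mat_one]
  have h2 : ((mat h).det • (mat h).adjugate) * mat h = 1 := by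
    rw [smul_mul_assoc, adjugate_mul, smul_smul, ← sq, det_sq, one_smul]
  have h3 : mat h * mat h⁻¹ = 1 := by rw [← mat_mul, mul_inv_cancel, mat_one]
  calc mat h⁻¹ = ((mat h).det • (mat h).adjugate * mat h) * mat h⁻¹ := by rw [h2, one_mul]
    _ = (mat h).det • (mat h).adjugate := by rw [mul_assoc, h3, mul_one]

/-- an element from a matrix -/
noncomputable def mkS (M : Matrix (Fin 2) (Fin 2) ℝ) (hM : |M.det| = 1) : SS :=
  ⟨GeneralLinearGroup.mkOfDetNeZero M (by
    intro h0
    rw [h0] at hM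
    simp at hM), hM⟩

theorem mat_mkS (M : Matrix (Fin 2) (Fin 2) ℝ) (hM : |M.det| = 1) : mat (mkS M hM) = M := rfl

theorem mkS_mat (h : SS) : mkS (mat h) h.2 = h := mat_injective rfl

theorem continuous_mat : Continuous mat := Units.continuous_val.comp continuous_subtype_val

/-- `SS` is homeomorphic to a closed set of matrices. -/
noncomputable def homeo : SS ≃ₜ {M : Matrix (Fin 2) (Fin 2) ℝ // |M.det| = 1} where
  toFun h := ⟨mat h, h.2⟩
  invFun M := mkS M.1 M.2
  left_inv h := mkS_mat h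
  right_inv M := Subtype.ext (mat_mkS M.1 M.2)
  continuous_toFun := continuous_mat.subtype_mk _
  continuous_invFun := by
    refine Continuous.subtype_mk ?_ _
    rw [Units.continuous_iff]
    refine ⟨continuous_subtype_val, ?_⟩
    have h1 : ∀ M : {M : Matrix (Fin 2) (Fin 2) ℝ // |M.det| = 1},
        (((mkS M.1 M.2 : SS) : GL (Fin 2) ℝ)⁻¹ : GL (Fin 2) ℝ).val = M.1.det • M.1.adjugate := fun M => mat_inv (mkS M.1 M.2)
    have h2 : Continuous fun M : {M : Matrix (Fin 2) (Fin 2) ℝ // |M.det| = 1} => M.1.det • M.1.adjugate :=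
      (continuous_subtype_val.matrix_det).smul (continuous_subtype_val.matrix_adjugate)
    exact h2.congr fun M => (h1 M).symm

theorem isClosedEmbedding_mat : IsClosedEmbedding mat := by
  have h1 : IsClosed {M : Matrix (Fin 2) (Fin 2) ℝ | |M.det| = 1} :=
    isClosed_eq (continuous_abs.comp (continuous_id.matrix_det)) continuous_const
  have h2 : IsClosedEmbedding (Subtype.val ∘ homeo) := h1.isClosedEmbedding_subtypeVal.comp homeo.isClosedEmbedding
  exact h2

instance : LocallyCompactSpace SS := by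
  have : LocallyCompactSpace (Matrix (Fin 2) (Fin 2) ℝ) := inferInstanceAs (LocallyCompactSpace (Fin 2 → Fin 2 → ℝ))
  exact isClosedEmbedding_mat.locallyCompactSpace

instance : SecondCountableTopology SS := by
  have : SecondCountableTopology (Matrix (Fin 2) (Fin 2) ℝ) := inferInstanceAs (SecondCountableTopology (Fin 2 → Fin 2 → ℝ))
  exact isClosedEmbedding_mat.isEmbedding.secondCountableTopology

instance : MeasurableSpace SS := borel SS

instance : BorelSpace SS := ⟨rfl⟩

/-- the square of the Hilbert-Schmidt norm -/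
def nq (h : SS) : ℝ := mat h 0 0 ^ 2 + mat h 0 1 ^ 2 + mat h 1 0 ^ 2 + mat h 1 1 ^ 2

theorem continuous_nq : Continuous nq := by
  have h : ∀ i j, Continuous fun h : SS => mat h i j := fun i j => continuous_mat.matrix_elem i j
  exact ((((h 0 0).pow 2).add ((h 0 1).pow 2)).add ((h 1 0).pow 2)).add ((h 1 1).pow 2)

theorem det_eq (h : SS) : (mat h).det = mat h 0 0 * mat h 1 1 - mat h 0 1 * mat h 1 0 := det_fin_two _

theorem two_le_nq (h : SS) : 2 ≤ nq h := by
  have h1 := abs_det h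
  rw [det_eq] at h1
  unfold nq
  rcases abs_eq (zero_le_one) |>.1 h1 with h2 | h2 <;>
    nlinarith [sq_nonneg (mat h 0 0 - mat h 1 1), sq_nonneg (mat h 0 1 + mat h 1 0), sq_nonneg (mat h 0 0 + mat h 1 1),
      sq_nonneg (mat h 0 1 - mat h 1 0)]

theorem nq_pos (h : SS) : 0 < nq h := by linarith [two_le_nq h]

theorem nq_eq_trace (h : SS) : nq h = (mat h * (mat h)ᵀ).trace := by
  unfold nq
  rw [trace_fin_two]
  simp only [mul_apply, Fin.sum_univ_two, transpose_apply]
  ring

theorem nq_inv (h : SS) : nq h⁻¹ = nq h := by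
  unfold nq
  rw [mat_inv, adjugate_fin_two]
  simp only [Matrix.smul_apply, smul_eq_mul, of_apply, cons_val', cons_val_zero, cons_val_one, cons_val_fin_one, mul_pow, det_sq,
    one_mul]
  ring

theorem nq_mul_le (g h : SS) : nq (g * h) ≤ nq g * nq h := by
  unfold nq
  rw [mat_mul]
  simp only [mul_apply, Fin.sum_univ_two]
  nlinarith [sq_nonneg (mat g 0 0 * mat h 1 0 - mat g 0 1 * mat h 0 0), sq_nonneg (mat g 0 0 * mat h 1 1 - mat g 0 1 * mat h 0 1),
    sq_nonneg (mat g 1 0 * mat h 1 0 - mat g 1 1 * mat h 0 0), sq_nonneg (mat g 1 0 * mat h 1 1 - mat g 1 1 * mat h 0 1)]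

theorem nq_le_mul (g h : SS) : nq h ≤ nq g * nq (h * g) := by
  have h1 := nq_mul_le (h * g) g⁻¹
  rw [mul_inv_cancel_right, nq_inv, mul_comm] at h1
  exact h1

theorem nq_le_mul' (g h : SS) : nq h ≤ nq g * nq (g * h) := by
  have h1 := nq_mul_le g⁻¹ (g * h)
  rw [inv_mul_cancel_left, nq_inv] at h1
  exact h1

/-- the orthogonal matrices -/
def KK2 : Subgroup SS where
  carrier := {h | mat h * (mat h)ᵀ = 1}
  mul_mem' := by
    intro a b ha hb
    show mat (a * b) * (mat (a * b))ᵀ = 1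
    rw [Set.mem_ofPred_eq] at ha hb
    rw [mat_mul, transpose_mul, mul_assoc, ← mul_assoc (mat b), hb, one_mul, ha]
  one_mem' := by
    show mat 1 * (mat 1)ᵀ = 1
    rw [mat_one, transpose_one, one_mul]
  inv_mem' := by
    intro a ha
    show mat a⁻¹ * (mat a⁻¹)ᵀ = 1
    rw [Set.mem_ofPred_eq] at ha
    have h1 : mat a⁻¹ = (mat a)ᵀ := by
      have h3 : mat a⁻¹ * mat a = 1 := by rw [← mat_mul, inv_mul_cancel, mat_one]
      calc mat a⁻¹ = mat a⁻¹ * (mat a * (mat a)ᵀ) := by rw [ha, mul_one]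
        _ = (mat a)ᵀ := by rw [← mul_assoc, h3, one_mul]
    rw [h1, transpose_transpose]
    exact mul_eq_one_comm.1 ha

theorem mem_KK2 {h : SS} : h ∈ KK2 ↔ mat h * (mat h)ᵀ = 1 := Iff.rfl

theorem mat_inv_of_mem {k : SS} (hk : k ∈ KK2) : mat k⁻¹ = (mat k)ᵀ := by
  have h3 : mat k⁻¹ * mat k = 1 := by rw [← mat_mul, inv_mul_cancel, mat_one]
  calc mat k⁻¹ = mat k⁻¹ * (mat k * (mat k)ᵀ) := by rw [mem_KK2.1 hk, mul_one]
    _ = (mat k)ᵀ := by rw [← mul_assoc, h3, one_mul]

theorem mem_KK2' {h : SS} : h ∈ KK2 ↔ (mat h)ᵀ * mat h = 1 := by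
  rw [mem_KK2]
  exact mul_eq_one_comm

theorem nq_mul_right_of_mem {k : SS} (hk : k ∈ KK2) (h : SS) : nq (h * k) = nq h := by
  rw [nq_eq_trace, nq_eq_trace, mat_mul, transpose_mul, mul_assoc, ← mul_assoc (mat k), mem_KK2.1 hk, one_mul]

theorem nq_mul_left_of_mem {k : SS} (hk : k ∈ KK2) (h : SS) : nq (k * h) = nq h := by
  rw [nq_eq_trace, nq_eq_trace, mat_mul, transpose_mul, mul_assoc, trace_mul_comm, mul_assoc, mul_assoc, mem_KK2'.1 hk, mul_one]

theorem nq_of_mem {k : SS} (hk : k ∈ KK2) : nq k = 2 := by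
  rw [nq_eq_trace, mem_KK2.1 hk]
  simp

theorem isCompact_nq (R : ℝ) : IsCompact {h : SS | nq h ≤ R} := by
  have h1 : IsCompact {M : Matrix (Fin 2) (Fin 2) ℝ | M 0 0 ^ 2 + M 0 1 ^ 2 + M 1 0 ^ 2 + M 1 1 ^ 2 ≤ R} := by
    have h2 : IsCompact (Set.univ.pi fun _ : Fin 2 => (Set.univ.pi fun _ : Fin 2 => Set.Icc (-(R + 1)) (R + 1)) :
        Set (Fin 2 → Fin 2 → ℝ)) :=
      isCompact_univ_pi fun _ => isCompact_univ_pi fun _ => isCompact_Icc
    have hc : ∀ i j, Continuous fun M : Matrix (Fin 2) (Fin 2) ℝ => M i j := fun i j => continuous_id.matrix_elem i j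
    refine IsCompact.of_isClosed_subset h2 (isClosed_le
      (((((hc 0 0).pow 2).add ((hc 0 1).pow 2)).add ((hc 1 0).pow 2)).add ((hc 1 1).pow 2)) continuous_const) ?_
    intro M hM i _ j _
    rw [Set.mem_ofPred_eq] at hM
    have h3 : M i j ^ 2 ≤ R := by
      fin_cases i <;> fin_cases j <;> simp <;>
        nlinarith [sq_nonneg (M 0 0), sq_nonneg (M 0 1), sq_nonneg (M 1 0), sq_nonneg (M 1 1)]
    rw [Set.mem_Icc]
    constructor <;> nlinarith [sq_nonneg (M i j + 1), sq_nonneg (M i j - 1)]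
  exact isClosedEmbedding_mat.isCompact_preimage h1

theorem isClosed_KK2 : IsClosed (KK2 : Set SS) := by
  have h : Continuous fun h : SS => mat h * (mat h)ᵀ := continuous_mat.mul continuous_mat.matrix_transpose
  exact isClosed_eq h continuous_const

theorem isCompact_KK2 : IsCompact (KK2 : Set SS) :=
  (isCompact_nq 2).of_isClosed_subset isClosed_KK2 fun _ hk => (nq_of_mem hk).le

end Pool.Agent.Helper9.FP
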