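import Pool.Agent.Helper9.FP.S2R

/-!
# Project FP (MP_0f6f3f_an): `SS` is unimodular

There is no nontrivial homomorphism from `SS` to the positive reals.
-/

set_option autoImplicit false

open Filter Topology MeasureTheory Matrix

namespace Pool.Agent.Helper9.FP

/-- upper unipotent -/
noncomputable def up (t : ℝ) : SS := mkS !![1, t; 0, 1] (by simp)

/-- lower unipotent -/
noncomputable def lo (t : ℝ) : SS := mkS !![1, 0; t, 1] (by simp)

/-- diagonal -/
noncomputable def dg : SS := mkS !![2, 0; 0, 2⁻¹] (by simp)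

theorem mat_up (t : ℝ) : mat (up t) = !![1, t; 0, 1] := rfl

theorem mat_lo (t : ℝ) : mat (lo t) = !![1, 0; t, 1] := rfl

theorem mat_dg : mat dg = !![2, 0; 0, 2⁻¹] := rfl

theorem up_add (s t : ℝ) : up (s + t) = up s * up t := by
  apply mat_injective
  rw [mat_mul, mat_up, mat_up, mat_up]
  ext i j
  fin_cases i <;> fin_cases j <;> simp [mul_apply, add_comm]

theorem lo_add (s t : ℝ) : lo (s + t) = lo s * lo t := by
  apply mat_injective
  rw [mat_mul, mat_lo, mat_lo, mat_lo]
  ext i j
  fin_cases i <;> fin_cases j <;> simp [mul_apply]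

theorem dg_up (t : ℝ) : dg * up t = up (t + t + (t + t)) * dg := by
  apply mat_injective
  rw [mat_mul, mat_mul, mat_up, mat_up, mat_dg]
  ext i j
  fin_cases i <;> fin_cases j <;> simp [mul_apply] <;> ring

theorem dg_lo (t : ℝ) : dg * lo (t + t + (t + t)) = lo t * dg := by
  apply mat_injective
  rw [mat_mul, mat_mul, mat_lo, mat_lo, mat_dg]
  ext i j
  fin_cases i <;> fin_cases j <;> simp [mul_apply] <;> ring

theorem eq_four (h : SS) (hd : (mat h).det = 1) (hc : mat h 1 0 ≠ 0) :
    h = up ((mat h 0 0 - 1) / mat h 1 0) * (lo (mat h 1 0) * up ((mat h 1 1 - 1) / mat h 1 0)) := by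
  apply mat_injective
  rw [mat_mul, mat_mul, mat_up, mat_lo, mat_up]
  rw [det_eq] at hd
  ext i j
  fin_cases i <;> fin_cases j
  · simp [mul_apply]
    field_simp
    ring
  · simp [mul_apply]
    field_simp
    linear_combination -hd
  · simp [mul_apply]
  · simp [mul_apply]
    field_simp
    ring

theorem NNReal_pow_eq_one {x : NNReal} {n : ℕ} (hn : n ≠ 0) (h : x ^ n = 1) : x = 1 := by
  exact (pow_eq_one_iff_of_nonneg (bot_le : (0 : NNReal) ≤ x) hn).1 h

theorem hom_up (χ : SS →* NNReal) (hχ : ∀ h, χ h ≠ 0) (t : ℝ) : χ (up t) = 1 := by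
  have h1 := congrArg χ (dg_up t)
  rw [up_add, up_add, map_mul, map_mul, map_mul, map_mul, mul_comm] at h1
  have h2 := mul_right_cancel₀ (hχ dg) h1
  have h3 : χ (up t) ^ 3 = 1 := by
    have h4 : χ (up t) * χ (up t) ^ 3 = χ (up t) * 1 := by
      rw [mul_one]
      conv_rhs => rw [h2]
      ring
    exact mul_left_cancel₀ (hχ (up t)) h4
  exact NNReal_pow_eq_one (by norm_num) h3

theorem hom_lo (χ : SS →* NNReal) (hχ : ∀ h, χ h ≠ 0) (t : ℝ) : χ (lo t) = 1 := by
  have h1 := congrArg χ (dg_lo t)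
  rw [lo_add, lo_add, map_mul, map_mul, map_mul, map_mul, mul_comm] at h1
  have h2 := mul_right_cancel₀ (hχ dg) h1
  have h3 : χ (lo t) ^ 3 = 1 := by
    have h4 : χ (lo t) * χ (lo t) ^ 3 = χ (lo t) * 1 := by
      rw [mul_one]
      conv_rhs => rw [← h2]
      ring
    exact mul_left_cancel₀ (hχ (lo t)) h4
  exact NNReal_pow_eq_one (by norm_num) h3

theorem hom_eq_one (χ : SS →* NNReal) (h : SS) : χ h = 1 := by
  have hχ : ∀ h, χ h ≠ 0 := fun h h0 => by
    have h1 : χ h * χ h⁻¹ = 1 := by rw [← map_mul, mul_inv_cancel, map_one]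
    rw [h0, zero_mul] at h1
    exact zero_ne_one h1
  have hc : ∀ h : SS, (mat h).det = 1 → mat h 1 0 ≠ 0 → χ h = 1 := fun h hd hc => by
    rw [eq_four h hd hc, map_mul, map_mul, hom_up χ hχ, hom_up χ hχ, hom_lo χ hχ, one_mul, one_mul]
  have hs : ∀ h : SS, (mat h).det = 1 → χ h = 1 := fun h hd => by
    by_cases h0 : mat h 1 0 = 0
    · have h1 : χ (lo 1 * h) = 1 := by
        refine hc _ ?_ ?_
        · rw [mat_mul, det_mul, hd, mat_lo]
          simp
        · rw [mat_mul, mat_lo, mul_apply, Fin.sum_univ_two, h0]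
          simp only [of_apply, cons_val', cons_val_zero, cons_val_one, cons_val_fin_one, one_mul, mul_zero, add_zero]
          intro h2
          rw [det_eq, h0, h2] at hd
          simp at hd
      rw [map_mul, hom_lo χ hχ, one_mul] at h1
      exact h1
    · exact hc h hd h0
  have h2 : χ (h * h) = 1 := hs _ (by rw [mat_mul, det_mul, ← sq, det_sq])
  rw [map_mul, ← sq] at h2
  exact NNReal_pow_eq_one (by norm_num) h2

/-- **`SS` is unimodular.** -/
instance isMulRightInvariant (μ : Measure SS) [μ.IsHaarMeasure] : μ.IsMulRightInvariant := by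
  constructor
  intro g
  have h1 : Measure.map (· * g) μ = (Measure.haarScalarFactor (Measure.map (· * g) μ) μ) • μ :=
    Measure.isMulLeftInvariant_eq_smul _ _
  have h2 := Measure.modularCharacterFun_eq_haarScalarFactor μ g
  have h3 : Measure.modularCharacterFun g = 1 := hom_eq_one Measure.modularCharacter g
  rw [h1, ← h2, h3, one_smul]

end Pool.Agent.Helper9.FP
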